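import Pool.Agent.J6H67.CG.Stm
import Pool.Agent.J6H39.RS.ARA

set_option autoImplicit false

/-!
# Project CG, module ARG: the mean density in short intervals, sieves `≤ (log n) ^ b`
-/

namespace Pool.Agent.J6H67.CG

open MeasureTheory Filter Finset
open scoped Topology
open Pool.Agent.J6H39.RS
open Pool.Agent.J6H39.RS.ARAaux

open Classical in
theorem t_ARG (h : S_FLI) : S_ARG := by
  intro η hη
  obtain ⟨δ, hδ0, hδη, hδ8⟩ : ∃ δ : ℝ, 0 < δ ∧ 3 * δ ≤ η ∧ δ ≤ 1 / 8 :=
    ⟨min (η / 3) (1 / 8), by positivity, by linarith [min_le_left (η / 3) (1 / 8 : ℝ)], min_le_right _ _⟩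
  obtain ⟨C, hC⟩ := h δ hδ0
  refine ⟨((C + 2 : ℕ) : ℝ)⁻¹, by positivity, ?_, ?_⟩
  · apply inv_le_one_of_one_le₀
    push_cast
    linarith [Nat.cast_nonneg (α := ℝ) C]
  intro z hz hsmall c1 c2 hc1 hc2
  have hlog : Tendsto (fun n : ℕ => Real.log n) atTop atTop :=
    Real.tendsto_log_atTop.comp tendsto_natCast_atTop_atTop
  have hsmall2 : ∀ᶠ n : ℕ in atTop, ∀ N : ℕ, n ≤ N → (z N : ℝ) ≤ Real.log N ^ (((C + 2 : ℕ) : ℝ)⁻¹) :=
    eventually_forall_ge_atTop.mpr hsmall
  filter_upwards [end_le c2, hsmall2, hlog.eventually (eventually_ge_atTop (Real.log 2 / δ)),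
    hlog.eventually (eventually_ge_atTop (1 : ℝ)),
    hlog.eventually (eventually_ge_atTop (C * 2 ^ (C + 3) / (δ * c1))), eventually_ge_atTop 2]
    with n hA hB hl1 hl2 hl3 hn2 g hg1 hg2
  have hgn := hA g hg2
  have hn0 : (0 : ℝ) < n := by exact_mod_cast (by omega : 0 < n)
  have hL : 0 < Real.log n := by linarith
  have hlog2 : Real.log ((n : ℝ) + g) ≤ (1 + δ) * Real.log n := by
    have h1 : Real.log ((n : ℝ) + g) ≤ Real.log (2 * n) := by
      apply Real.log_le_log (by positivity)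
      linarith
    rw [Real.log_mul (by norm_num) hn0.ne'] at h1
    have h2 : Real.log 2 ≤ δ * Real.log n := by
      rw [div_le_iff₀ hδ0] at hl1
      linarith
    linarith
  have hZ : (C : ℝ) * ((z (n + g) : ℝ) + 1) ^ (C + 2) ≤ δ * g := by
    have h1 := hB (n + g) (by omega)
    have h2 : Real.log ((n + g : ℕ) : ℝ) ≤ 2 * Real.log n := by
      push_cast
      have : (1 + δ) * Real.log n ≤ 2 * Real.log n := by
        apply mul_le_mul_of_nonneg_right _ hL.le
        linarith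
      linarith
    have h0 : 0 ≤ Real.log ((n + g : ℕ) : ℝ) := Real.log_natCast_nonneg _
    have h3 : (z (n + g) : ℝ) ≤ (2 * Real.log n) ^ (((C + 2 : ℕ) : ℝ)⁻¹) :=
      h1.trans (Real.rpow_le_rpow h0 h2 (by positivity))
    have h4 : (1 : ℝ) ≤ (2 * Real.log n) ^ (((C + 2 : ℕ) : ℝ)⁻¹) :=
      Real.one_le_rpow (by linarith) (by positivity)
    have h5 : ((z (n + g) : ℝ) + 1) ^ (C + 2) ≤ (2 * (2 * Real.log n) ^ (((C + 2 : ℕ) : ℝ)⁻¹)) ^ (C + 2) := by
      apply pow_le_pow_left₀ (by positivity)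
      linarith
    rw [mul_pow, Real.rpow_inv_natCast_pow (by positivity) (by omega)] at h5
    rw [div_le_iff₀ (by positivity)] at hl3
    calc (C : ℝ) * ((z (n + g) : ℝ) + 1) ^ (C + 2) ≤ C * (2 ^ (C + 2) * (2 * Real.log n)) :=
          mul_le_mul_of_nonneg_left h5 (by positivity)
      _ = (C * 2 ^ (C + 3)) * Real.log n := by ring
      _ ≤ (Real.log n * (δ * c1)) * Real.log n := mul_le_mul_of_nonneg_right hl3 hL.le
      _ = δ * (c1 * Real.log n ^ 2) := by ring
      _ ≤ δ * g := mul_le_mul_of_nonneg_left hg1 hδ0.le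
  have hF := F_bound δ C hC z hz n g
  set F : ℝ := ∑ m ∈ Ioc n (n + g), (if Rough z m then W (z m) else 0) with hFdef
  have hF2 : |F - g| ≤ 2 * δ * g := by linarith
  have hF3 := abs_le.mp hF2
  have hg0 : (0 : ℝ) ≤ g := Nat.cast_nonneg g
  have hlow : F / ((1 + δ) * Real.log n) ≤ ∑ m ∈ Ioc n (n + g), w z m := by
    rw [hFdef, Finset.sum_div]
    apply Finset.sum_le_sum
    intro m hm
    rw [Finset.mem_Ioc] at hm
    unfold w
    split_ifs with hr
    · have hm0 : (0 : ℝ) < m := by exact_mod_cast (by omega : 0 < m)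
      have hm1 : 0 < Real.log m := by
        apply Real.log_pos
        exact_mod_cast (by omega : 1 < m)
      apply div_le_div_of_nonneg_left (W_pos _).le hm1
      refine le_trans ?_ hlog2
      apply Real.log_le_log hm0
      exact_mod_cast hm.2
    · simp
  have hq : 0 ≤ (g : ℝ) / Real.log n := by positivity
  have h1 : (1 - 3 * δ) * (g / Real.log n) ≤ F / ((1 + δ) * Real.log n) := by
    rw [le_div_iff₀ (by positivity)]
    have e : (1 - 3 * δ) * (g / Real.log n) * ((1 + δ) * Real.log n) = (1 - 3 * δ) * (1 + δ) * g := by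
      field_simp
    rw [e]
    nlinarith [mul_nonneg (mul_nonneg hδ0.le hδ0.le) hg0]
  nlinarith [mul_le_mul_of_nonneg_right hδη hq]

end Pool.Agent.J6H67.CG
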