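import Pool.Agent.J6H67.CG.Stm
import Pool.Agent.J6H39.RS.CRU

/-! # Module CG-BLK: a good translate in one block -/

set_option autoImplicit false

namespace Pool.Agent.J6H67.CG

open Finset
open Pool.Agent.J6H39.RS

namespace BLKaux

theorem prod_pos' (P : Finset ℕ) (hP : ∀ p ∈ P, p.Prime) : 1 ≤ ∏ p ∈ P, p :=
  Finset.one_le_prod' fun p hp => (hP p hp).one_le

theorem dvd_iff (P : Finset ℕ) (hP : ∀ p ∈ P, p.Prime) (q : ℕ) (hq : q.Prime) :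
    q ∣ ∏ p ∈ P, p ↔ q ∈ P := by
  constructor
  · intro h
    obtain ⟨p, hp, hqp⟩ := (hq.prime.dvd_finsetProd_iff _).1 h
    rwa [(Nat.prime_dvd_prime_iff_eq hq (hP p hp)).1 hqp]
  · intro h
    exact dvd_prod_of_mem _ h

theorem W_eq (P : Finset ℕ) (v : ℕ) (hP : ∀ p ∈ P, p.Prime ∧ p ≤ v) :
    W v = (∏ p ∈ P, (1 - (p : ℝ)⁻¹)⁻¹) * WQ v (∏ p ∈ P, p) := by
  classical
  rw [W, WQ, ← prod_filter_mul_prod_filter_not ((Icc 1 v).filter Nat.Prime)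
    (fun q => q ∣ ∏ p ∈ P, p)]
  congr 1
  · refine prod_congr ?_ fun _ _ => rfl
    ext q
    simp only [mem_filter, mem_Icc]
    constructor
    · rintro ⟨⟨_, h2⟩, h3⟩
      exact (dvd_iff P (fun p hp => (hP p hp).1) q h2).1 h3
    · intro h
      have h1 := hP q h
      exact ⟨⟨⟨h1.1.one_le, h1.2⟩, h1.1⟩, (dvd_iff P (fun p hp => (hP p hp).1) q h1.1).2 h⟩
  · refine prod_congr ?_ fun _ _ => rfl
    ext q
    simp only [mem_filter, mem_Icc]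
    tauto

theorem rgh_eq (v b g : ℕ) :
    rgh v b g = ((Icc 1 g).filter fun h => ∀ p ∈ (Icc 1 v).filter Nat.Prime, ¬ p ∣ b + h).card := by
  classical
  rw [rgh]
  refine card_nbij' (fun m => m - b) (fun h => b + h) ?_ ?_ ?_ ?_
  · intro m hm
    simp only [coe_filter, mem_Ioc, Set.mem_ofPred_eq] at hm
    obtain ⟨⟨h1, h2⟩, h3⟩ := hm
    have h4 : b + (m - b) = m := by omega
    simp only [coe_filter, mem_Icc, Set.mem_ofPred_eq, mem_filter, h4]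
    exact ⟨⟨by omega, by omega⟩, fun p hp => h3 p hp.2 hp.1.2⟩
  · intro h hh
    simp only [coe_filter, mem_Icc, Set.mem_ofPred_eq, mem_filter] at hh
    simp only [coe_filter, mem_Ioc, Set.mem_ofPred_eq]
    exact ⟨⟨by omega, by omega⟩, fun q hq hqv => hh.2 q ⟨⟨hq.one_le, hqv⟩, hq⟩⟩
  · intro m hm
    simp only [coe_filter, mem_Ioc, Set.mem_ofPred_eq] at hm
    obtain ⟨⟨h1, h2⟩, h3⟩ := hm
    change b + (m - b) = m
    omega
  · intro h _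
    change b + h - b = h
    omega

theorem swap (P : Finset ℕ) (v g a T : ℕ) (hP : ∀ p ∈ P, p.Prime ∧ p ≤ v) :
    ∑ t ∈ Ioc a (a + T), rgh v ((∏ p ∈ P, p) * t) g =
      ∑ h ∈ (Icc 1 g).filter (fun h => ∀ p ∈ P, ¬ p ∣ h), rgp v (∏ p ∈ P, p) h a T := by
  classical
  have h1 : ∑ h ∈ (Icc 1 g).filter (fun h => ∀ p ∈ P, ¬ p ∣ h), rgp v (∏ p ∈ P, p) h a T =
      ∑ h ∈ Icc 1 g, rgp v (∏ p ∈ P, p) h a T := by
    refine sum_filter_of_ne fun h _ hne p hp hph => ?_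
    rw [rgp] at hne
    obtain ⟨t, ht⟩ := card_pos.1 (Nat.pos_of_ne_zero hne)
    rw [mem_filter] at ht
    refine ht.2 p (mem_filter.2 ⟨mem_Icc.2 ⟨(hP p hp).1.one_le, (hP p hp).2⟩, (hP p hp).1⟩) ?_
    exact dvd_add (Dvd.dvd.mul_right (dvd_prod_of_mem _ hp) _) hph
  rw [h1]
  simp_rw [rgh_eq, rgp, card_filter]
  rw [sum_comm]

end BLKaux

open BLKaux in
theorem t_BLK (hF : S_FLP) : S_BLK := by
  classical
  intro δ hδ
  obtain ⟨C, hC⟩ := hF δ hδ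
  refine ⟨C + 1, fun P v g a T κ hP hT hB => ?_⟩
  set Q := ∏ p ∈ P, p with hQ
  set Bs := (Icc 1 g).filter (fun h => ∀ p ∈ P, ¬ p ∣ h) with hBs
  have hQ1 : 1 ≤ Q := prod_pos' P fun p hp => (hP p hp).1
  have hWv := W_eq P v hP
  rw [← hQ] at hWv
  have hWge := CRU.W_ge v
  have hWle := CRU.W_le v
  have hPpos : 0 < ∏ p ∈ P, (1 - (p : ℝ)⁻¹) := by
    refine prod_pos fun p hp => ?_
    have h2 : (2 : ℝ) ≤ (p : ℝ) := by exact_mod_cast (hP p hp).1.two_le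
    have h4 : (p : ℝ)⁻¹ ≤ 2⁻¹ := inv_anti₀ (by norm_num) h2
    linarith
  have hPinv : ∏ p ∈ P, (1 - (p : ℝ)⁻¹)⁻¹ = (∏ p ∈ P, (1 - (p : ℝ)⁻¹))⁻¹ := prod_inv_distrib _
  rw [hPinv] at hWv
  set Pr := ∏ p ∈ P, (1 - (p : ℝ)⁻¹) with hPr
  have hWQ : 0 < WQ v Q := by
    have h1 : 0 < Pr⁻¹ * WQ v Q := by rw [← hWv]; linarith
    exact (pos_iff_pos_of_mul_pos h1).1 (inv_pos.2 hPpos)
  have hT0 : (0 : ℝ) < T := by exact_mod_cast hT
  have hv0 : (0 : ℝ) < (v : ℝ) + 1 := by positivity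
  -- the bound for one `h`
  have h1 : ∀ h ∈ Bs, (rgp v Q h a T : ℝ) ≤ (1 + δ) * (T / WQ v Q) + C * ((v : ℝ) + 1) ^ C := by
    intro h hh
    rw [hBs, mem_filter] at hh
    have hcop : Nat.Coprime h Q := by
      refine Nat.Coprime.prod_right fun p hp => ?_
      exact ((Nat.Prime.coprime_iff_not_dvd (hP p hp).1).2 (hh.2 p hp)).symm
    have := (abs_le.1 (hC v Q h a T hQ1 hcop)).2
    linarith
  have h2 : ∑ t ∈ Ioc a (a + T), (rgh v (Q * t) g : ℝ) ≤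
      Bs.card * ((1 + δ) * (T / WQ v Q) + C * ((v : ℝ) + 1) ^ C) := by
    have h3 := swap P v g a T hP
    rw [← hQ, ← hBs] at h3
    calc ∑ t ∈ Ioc a (a + T), (rgh v (Q * t) g : ℝ)
        = ((∑ t ∈ Ioc a (a + T), rgh v (Q * t) g : ℕ) : ℝ) := by push_cast; rfl
      _ = ∑ h ∈ Bs, (rgp v Q h a T : ℝ) := by rw [h3]; push_cast; rfl
      _ ≤ ∑ _h ∈ Bs, ((1 + δ) * (T / WQ v Q) + C * ((v : ℝ) + 1) ^ C) := sum_le_sum h1
      _ = _ := by rw [sum_const, nsmul_eq_mul]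
  have hBg : (Bs.card : ℝ) ≤ g := by
    have : Bs.card ≤ (Icc 1 g).card := card_filter_le _ _
    rw [Nat.card_Icc] at this
    exact_mod_cast this
  -- the total
  have h3 : (∑ t ∈ Ioc a (a + T), (rgh v (Q * t) g : ℝ)) * W v ≤
      T * (((1 + δ) * κ + ((C + 1 : ℕ) : ℝ) * ((v : ℝ) + 1) ^ (C + 1) / T) * g) := by
    have h4 : (Bs.card : ℝ) * ((1 + δ) * (T / WQ v Q)) * W v ≤ T * ((1 + δ) * κ * g) := by
      have h5 : (Bs.card : ℝ) * ((1 + δ) * (T / WQ v Q)) * W v =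
          (1 + δ) * T * ((Bs.card : ℝ) * Pr⁻¹) := by
        rw [hWv]
        field_simp
      have h6 : (Bs.card : ℝ) * Pr⁻¹ ≤ κ * g := by
        rw [← div_eq_mul_inv, div_le_iff₀ hPpos]
        exact hB
      rw [h5]
      calc (1 + δ) * T * ((Bs.card : ℝ) * Pr⁻¹) ≤ (1 + δ) * T * (κ * g) :=
            mul_le_mul_of_nonneg_left h6 (by positivity)
        _ = T * ((1 + δ) * κ * g) := by ring
    have h7 : (Bs.card : ℝ) * (C * ((v : ℝ) + 1) ^ C) * W v ≤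
        g * (((C + 1 : ℕ) : ℝ) * ((v : ℝ) + 1) ^ (C + 1)) := by
      have h8 : (C : ℝ) * ((v : ℝ) + 1) ^ C * W v ≤ ((C + 1 : ℕ) : ℝ) * ((v : ℝ) + 1) ^ (C + 1) := by
        have h9 : (C : ℝ) * ((v : ℝ) + 1) ^ C * W v ≤ C * ((v : ℝ) + 1) ^ C * ((v : ℝ) + 1) :=
          mul_le_mul_of_nonneg_left hWle (by positivity)
        have h10 : (C : ℝ) * ((v : ℝ) + 1) ^ (C + 1) ≤ ((C + 1 : ℕ) : ℝ) * ((v : ℝ) + 1) ^ (C + 1) := by
          refine mul_le_mul_of_nonneg_right ?_ (by positivity)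
          push_cast
          linarith
        rw [pow_succ] at h10 ⊢
        linarith
      have h11 : (0 : ℝ) ≤ (C : ℝ) * ((v : ℝ) + 1) ^ C * W v := by positivity
      calc (Bs.card : ℝ) * (C * ((v : ℝ) + 1) ^ C) * W v
          = Bs.card * (C * ((v : ℝ) + 1) ^ C * W v) := by ring
        _ ≤ g * (C * ((v : ℝ) + 1) ^ C * W v) := mul_le_mul_of_nonneg_right hBg h11
        _ ≤ _ := mul_le_mul_of_nonneg_left h8 (by positivity)
    have h12 : (T : ℝ) * (((1 + δ) * κ + ((C + 1 : ℕ) : ℝ) * ((v : ℝ) + 1) ^ (C + 1) / T) * g) =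
        T * ((1 + δ) * κ * g) + g * (((C + 1 : ℕ) : ℝ) * ((v : ℝ) + 1) ^ (C + 1)) := by
      field_simp
    rw [h12]
    calc (∑ t ∈ Ioc a (a + T), (rgh v (Q * t) g : ℝ)) * W v
        ≤ Bs.card * ((1 + δ) * (T / WQ v Q) + C * ((v : ℝ) + 1) ^ C) * W v :=
          mul_le_mul_of_nonneg_right h2 (by linarith)
      _ = (Bs.card : ℝ) * ((1 + δ) * (T / WQ v Q)) * W v +
          (Bs.card : ℝ) * (C * ((v : ℝ) + 1) ^ C) * W v := by ring
      _ ≤ _ := add_le_add h4 h7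
  by_contra hcon
  push Not at hcon
  have h4 : T * (((1 + δ) * κ + ((C + 1 : ℕ) : ℝ) * ((v : ℝ) + 1) ^ (C + 1) / T) * g) <
      (∑ t ∈ Ioc a (a + T), (rgh v (Q * t) g : ℝ)) * W v := by
    rw [sum_mul]
    have h5 : (T : ℝ) * (((1 + δ) * κ + ((C + 1 : ℕ) : ℝ) * ((v : ℝ) + 1) ^ (C + 1) / T) * g) =
        ∑ _t ∈ Ioc a (a + T),
          (((1 + δ) * κ + ((C + 1 : ℕ) : ℝ) * ((v : ℝ) + 1) ^ (C + 1) / T) * g) := by
      rw [sum_const, Nat.card_Ioc, nsmul_eq_mul]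
      congr 2
      omega
    rw [h5]
    refine sum_lt_sum_of_nonempty ?_ fun t ht => hcon t ht
    exact ⟨a + T, mem_Ioc.2 ⟨by omega, le_rfl⟩⟩
  exact absurd h3 (not_le.2 h4)

end Pool.Agent.J6H67.CG
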