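import Pool.Agent.J6H67.CG.Stm
import Pool.Agent.J6H39.RS.CRU

set_option autoImplicit false

/-!
# Module CRG (helper48): a crude bound for the runs, sieves `≤ n^(o(1))`

Adapted from `Pool/Agent/J6H39/RS/CRU.lean`; the lemmas on `W` and `w` are taken from there.
-/

namespace Pool.Agent.J6H67.CG

open MeasureTheory Filter Finset
open scoped Topology
open Pool.Agent.J6H39.RS

namespace CRG

lemma ev (A : ℝ) : ∀ᶠ x : ℝ in atTop, A * x ^ (1 / 4 : ℝ) + 32 * x ^ (1 / 4 : ℝ) * Real.log x ^ 2 ≤ x := by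
  have h1 : ∀ᶠ x : ℝ in atTop, Real.log x ^ 2 ≤ x ^ (1 / 4 : ℝ) := by
    have h2 := (isLittleO_log_rpow_rpow_atTop 2 (show (0 : ℝ) < 1 / 4 by norm_num)).def
      (show (0 : ℝ) < 1 by norm_num)
    filter_upwards [h2, eventually_ge_atTop (1 : ℝ)] with x hx hx1
    have h3 : 0 ≤ Real.log x := Real.log_nonneg hx1
    rw [Real.rpow_two, Real.norm_eq_abs, Real.norm_eq_abs, abs_of_nonneg (by positivity),
      abs_of_nonneg (by positivity), one_mul] at hx
    exact hx
  have h2 : ∀ᶠ x : ℝ in atTop, |A| + 32 ≤ x ^ (1 / 2 : ℝ) :=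
    (tendsto_rpow_atTop (by norm_num)).eventually_ge_atTop _
  filter_upwards [h1, h2, eventually_ge_atTop (1 : ℝ)] with x h3 h4 h5
  obtain ⟨r, hr⟩ : ∃ r, r = x ^ (1 / 4 : ℝ) := ⟨_, rfl⟩
  have hx0 : (0 : ℝ) < x := by linarith
  have e1 : x ^ (1 / 2 : ℝ) = r ^ 2 := by
    rw [hr, ← Real.rpow_natCast, ← Real.rpow_mul hx0.le]
    norm_num
  have e2 : x = r ^ 4 := by
    rw [hr, ← Real.rpow_natCast, ← Real.rpow_mul hx0.le]
    norm_num
  have hr1 : 1 ≤ r := by
    rw [hr]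
    exact Real.one_le_rpow h5 (by norm_num)
  rw [← hr] at h3 ⊢
  rw [e1] at h4
  have h6 : A * r ≤ |A| * r ^ 2 := by
    have h7 : A * r ≤ |A| * r := mul_le_mul_of_nonneg_right (le_abs_self A) (by linarith)
    have h8 : |A| * r ≤ |A| * r ^ 2 := mul_le_mul_of_nonneg_left (by nlinarith) (abs_nonneg A)
    linarith
  have h9 : 32 * r * Real.log x ^ 2 ≤ 32 * r * r := mul_le_mul_of_nonneg_left h3 (by linarith)
  have h10 : (|A| + 32) * r ^ 2 ≤ r ^ 2 * r ^ 2 := mul_le_mul_of_nonneg_right h4 (by positivity)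
  have h11 : r ^ 2 * r ^ 2 = r ^ 4 := by ring
  calc A * r + 32 * r * Real.log x ^ 2 ≤ |A| * r ^ 2 + 32 * r * r := by linarith
    _ = (|A| + 32) * r ^ 2 := by ring
    _ ≤ r ^ 4 := by rw [← h11]; exact h10
    _ = x := e2.symm

open Classical in
theorem num (h1 : S_FLI) (z : ℕ → ℕ) (hz : Monotone z) (hz2 : Sub z) :
    ∀ᶠ n : ℕ in atTop, 4 * Real.log n * Real.log ((2 * n : ℕ) : ℝ) ≤
      (((Ioc n (2 * n)).filter (fun m => Rough z m)).card : ℝ) := by
  obtain ⟨C, hC⟩ := h1 (1 / 2) (by norm_num)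
  have hCr : (0 : ℝ) ≤ C := Nat.cast_nonneg C
  obtain ⟨σ, hσ⟩ : ∃ σ : ℝ, σ = 1 / (4 * ((C : ℝ) + 2)) := ⟨_, rfl⟩
  have hσ0 : 0 < σ := by
    rw [hσ]
    positivity
  have ht : Tendsto (fun n : ℕ => 2 * n) atTop atTop :=
    tendsto_atTop_mono (fun n => by simp only [id]; omega) tendsto_id
  have htr : Tendsto (fun n : ℕ => ((2 * n : ℕ) : ℝ)) atTop atTop :=
    tendsto_natCast_atTop_atTop.comp ht
  have e1 := ht.eventually (hz2 σ hσ0)
  have e2 := htr.eventually (ev (4 * C * 2 ^ (C + 1)))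
  filter_upwards [e1, e2, eventually_ge_atTop 1] with n h2 h3 hn
  obtain ⟨x, hx⟩ : ∃ x : ℝ, x = ((2 * n : ℕ) : ℝ) := ⟨_, rfl⟩
  rw [← hx] at h2 h3 ⊢
  have hn' : (1 : ℝ) ≤ n := by exact_mod_cast hn
  have hx2 : x = 2 * n := by
    rw [hx]
    push_cast
    ring
  have hx1 : (1 : ℝ) ≤ x := by linarith
  have hx0 : (0 : ℝ) < x := by linarith
  obtain ⟨v, hv⟩ : ∃ v, v = z (2 * n) := ⟨_, rfl⟩
  rw [← hv] at h2
  obtain ⟨y, hy⟩ : ∃ y : ℝ, y = 2 * x ^ σ := ⟨_, rfl⟩
  have hxσ : 1 ≤ x ^ σ := Real.one_le_rpow hx1 hσ0.le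
  have hvy : (v : ℝ) + 1 ≤ y := by linarith
  have hy1 : 1 ≤ y := by linarith
  have hy4 : y ≤ 2 * x ^ (1 / 4 : ℝ) := by
    rw [hy]
    have : x ^ σ ≤ x ^ (1 / 4 : ℝ) := by
      apply Real.rpow_le_rpow_of_exponent_le hx1
      rw [hσ]
      apply one_div_le_one_div_of_le (by norm_num)
      linarith
    linarith
  have hyC : y ^ (C + 1) ≤ 2 ^ (C + 1) * x ^ (1 / 4 : ℝ) := by
    rw [hy, mul_pow]
    apply mul_le_mul_of_nonneg_left _ (by positivity)
    rw [← Real.rpow_natCast, ← Real.rpow_mul hx0.le]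
    apply Real.rpow_le_rpow_of_exponent_le hx1
    rw [hσ]
    push_cast
    rw [div_mul_eq_mul_div, div_le_div_iff₀ (by positivity) (by norm_num)]
    linarith
  have hW1 : 0 < W v := lt_of_lt_of_le zero_lt_one (CRU.W_ge v)
  have hWy : W v ≤ y := (CRU.W_le v).trans hvy
  have hC' := hC v n n
  have hr : (n : ℝ) / (2 * y) - C * y ^ C ≤ (rgh v n n : ℝ) := by
    have h10 := (abs_le.1 hC').1
    have h11 : (n : ℝ) / y ≤ n / W v := div_le_div_of_nonneg_left (by linarith) hW1 hWy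
    have h12 : (C : ℝ) * ((v : ℝ) + 1) ^ C ≤ C * y ^ C := by
      apply mul_le_mul_of_nonneg_left _ (by positivity)
      exact pow_le_pow_left₀ (by positivity) hvy _
    have h13 : (n : ℝ) / (2 * y) = 1 / 2 * (n / y) := by
      field_simp
    rw [h13]
    linarith
  have hcard : (rgh v n n : ℝ) ≤ (((Ioc n (2 * n)).filter (fun m => Rough z m)).card : ℝ) := by
    have : rgh v n n ≤ ((Ioc n (2 * n)).filter (fun m => Rough z m)).card := by
      unfold rgh
      apply Finset.card_le_card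
      intro m hm
      rw [Finset.mem_filter, Finset.mem_Ioc] at hm ⊢
      refine ⟨⟨hm.1.1, by omega⟩, ?_⟩
      intro q hq hqz
      refine hm.2 q hq (hqz.trans ?_)
      rw [hv]
      exact hz (by omega)
    exact_mod_cast this
  have hfin : 4 * Real.log n * Real.log x ≤ (n : ℝ) / (2 * y) - C * y ^ C := by
    have hlx : 0 ≤ Real.log x := Real.log_nonneg hx1
    have h17 : Real.log n ≤ Real.log x := Real.log_le_log (by linarith) (by linarith)
    have h18 : 4 * Real.log n * Real.log x ≤ 4 * Real.log x ^ 2 := by nlinarith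
    have h19 : 4 * Real.log x ^ 2 + C * y ^ C ≤ (n : ℝ) / (2 * y) := by
      rw [le_div_iff₀ (by linarith)]
      have h20 : (4 * Real.log x ^ 2 + C * y ^ C) * (2 * y) =
          8 * Real.log x ^ 2 * y + 2 * (C * y ^ (C + 1)) := by ring
      rw [h20]
      have h21 : 8 * Real.log x ^ 2 * y ≤ 8 * Real.log x ^ 2 * (2 * x ^ (1 / 4 : ℝ)) :=
        mul_le_mul_of_nonneg_left hy4 (by positivity)
      have h22 : (C : ℝ) * y ^ (C + 1) ≤ C * (2 ^ (C + 1) * x ^ (1 / 4 : ℝ)) :=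
        mul_le_mul_of_nonneg_left hyC hCr
      have h23 : 2 * (8 * Real.log x ^ 2 * (2 * x ^ (1 / 4 : ℝ)) +
          2 * (C * (2 ^ (C + 1) * x ^ (1 / 4 : ℝ)))) =
          4 * C * 2 ^ (C + 1) * x ^ (1 / 4 : ℝ) + 32 * x ^ (1 / 4 : ℝ) * Real.log x ^ 2 := by ring
      linarith
    linarith
  linarith

end CRG

/-- almost surely every interval `(n, 2n]`, `n` large, contains a chosen integer -/
theorem t_CRG (h1 : S_FLI) (h2 : S_PU) (h3 : S_RB) (_h4 : S_WSM) : S_CRG := by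
  classical
  intro Ω mΩ μ _ ℱ S z hM hz hz2
  set l : ℕ → ℝ := fun m => min 1 (w z m / 2) with hl
  have hl0 : ∀ m, 0 ≤ l m := fun m => le_min zero_le_one (by have := CRU.w_nonneg z m; linarith)
  have hl1 : ∀ m, l m ≤ 1 := fun m => min_le_left _ _
  set P : ℕ → Ω → Prop := fun n ω =>
    (∀ m ∈ Ioc n (2 * n), l m ≤ q μ ℱ S m ω) ∧ ∀ m ∈ Ioc n (2 * n), ω ∉ S m with hP
  have hbound : ∀ᶠ n : ℕ in atTop, μ.real {ω | P n ω} ≤ 1 / (n : ℝ) ^ 2 := by
    have htr : Tendsto (fun n : ℕ => ((2 * n : ℕ) : ℝ)) atTop atTop :=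
      tendsto_natCast_atTop_atTop.comp
        (tendsto_atTop_mono (fun n => by simp only [id]; omega) tendsto_id)
    have e3 : ∀ᶠ n : ℕ in atTop, (1 : ℝ) ≤ Real.log ((2 * n : ℕ) : ℝ) :=
      (Real.tendsto_log_atTop.comp htr).eventually (eventually_ge_atTop 1)
    filter_upwards [CRG.num h1 z hz hz2, e3, eventually_ge_atTop 2] with n hn hL hn1
    have hnpos : (0 : ℝ) < n := by exact_mod_cast (by omega : 0 < n)
    set L : ℝ := Real.log ((2 * n : ℕ) : ℝ) with hLdef
    have hp := h2 μ ℱ S hM.adapted (Ioc n (2 * n)) l (by simp) (fun m _ => ⟨hl0 m, hl1 m⟩)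
    refine hp.trans ?_
    have h4 : ∏ m ∈ Ioc n (2 * n), (1 - l m) ≤ Real.exp (-∑ m ∈ Ioc n (2 * n), l m) := by
      rw [← Finset.sum_neg_distrib, Real.exp_sum]
      apply Finset.prod_le_prod
      · intro m _
        linarith [hl1 m]
      · intro m _
        linarith [Real.add_one_le_exp (-l m)]
    refine h4.trans ?_
    have h5 : 2 * Real.log n ≤ ∑ m ∈ Ioc n (2 * n), l m := by
      have h6 : ∑ m ∈ (Ioc n (2 * n)).filter (fun m => Rough z m), l m ≤ ∑ m ∈ Ioc n (2 * n), l m :=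
        Finset.sum_le_sum_of_subset_of_nonneg (Finset.filter_subset _ _) (fun m _ _ => hl0 m)
      refine le_trans ?_ h6
      have h7 : ∑ _m ∈ (Ioc n (2 * n)).filter (fun m => Rough z m), (1 / (2 * L)) ≤
          ∑ m ∈ (Ioc n (2 * n)).filter (fun m => Rough z m), l m := by
        apply Finset.sum_le_sum
        intro m hm
        rw [Finset.mem_filter, Finset.mem_Ioc] at hm
        have hm2 : (2 : ℝ) ≤ (m : ℝ) := by exact_mod_cast (by omega : 2 ≤ m)
        have hmpos : 0 < Real.log m := Real.log_pos (by linarith)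
        have h8 : Real.log m ≤ L := Real.log_le_log (by linarith) (by exact_mod_cast hm.1.2)
        have h9 : 1 / L ≤ 1 / Real.log m := one_div_le_one_div_of_le hmpos h8
        have h10 := CRU.w_ge z m hm.2
        have h11 : 1 / (2 * L) = (1 / L) / 2 := by field_simp
        apply le_min
        · rw [div_le_one (by linarith)]
          linarith
        · rw [h11]
          linarith
      refine le_trans ?_ h7
      rw [Finset.sum_const, nsmul_eq_mul, mul_one_div, le_div_iff₀ (by linarith)]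
      calc 2 * Real.log n * (2 * L) = 4 * Real.log n * L := by ring
        _ ≤ _ := hn
    calc Real.exp (-∑ m ∈ Ioc n (2 * n), l m) ≤ Real.exp (-(2 * Real.log n)) :=
          Real.exp_le_exp.2 (by linarith)
      _ = 1 / (n : ℝ) ^ 2 := by
          rw [Real.exp_neg, two_mul, Real.exp_add, Real.exp_log hnpos]
          rw [one_div, sq]
  have hsum : Summable (fun n : ℕ => μ.real {ω | P n ω}) := by
    apply Summable.of_norm_bounded_eventually_nat (g := fun n : ℕ => 1 / (n : ℝ) ^ 2)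
      (Real.summable_one_div_nat_pow.2 (by norm_num))
    filter_upwards [hbound] with n hn
    rw [Real.norm_eq_abs, abs_of_nonneg measureReal_nonneg]
    exact hn
  have htop : ∑' n, μ {ω | P n ω} ≠ ⊤ := by
    have h4 := hsum.tsum_ofReal_ne_top
    have h5 : ∀ n, ENNReal.ofReal (μ.real {ω | P n ω}) = μ {ω | P n ω} := fun n => ofReal_measureReal
    simpa only [h5] using h4
  have hbc := measure_setOfPred_frequently_eq_zero htop
  have hae : ∀ᵐ ω ∂μ, ¬ ∃ᶠ n in atTop, P n ω := by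
    rw [ae_iff]
    simpa only [not_not] using hbc
  filter_upwards [hae, h3 μ ℱ S z hM (1 / 2) (by norm_num) (by norm_num)] with ω hω1 hω2
  rw [not_frequently] at hω1
  obtain ⟨N, hN⟩ := eventually_atTop.1 hω2
  filter_upwards [hω1, eventually_ge_atTop N] with n hn hnN
  by_contra hcon
  apply hn
  refine ⟨?_, ?_⟩
  · intro m hm
    have h4 := (hN m (by have := (Finset.mem_Ioc.1 hm).1; omega)).1
    refine (min_le_right _ _).trans ?_
    linarith
  · intro m hm hmS
    exact hcon ⟨m, hm, hmS⟩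

end Pool.Agent.J6H67.CG
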