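import Pool.Agent.J6H67.CG.Stm

set_option autoImplicit false

/-!
# Module DLO: the deterministic lower bound (helper20)
-/

namespace Pool.Agent.J6H67.CG

open MeasureTheory Filter Finset
open scoped Topology
open Pool.Agent.J6H39.RS

/-- a run without members gives a large gap -/
theorem dlo_gap (T : Set ℕ) {N0 a g x : ℕ} (hN : ∀ n, N0 ≤ n → ∃ m ∈ Ioc n (2 * n), m ∈ T)
    (ha : 2 * N0 ≤ a) (hax : a ≤ x) (hrun : ∀ m ∈ Ioc a (a + g), m ∉ T) : g ≤ maxGap T x := by
  classical
  obtain ⟨m0, hm0, hm0T⟩ := hN N0 le_rfl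
  rw [mem_Ioc] at hm0
  have hm0a : m0 ≤ a := by omega
  set p := Nat.findGreatest (fun n => n ∈ T) a with hp
  have hpT : p ∈ T := Nat.findGreatest_spec (P := fun n => n ∈ T) hm0a hm0T
  have hpa : p ≤ a := Nat.findGreatest_le a
  have hne : {m | m ∈ T ∧ p < m}.Nonempty := by
    obtain ⟨m, hm, hmT⟩ := hN (max N0 p) (le_max_left _ _)
    rw [mem_Ioc] at hm
    exact ⟨m, hmT, lt_of_le_of_lt (le_max_right _ _) hm.1⟩
  obtain ⟨hqT, hpq⟩ := Nat.sInf_mem hne
  set q := sInf {m | m ∈ T ∧ p < m} with hq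
  have hqa : a < q := by
    by_contra hcon
    rw [not_lt] at hcon
    exact Nat.findGreatest_is_greatest (P := fun n => n ∈ T) hpq hcon hqT
  have hqg : a + g < q := by
    by_contra hcon
    rw [not_lt] at hcon
    exact hrun q (mem_Ioc.2 ⟨hqa, hcon⟩) hqT
  have hgap : g ≤ gap T p := by
    unfold gap
    rw [← hq]
    omega
  refine hgap.trans ?_
  unfold maxGap
  refine Finset.le_sup (f := gap T) ?_
  simp only [mem_filter, mem_range]
  exact ⟨by omega, hpT⟩

theorem t_DLO : S_DLO := by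
  intro T h1 c hc h2
  obtain ⟨N0, hN0⟩ := eventually_atTop.1 h1
  have hlog : Tendsto (fun x : ℕ => Real.log x) atTop atTop :=
    Real.tendsto_log_atTop.comp tendsto_natCast_atTop_atTop
  have hXX : Tendsto (fun g : ℕ => XX c g) atTop atTop := by
    unfold XX
    refine tendsto_nat_floor_atTop.comp (Real.tendsto_exp_atTop.comp ?_)
    exact (Real.tendsto_sqrt_atTop.comp tendsto_natCast_atTop_atTop).const_mul_atTop hc
  -- the main estimate
  have key : ∀ d : ℝ, 0 < d → d < 1 / c ^ 2 → ((d : ℝ) : EReal) ≤ Ginf T := by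
    intro d hd hdc
    have hdc' : c ^ 2 * d < 1 := by
      rw [lt_div_iff₀ (by positivity)] at hdc
      linarith
    have hsq : Tendsto (fun x : ℕ => d * Real.log x ^ 2) atTop atTop :=
      ((tendsto_pow_atTop (two_ne_zero)).comp hlog).const_mul_atTop hd
    have hg : Tendsto (fun x : ℕ => ⌊d * Real.log x ^ 2⌋₊ + 1) atTop atTop :=
      tendsto_atTop_mono (fun x => Nat.le_succ _) (tendsto_nat_floor_atTop.comp hsq)
    have hsq2 : Tendsto (fun x : ℕ => (1 - c ^ 2 * d) * Real.log x ^ 2) atTop atTop :=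
      ((tendsto_pow_atTop (two_ne_zero)).comp hlog).const_mul_atTop (by linarith)
    refine le_liminf_of_le (h := ?_)
    filter_upwards [hg.eventually h2, (hXX.comp hg).eventually_ge_atTop (4 * N0),
      hsq2.eventually_ge_atTop (c ^ 2), hlog.eventually_ge_atTop 1, eventually_ge_atTop 1]
      with x hx hx4 hxc hx1 hx0
    obtain ⟨a, ha1, ha2, ha3⟩ := hx
    have hx4' : 4 * N0 ≤ XX c (⌊d * Real.log x ^ 2⌋₊ + 1) := hx4
    set g := ⌊d * Real.log x ^ 2⌋₊ + 1 with hgdef
    have hg1 : d * Real.log x ^ 2 < (g : ℝ) := by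
      rw [hgdef]
      push_cast
      exact Nat.lt_floor_add_one _
    have hg2 : (g : ℝ) ≤ d * Real.log x ^ 2 + 1 := by
      rw [hgdef]
      push_cast
      have := Nat.floor_le (show 0 ≤ d * Real.log x ^ 2 by positivity)
      linarith
    have hlogpos : 0 < Real.log x := by linarith
    have hxpos : (0 : ℝ) < x := by exact_mod_cast hx0
    have hXx : XX c g ≤ x := by
      have h3 : c * √(g : ℝ) ≤ Real.log x := by
        have h4 : (c * √(g : ℝ)) ^ 2 ≤ Real.log x ^ 2 := by
          rw [mul_pow, Real.sq_sqrt (Nat.cast_nonneg g)]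
          have h5 : c ^ 2 * (g : ℝ) ≤ c ^ 2 * (d * Real.log x ^ 2 + 1) :=
            mul_le_mul_of_nonneg_left hg2 (by positivity)
          linarith
        exact le_of_sq_le_sq h4 hlogpos.le
      have h6 : ((XX c g : ℕ) : ℝ) ≤ x := by
        unfold XX
        calc ((⌊Real.exp (c * √(g : ℝ))⌋₊ : ℕ) : ℝ) ≤ Real.exp (c * √(g : ℝ)) :=
              Nat.floor_le (Real.exp_pos _).le
          _ ≤ Real.exp (Real.log x) := Real.exp_le_exp.2 h3
          _ = x := Real.exp_log hxpos
      exact_mod_cast h6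
    have h7 : g ≤ maxGap T x :=
      dlo_gap T hN0 (by omega) (by omega) ha3
    have h8 : (g : ℝ) ≤ (maxGap T x : ℝ) := by exact_mod_cast h7
    rw [EReal.coe_le_coe_iff, le_div_iff₀ (by positivity)]
    linarith
  rw [← EReal.ge_of_forall_gt_iff_ge]
  intro r hr
  rw [EReal.coe_lt_coe_iff] at hr
  have hpos : (0 : ℝ) < 1 / c ^ 2 := by positivity
  refine le_trans ?_ (key (max r (1 / c ^ 2 / 2)) (lt_of_lt_of_le (by positivity) (le_max_right _ _))
    (max_lt hr (by linarith)))
  exact EReal.coe_le_coe_iff.2 (le_max_left _ _)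

end Pool.Agent.J6H67.CG
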