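import Pool.Agent.J6H67.CG.Stm

/-!
# Module DLS: the lower limit of the largest gaps is at most the upper limit of the gaps
-/

set_option autoImplicit false

namespace Pool.Agent.J6H67.CG

open MeasureTheory Filter Finset
open scoped Topology
open Pool.Agent.J6H39.RS

theorem dls_neBot {T : Set ℕ} (hT : T.Infinite) : (atTop ⊓ 𝓟 T : Filter ℕ).NeBot := by
  rw [Filter.inf_principal_neBot_iff]
  intro U hU
  obtain ⟨N, hN⟩ := mem_atTop_sets.1 hU
  obtain ⟨n, hn, hn'⟩ := hT.exists_gt N
  exact ⟨n, hN n hn'.le, hn⟩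

theorem dls_nonneg {T : Set ℕ} (hT : T.Infinite) : 0 ≤ Lsup T := by
  haveI := dls_neBot hT
  unfold Lsup
  refine le_limsup_of_frequently_le (Eventually.of_forall fun n => ?_).frequently
  have h : (0 : ℝ) ≤ (gap T n : ℝ) / Real.log n ^ 2 := by positivity
  exact_mod_cast h

theorem t_DLS : S_DLS := by
  classical
  intro T hT
  refine le_of_forall_gt_imp_ge_of_dense fun c' hc' => ?_
  obtain ⟨c, hc1, hc2⟩ := EReal.lt_iff_exists_real_btwn.1 hc'
  refine le_trans ?_ hc2.le
  have hc0 : 0 < c := by
    have := (dls_nonneg hT).trans_lt hc1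
    exact_mod_cast this
  have hev : ∀ᶠ n in atTop ⊓ 𝓟 T, (((gap T n : ℝ) / Real.log n ^ 2 : ℝ) : EReal) < (c : EReal) :=
    eventually_lt_of_limsup_lt hc1
  rw [eventually_inf_principal] at hev
  obtain ⟨N, hN⟩ := eventually_atTop.1 hev
  have hlog : Tendsto (fun x : ℕ => c * Real.log x ^ 2) atTop atTop := by
    refine Tendsto.const_mul_atTop hc0 ?_
    exact (tendsto_pow_atTop two_ne_zero).comp
      (Real.tendsto_log_atTop.comp tendsto_natCast_atTop_atTop)
  have hmain : ∀ᶠ x : ℕ in atTop,
      (((maxGap T x : ℝ) / Real.log x ^ 2 : ℝ) : EReal) ≤ (c : EReal) := by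
    filter_upwards [hlog.eventually_ge_atTop ((maxGap T (N + 2) : ℕ) : ℝ),
      eventually_ge_atTop 3] with x hx hx3
    have hlx : 0 < Real.log x := Real.log_pos (by exact_mod_cast (by omega : 1 < x))
    have hB : 0 ≤ c * Real.log x ^ 2 := by positivity
    have h1 : maxGap T x ≤ ⌊c * Real.log x ^ 2⌋₊ := by
      unfold maxGap
      refine Finset.sup_le fun n hn => ?_
      obtain ⟨hn1, hn2⟩ := Finset.mem_filter.1 hn
      rw [Finset.mem_range] at hn1
      refine Nat.le_floor ?_
      by_cases hnN : n ≤ N + 2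
      · refine le_trans ?_ hx
        have : gap T n ≤ maxGap T (N + 2) := by
          unfold maxGap
          exact Finset.le_sup (f := gap T)
            (Finset.mem_filter.2 ⟨Finset.mem_range.2 (by omega), hn2⟩)
        exact_mod_cast this
      · have h2 := hN n (by omega) hn2
        have h3 : (gap T n : ℝ) / Real.log n ^ 2 < c := by exact_mod_cast h2
        have hln : 0 < Real.log n := Real.log_pos (by exact_mod_cast (by omega : 1 < n))
        rw [div_lt_iff₀ (by positivity)] at h3
        have h4 : Real.log n ≤ Real.log x :=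
          Real.log_le_log (by exact_mod_cast (by omega : 0 < n))
            (by exact_mod_cast (by omega : n ≤ x))
        have h5 : Real.log n ^ 2 ≤ Real.log x ^ 2 := pow_le_pow_left₀ hln.le h4 2
        exact h3.le.trans (mul_le_mul_of_nonneg_left h5 hc0.le)
    have h6 : (maxGap T x : ℝ) ≤ c * Real.log x ^ 2 :=
      (by exact_mod_cast h1 : (maxGap T x : ℝ) ≤ (⌊c * Real.log x ^ 2⌋₊ : ℝ)).trans
        (Nat.floor_le hB)
    have h7 : (maxGap T x : ℝ) / Real.log x ^ 2 ≤ c := by
      rw [div_le_iff₀ (by positivity)]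
      exact h6
    exact_mod_cast h7
  unfold Ginf
  exact (Filter.liminf_le_limsup (by isBoundedDefault) (by isBoundedDefault)).trans
    (limsup_le_of_le (by isBoundedDefault) hmain)

end Pool.Agent.J6H67.CG
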