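import Pool.Agent.J6H67.CG.Stm

set_option autoImplicit false

/-!
# Module DUP of project CG: deterministic upper bound
-/

namespace Pool.Agent.J6H67.CG

open MeasureTheory Filter Finset
open scoped Topology
open Pool.Agent.J6H39.RS

theorem gap_le_of {T : Set ℕ} {n B : ℕ} (h : ∃ m ∈ Ioc n (n + B), m ∈ T) : gap T n ≤ B := by
  obtain ⟨m, hm, hmT⟩ := h
  rw [Finset.mem_Ioc] at hm
  have h1 : sInf {m | m ∈ T ∧ n < m} ≤ m := Nat.sInf_le ⟨hmT, hm.1⟩
  unfold gap
  omega

theorem t_DUP : S_DUP := by
  classical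
  intro T c hc h
  obtain ⟨N0, hN0⟩ := eventually_atTop.1 h
  obtain ⟨N, hN⟩ : ∃ N, N = max N0 3 := ⟨_, rfl⟩
  have hgap : ∀ n, N ≤ n → gap T n ≤ ⌊c * Real.log n ^ 2⌋₊ := fun n hn =>
    gap_le_of (hN0 n (by omega))
  have hlog : ∀ n, N ≤ n → 0 < Real.log n := fun n hn => by
    apply Real.log_pos
    have : 1 < n := by omega
    exact_mod_cast this
  have hquot : ∀ (x : ℕ) (G : ℕ), N ≤ x → G ≤ ⌊c * Real.log x ^ 2⌋₊ →
      (((G : ℝ) / Real.log x ^ 2 : ℝ) : EReal) ≤ (c : EReal) := by
    intro x G hx hG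
    rw [EReal.coe_le_coe_iff, div_le_iff₀ (pow_pos (hlog x hx) 2)]
    have h1 : (G : ℝ) ≤ (⌊c * Real.log x ^ 2⌋₊ : ℝ) := by exact_mod_cast hG
    exact h1.trans (Nat.floor_le (by positivity))
  constructor
  · unfold Lsup
    refine limsup_le_of_le (h := ?_)
    refine Filter.Eventually.filter_mono inf_le_left ?_
    filter_upwards [eventually_ge_atTop N] with n hn
    exact hquot n _ hn (hgap n hn)
  · unfold Gsup
    refine limsup_le_of_le (h := ?_)
    have h2 : Tendsto (fun x : ℕ => c * Real.log x ^ 2) atTop atTop := by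
      refine Tendsto.const_mul_atTop hc ?_
      have h3 : Tendsto (fun x : ℕ => Real.log x) atTop atTop :=
        Real.tendsto_log_atTop.comp tendsto_natCast_atTop_atTop
      exact (tendsto_pow_atTop (two_ne_zero)).comp h3
    filter_upwards [eventually_ge_atTop N,
      h2.eventually_ge_atTop (((range N).sup (gap T) : ℕ) : ℝ)] with x hx hK
    refine hquot x _ hx ?_
    unfold maxGap
    refine Finset.sup_le fun n hn => ?_
    have hn := Finset.mem_range.1 (Finset.mem_filter.1 hn).1
    by_cases hnN : n < N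
    · refine (Finset.le_sup (f := gap T) (Finset.mem_range.2 hnN)).trans ?_
      exact Nat.le_floor hK
    · rw [not_lt] at hnN
      refine (hgap n hnN).trans (Nat.floor_mono ?_)
      have h4 : Real.log n ≤ Real.log x := by
        apply Real.log_le_log
        · have : 0 < n := by omega
          exact_mod_cast this
        · have : n ≤ x := by omega
          exact_mod_cast this
      have h5 := (hlog n hnN).le
      gcongr

end Pool.Agent.J6H67.CG
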