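import Pool.Agent.J6H67.CG.Stm
import Pool.Agent.J6H39.RS.FLI

set_option autoImplicit false

/-!
# CG/FLP: the fundamental lemma in the progression `Q t + h`
-/

namespace Pool.Agent.J6H67.CG

open Finset
open Pool.Agent.J6H39.RS

namespace FLP

lemma res (p Q h : ℕ) : ∃ c : ℕ, p.Prime → ¬ p ∣ Q → c < p ∧ ∀ t : ℕ, p ∣ Q * t + h ↔ t % p = c := by
  by_cases hp : p.Prime
  · by_cases hQ : p ∣ Q
    · exact ⟨0, fun _ h' => absurd hQ h'⟩
    · haveI : Fact p.Prime := ⟨hp⟩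
      have hQ0 : (Q : ZMod p) ≠ 0 := by
        intro h0
        exact hQ ((ZMod.natCast_eq_zero_iff Q p).1 h0)
      refine ⟨(-(h : ZMod p) / (Q : ZMod p)).val, fun _ _ => ⟨ZMod.val_lt _, fun t => ?_⟩⟩
      rw [← ZMod.natCast_eq_zero_iff]
      push_cast
      rw [← ZMod.val_natCast]
      constructor
      · intro h1
        congr 1
        rw [eq_div_iff hQ0]
        linear_combination h1
      · intro h1
        have h2 := ZMod.val_injective p h1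
        rw [eq_div_iff hQ0] at h2
        linear_combination h2
  · exact ⟨0, fun h' => absurd h' hp⟩

end FLP

open FLP

theorem t_FLP : S_FLP := by
  classical
  intro δ hδ
  obtain ⟨C0, hC0, H⟩ := Pool.Agent.TH882.FL.fl1 1
  obtain ⟨b1, hb1⟩ := exists_pow_lt_of_lt_one hδ (by norm_num : (1 / 2 : ℝ) < 1)
  obtain ⟨b, hb⟩ : ∃ b, b = max C0 b1 := ⟨_, rfl⟩
  have hbC : C0 ≤ b := hb ▸ le_max_left _ _
  have hbδ : (1 / 2 : ℝ) ^ b ≤ δ :=
    (pow_le_pow_of_le_one (by norm_num) (by norm_num) (hb ▸ le_max_right _ _)).trans hb1.le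
  obtain ⟨K, hK⟩ : ∃ K, K = 2 * (1 + C0 * b * 2) := ⟨_, rfl⟩
  obtain ⟨K0, hK0⟩ : ∃ K0, K0 = C0 ^ C0 := ⟨_, rfl⟩
  refine ⟨max (K0 * 2 ^ K) K, ?_⟩
  intro z Q h a L hQ1 hcop
  choose c hc using fun p : ℕ => FLP.res p Q h
  obtain ⟨J, hJ⟩ : ∃ J, J = FLI.JJ (z + 2) := ⟨_, rfl⟩
  have hJ1 : z + 2 < 2 ^ 2 ^ J := hJ ▸ FLI.JJ_lt (z + 2)
  have hJ2 : 2 ^ 2 ^ J ≤ (z + 2) ^ 2 := hJ ▸ FLI.JJ_le (z + 2) (by omega)
  obtain ⟨R, hR⟩ : ∃ R : Finset ℕ, R = (Icc 1 z).filter (fun p => (p.Prime ∧ ¬ p ∣ Q) ∧ p ≤ C0) := ⟨_, rfl⟩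
  obtain ⟨T0, hT0⟩ : ∃ T0 : Finset ℕ, T0 = (Icc 1 z).filter (fun p => (p.Prime ∧ ¬ p ∣ Q) ∧ C0 < p) := ⟨_, rfl⟩
  have hRm : ∀ p, p ∈ R ↔ p ≤ z ∧ (p.Prime ∧ ¬ p ∣ Q) ∧ p ≤ C0 := by
    intro p
    rw [hR, mem_filter, mem_Icc]
    constructor
    · rintro ⟨⟨h1, h2⟩, h3, h5⟩
      exact ⟨h2, h3, h5⟩
    · rintro ⟨h1, h2, h3⟩
      exact ⟨⟨h2.1.one_lt.le, h1⟩, h2, h3⟩
  have hTm : ∀ p, p ∈ T0 ↔ p ≤ z ∧ (p.Prime ∧ ¬ p ∣ Q) ∧ C0 < p := by
    intro p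
    rw [hT0, mem_filter, mem_Icc]
    constructor
    · rintro ⟨⟨h1, h2⟩, h3, h5⟩
      exact ⟨h2, h3, h5⟩
    · rintro ⟨h1, h2, h3⟩
      exact ⟨⟨h2.1.one_lt.le, h1⟩, h2, h3⟩
  obtain ⟨M0, hM0⟩ : ∃ M0, M0 = ∏ p ∈ R, p := ⟨_, rfl⟩
  have hM0pos : 0 < M0 := by
    rw [hM0]
    exact Finset.prod_pos fun p hp => ((hRm p).1 hp).2.1.1.pos
  have hM0le : M0 ≤ K0 := by
    rw [hM0, hK0]
    calc ∏ p ∈ R, p ≤ ∏ p ∈ R, C0 := Finset.prod_le_prod' fun p hp => ((hRm p).1 hp).2.2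
      _ = C0 ^ R.card := by rw [prod_const]
      _ ≤ C0 ^ C0 := by
        apply Nat.pow_le_pow_right (by omega)
        have : R ⊆ Icc 1 C0 := fun p hp => by
          obtain ⟨h1, h2, h3⟩ := (hRm p).1 hp
          exact mem_Icc.2 ⟨h2.1.one_lt.le, h3⟩
        simpa using card_le_card this
  have hTM : ∀ p ∈ T0, p.Prime ∧ ¬ p ∣ M0 := by
    intro p hp
    obtain ⟨h1, h2, h3⟩ := (hTm p).1 hp
    refine ⟨h2.1, fun h => ?_⟩
    rw [hM0, Prime.dvd_finsetProd_iff h2.1.prime] at h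
    obtain ⟨q, hq, hpq⟩ := h
    obtain ⟨g1, g2, g3⟩ := (hRm q).1 hq
    have := (Nat.prime_dvd_prime_iff_eq h2.1 g2.1).1 hpq
    omega
  -- the good classes
  obtain ⟨G, hG⟩ : ∃ G : Finset ℕ, G = (range M0).filter (fun ν => ∀ p ∈ R, ν % p ≠ c p) := ⟨_, rfl⟩
  have hGcard : G.card = ∏ p ∈ R, (p - 1) := by
    have h1 := Pool.Agent.N136.QL.fl_goodcount 1 one_pos {0} (by simp) R (fun p => {c p})
      (fun p hp => ⟨((hRm p).1 hp).2.1.1, by
        have := ((hRm p).1 hp).2.1.1.one_lt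
        intro h
        have := Nat.le_of_dvd one_pos h
        omega⟩)
      (fun p hp => by
        have h2 := (hc p ((hRm p).1 hp).2.1.1 ((hRm p).1 hp).2.1.2).1
        simpa using h2)
    rw [one_mul, ← hM0] at h1
    simp only [Nat.mod_one, mem_singleton, true_and, card_singleton, one_mul] at h1
    rw [hG]
    exact h1
  have hGle : G.card ≤ K0 := by
    refine le_trans ?_ hM0le
    rw [hG]
    exact (card_filter_le _ _).trans (by simp)
  obtain ⟨V, hV⟩ : ∃ V : ℝ, V = ∏ p ∈ T0, (1 - (1 : ℝ) / p) := ⟨_, rfl⟩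
  obtain ⟨E, hE⟩ : ∃ E : ℝ, E = ((J : ℝ) + 2) * (((2 ^ 2 ^ J : ℕ) : ℝ) ^ (C0 * b)) ^ 2 := ⟨_, rfl⟩
  have hM0R : (0 : ℝ) < M0 := by exact_mod_cast hM0pos
  -- the sieve in one class
  obtain ⟨F, hF⟩ : ∃ F : ℕ → Finset ℕ, F = fun ν => ((Ioc a (a + L)).filter (fun n => n % M0 = ν)).filter
      (fun n => ∀ p ∈ T0, n % p ∉ ({c p} : Finset ℕ)) := ⟨_, rfl⟩
  have hcls : ∀ ν ∈ G, |((F ν).card : ℝ) - (L : ℝ) / M0 * V| ≤ (1 / 2 : ℝ) ^ b * ((L : ℝ) / M0 * V) + E := by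
    intro ν hν
    have hνlt : ν < M0 := by
      rw [hG, mem_filter, mem_range] at hν
      exact hν.1
    have h1 := H b J C0 T0 (fun p => {c p}) hbC le_rfl
      (fun p hp => ⟨((hTm p).1 hp).2.1.1, ((hTm p).1 hp).2.2, by
        have := ((hTm p).1 hp).1
        omega⟩)
      (fun p hp => by simp)
      ((Ioc a (a + L)).filter (fun n => n % M0 = ν)) ((L : ℝ) / M0) (by positivity)
      (fun T hT c' hc' => by
        have h1 := Pool.Agent.N136.QL.fl_classcount a (a + L) M0 ν hνlt (by omega) T c'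
          (fun p hp => hTM p (hT hp)) (fun p hp => by
            have h2 := hc' p hp
            rw [mem_singleton] at h2
            rw [h2]
            exact (hc p ((hTm p).1 (hT hp)).2.1.1 ((hTm p).1 (hT hp)).2.1.2).1)
        have e1 : (L : ℝ) / M0 / ∏ p ∈ T, (p : ℝ) = (((a + L : ℕ) : ℝ) - a) / M0 * ∏ p ∈ T, (1 / (p : ℝ)) := by
          rw [Finset.prod_div_distrib, Finset.prod_const_one]
          push_cast
          ring
        rw [e1]
        exact h1)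
    simp only [card_singleton, Nat.cast_one] at h1
    rw [← hV, ← hE] at h1
    rw [hF]
    exact h1
  -- the sum over the classes
  have hsum : rgp z Q h a L = ∑ ν ∈ G, (F ν).card := by
    have e1 : (Ioc a (a + L)).filter (fun t => ∀ p ∈ (Icc 1 z).filter Nat.Prime, ¬ p ∣ Q * t + h) =
        G.biUnion F := by
      ext n
      rw [mem_filter, mem_biUnion]
      constructor
      · rintro ⟨h1, h2⟩
        refine ⟨n % M0, ?_, ?_⟩
        · rw [hG, mem_filter, mem_range]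
          refine ⟨Nat.mod_lt _ hM0pos, fun p hp h => ?_⟩
          have hpM : p ∣ M0 := hM0 ▸ Finset.dvd_prod_of_mem _ hp
          rw [Nat.mod_mod_of_dvd _ hpM] at h
          have g1 := (hRm p).1 hp
          exact h2 p (mem_filter.2 ⟨mem_Icc.2 ⟨g1.2.1.1.one_lt.le, g1.1⟩, g1.2.1.1⟩)
            (((hc p g1.2.1.1 g1.2.1.2).2 n).2 h)
        · rw [hF, mem_filter, mem_filter]
          refine ⟨⟨h1, rfl⟩, fun p hp h => ?_⟩
          rw [mem_singleton] at h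
          have g1 := (hTm p).1 hp
          exact h2 p (mem_filter.2 ⟨mem_Icc.2 ⟨g1.2.1.1.one_lt.le, g1.1⟩, g1.2.1.1⟩)
            (((hc p g1.2.1.1 g1.2.1.2).2 n).2 h)
      · rintro ⟨ν, hν, hn⟩
        rw [hF, mem_filter, mem_filter] at hn
        obtain ⟨⟨h1, h2⟩, h3⟩ := hn
        refine ⟨h1, fun q hq' hd => ?_⟩
        rw [mem_filter, mem_Icc] at hq'
        obtain ⟨⟨_, hqz⟩, hq⟩ := hq'
        by_cases hqQ : q ∣ Q
        · have h5 : q ∣ h := (Nat.dvd_add_right (hqQ.mul_right n)).1 hd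
          have h6 : q ∣ Nat.gcd h Q := Nat.dvd_gcd h5 hqQ
          rw [hcop] at h6
          exact hq.one_lt.ne' (Nat.dvd_one.1 h6)
        · have hnc : n % q = c q := ((hc q hq hqQ).2 n).1 hd
          rcases le_or_gt q C0 with h4 | h4
          · have hqR : q ∈ R := (hRm q).2 ⟨hqz, ⟨hq, hqQ⟩, h4⟩
            have hqM : q ∣ M0 := hM0 ▸ Finset.dvd_prod_of_mem _ hqR
            rw [hG, mem_filter] at hν
            apply hν.2 q hqR
            rw [← h2, Nat.mod_mod_of_dvd _ hqM]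
            exact hnc
          · have hqT : q ∈ T0 := (hTm q).2 ⟨hqz, ⟨hq, hqQ⟩, h4⟩
            apply h3 q hqT
            rw [mem_singleton]
            exact hnc
    have e2 : rgp z Q h a L = (G.biUnion F).card := by
      unfold rgp
      rw [← e1]
    rw [e2, card_biUnion]
    intro ν _ ν' _ hne
    rw [Function.onFun, Finset.disjoint_left]
    intro n hn hn'
    rw [hF, mem_filter, mem_filter] at hn hn'
    exact hne (hn.1.2.symm.trans hn'.1.2)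
  -- the product
  have hprod : (G.card : ℝ) * ((L : ℝ) / M0 * V) = L / WQ z Q := by
    have e1 : (G.card : ℝ) = (M0 : ℝ) * ∏ p ∈ R, (1 - (1 : ℝ) / p) := by
      rw [hGcard, hM0]
      push_cast
      rw [← Finset.prod_mul_distrib]
      apply Finset.prod_congr rfl
      intro p hp
      have hp1 : 1 ≤ p := ((hRm p).1 hp).2.1.1.one_lt.le
      have hp0 : (p : ℝ) ≠ 0 := by
        have : 0 < p := hp1
        positivity
      push_cast [Nat.cast_sub hp1]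
      field_simp
    have e2 : (∏ p ∈ R, (1 - (1 : ℝ) / p)) * V = (WQ z Q)⁻¹ := by
      rw [hV]
      unfold WQ
      rw [← Finset.prod_inv_distrib]
      have hdis : Disjoint R T0 := by
        rw [Finset.disjoint_left]
        intro p hp hp'
        have := ((hRm p).1 hp).2.2
        have := ((hTm p).1 hp').2.2
        omega
      rw [← Finset.prod_union hdis]
      have hun : R ∪ T0 = (Finset.Icc 1 z).filter (fun p => p.Prime ∧ ¬ p ∣ Q) := by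
        ext p
        rw [mem_union, hRm, hTm, mem_filter, mem_Icc]
        constructor
        · rintro (⟨h1, h2, h3⟩ | ⟨h1, h2, h3⟩)
          · exact ⟨⟨h2.1.one_lt.le, h1⟩, h2⟩
          · exact ⟨⟨h2.1.one_lt.le, h1⟩, h2⟩
        · rintro ⟨⟨h1, h2⟩, h3⟩
          rcases le_or_gt p C0 with h4 | h4
          · exact Or.inl ⟨h2, h3, h4⟩
          · exact Or.inr ⟨h2, h3, h4⟩
      rw [hun]
      apply Finset.prod_congr rfl
      intro p _
      rw [inv_inv, one_div]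
    rw [e1, div_eq_mul_inv (L : ℝ) (WQ z Q), ← e2]
    field_simp
  have habs : |(rgp z Q h a L : ℝ) - L / WQ z Q| ≤ (G.card : ℝ) * ((1 / 2 : ℝ) ^ b * ((L : ℝ) / M0 * V) + E) := by
    have e1 : (rgp z Q h a L : ℝ) - L / WQ z Q = ∑ ν ∈ G, (((F ν).card : ℝ) - (L : ℝ) / M0 * V) := by
      rw [Finset.sum_sub_distrib, sum_const, nsmul_eq_mul, hprod, hsum]
      push_cast
      rfl
    rw [e1]
    refine (Finset.abs_sum_le_sum_abs _ _).trans ?_
    refine (Finset.sum_le_sum hcls).trans ?_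
    rw [sum_const, nsmul_eq_mul]
  refine habs.trans ?_
  have hWpos : 0 ≤ (L : ℝ) / WQ z Q := by
    apply div_nonneg (Nat.cast_nonneg _)
    unfold WQ
    apply Finset.prod_nonneg
    intro p hp
    have : (1 : ℝ) < p := by exact_mod_cast (mem_filter.1 hp).2.1.one_lt
    have : (p : ℝ)⁻¹ < 1 := inv_lt_one_of_one_lt₀ this
    exact inv_nonneg.2 (by linarith)
  have hEle : E ≤ (((z : ℝ) + 2)) ^ K := by
    have h1 : ((J : ℝ) + 2) ≤ ((2 ^ 2 ^ J : ℕ) : ℝ) := by exact_mod_cast FLI.J_le J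
    have h2 : ((2 ^ 2 ^ J : ℕ) : ℝ) ≤ ((z : ℝ) + 2) ^ 2 := by exact_mod_cast hJ2
    rw [hE]
    calc ((J : ℝ) + 2) * (((2 ^ 2 ^ J : ℕ) : ℝ) ^ (C0 * b)) ^ 2
        ≤ ((2 ^ 2 ^ J : ℕ) : ℝ) * (((2 ^ 2 ^ J : ℕ) : ℝ) ^ (C0 * b)) ^ 2 := by gcongr
      _ = ((2 ^ 2 ^ J : ℕ) : ℝ) ^ (1 + C0 * b * 2) := by ring
      _ ≤ (((z : ℝ) + 2) ^ 2) ^ (1 + C0 * b * 2) := by gcongr
      _ = _ := by rw [← pow_mul, hK]
  have hE0 : 0 ≤ E := by rw [hE]; positivity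
  have hz0 : (0 : ℝ) ≤ z := Nat.cast_nonneg z
  have hz2 : ((z : ℝ) + 2) ^ K ≤ 2 ^ K * ((z : ℝ) + 1) ^ K := by
    rw [← mul_pow]
    apply pow_le_pow_left₀ (by positivity)
    linarith
  have hfin : (G.card : ℝ) * E ≤ ((max (K0 * 2 ^ K) K : ℕ) : ℝ) * ((z : ℝ) + 1) ^ (max (K0 * 2 ^ K) K) := by
    have h1 : (G.card : ℝ) ≤ K0 := by exact_mod_cast hGle
    have h2 : ((K0 * 2 ^ K : ℕ) : ℝ) ≤ ((max (K0 * 2 ^ K) K : ℕ) : ℝ) := by
      exact_mod_cast le_max_left _ _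
    have h3 : ((z : ℝ) + 1) ^ K ≤ ((z : ℝ) + 1) ^ (max (K0 * 2 ^ K) K) :=
      pow_le_pow_right₀ (by linarith) (le_max_right _ _)
    calc (G.card : ℝ) * E ≤ K0 * (2 ^ K * ((z : ℝ) + 1) ^ K) := by
          apply mul_le_mul h1 (hEle.trans hz2) hE0 (Nat.cast_nonneg _)
      _ = ((K0 * 2 ^ K : ℕ) : ℝ) * ((z : ℝ) + 1) ^ K := by push_cast; ring
      _ ≤ _ := by
          apply mul_le_mul h2 h3 (by positivity) (Nat.cast_nonneg _)
  have hmain : (G.card : ℝ) * ((1 / 2 : ℝ) ^ b * ((L : ℝ) / M0 * V)) ≤ δ * (L / WQ z Q) := by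
    calc (G.card : ℝ) * ((1 / 2 : ℝ) ^ b * ((L : ℝ) / M0 * V))
        = (1 / 2 : ℝ) ^ b * ((G.card : ℝ) * ((L : ℝ) / M0 * V)) := by ring
      _ = (1 / 2 : ℝ) ^ b * (L / WQ z Q) := by rw [hprod]
      _ ≤ δ * (L / WQ z Q) := mul_le_mul_of_nonneg_right hbδ hWpos
  rw [mul_add]
  linarith

end Pool.Agent.J6H67.CG
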