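import Pool.Agent.J6H39.RS.Stm

set_option autoImplicit false

/-!
# Project CG (helper67, MP_ff81b6_nt, very famous x25): Cramér's constant in sequential random models

Models as in helper39's project RS (`Pool.Agent.J6H39.RS.IsModel`): the integers are decided one after the other, no
`m` with a prime factor `q ≤ z(m)` is chosen, the conditional probability of choosing `m + 1` (without such prime
factors) given the past is asymptotic to `W(z(m + 1)) / log m`. For all nondecreasing `z(n) ≤ n^(o(1))`, with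
`L = limsup gap / log²` and `G(x)` = largest gap up to `x`:

(1) almost surely `liminf G(x)/log² x ≥ 1`;
(2) `≥ 1 + δ(ε) > 1` if `z(n) ≥ (log n)^ε`;
(3) `≥ 2 e^(-γ) = 1.1229...` (Granville's constant) if `z(n) ≥ κ log n`;
(4) for every `η > 0` there is `b > 0` with `L ≤ 1 + η` if `z(n) ≤ (log n)^b`.

Every module `XX` is a file `Pool/Agent/J6H67/CG/XX.lean` with `theorem t_XX : S_XX` (or
`theorem t_XX (h1 : S_YY) ... : S_XX` with the hypotheses named in the docstring).  The files of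
`Pool/Agent/J6H39/RS/` (landed) contain very similar proofs: copy and adapt.  `RS.` = `Pool.Agent.J6H39.RS.`
-/

namespace Pool.Agent.J6H67.CG

open MeasureTheory Filter Finset
open scoped Topology
open Pool.Agent.J6H39.RS

/-- `z(n) ≤ n^(o(1))` -/
def Sub (z : ℕ → ℕ) : Prop := ∀ δ : ℝ, 0 < δ → ∀ᶠ n : ℕ in atTop, (z n : ℝ) ≤ (n : ℝ) ^ δ

/-! ## Sieve part -/

/-- the number of the `t ∈ (a, a + T]` for which `Q t + h` has no prime factor `≤ v` -/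
noncomputable def rgp (v Q h a T : ℕ) : ℕ :=
  ((Ioc a (a + T)).filter (fun t => ∀ p ∈ (Icc 1 v).filter Nat.Prime, ¬ p ∣ Q * t + h)).card

/-- the product of `(1 - 1/p)⁻¹` over the primes `p ≤ v`, `p ∤ Q` -/
noncomputable def WQ (v Q : ℕ) : ℝ :=
  ∏ p ∈ (Icc 1 v).filter (fun p => p.Prime ∧ ¬ p ∣ Q), (1 - (p : ℝ)⁻¹)⁻¹

/-- FLP (no hypotheses): the fundamental lemma in the progression `Q t + h`, `(h, Q) = 1`.

PROOF. Copy of `Pool/Agent/J6H39/RS/FLI.lean` (module FLI, `theorem t_FLI`, 280 lines; it is the case `Q = 1`,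
`h = 0`) with these changes: only the primes `p ≤ v` with `p ∤ Q` matter (for `p ∣ Q` we have `p ∤ Q t + h`
automatically, as `(h, Q) = 1`); for `p ∤ Q` there is exactly one residue `c p < p` with `p ∣ Q (c p) + h` (choose
it), and `p ∣ Q t + h ↔ t % p = c p`. So replace `Q` of FLI (the small primes; call it `R`) by the primes
`p ≤ C0`, `p ≤ v`, `p ∤ Q`, `T0` by the primes `C0 < p ≤ v`, `p ∤ Q`, `Om p = {0}` by `Om p = {c p}`
(`fl_goodcount`, `fl_classcount` and `TH882.FL.fl1` allow any `Om p`). -/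
def S_FLP : Prop := ∀ δ : ℝ, 0 < δ → ∃ C : ℕ, ∀ v Q h a T : ℕ, 1 ≤ Q → Nat.Coprime h Q →
  |(rgp v Q h a T : ℝ) - T / WQ v Q| ≤ δ * (T / WQ v Q) + C * ((v : ℝ) + 1) ^ C

/-- BLK (hypothesis `S_FLP`): a good translate in one block.

PROOF. `Q = ∏_{p ∈ P} p`, `C` from `S_FLP` for `δ`. For `t ∈ (a, a + T]` the number `rgh v (Q t) g` is the number of
the `h ∈ [1, g]` such that `Q t + h` has no prime factor `≤ v`. If some `p ∈ P` divides `h` then `p ∣ Q t + h`, `p ≤ v`: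
no contribution. So (exchange of sums) `∑_t rgh v (Q t) g = ∑_{h ∈ [1,g], no p ∈ P divides h} rgp v Q h a T`; for such
`h`, `(h, Q) = 1` (`Nat.Coprime.prod_right`), and `S_FLP` bounds it by `(1 + δ) T / WQ v Q + C (v + 1)^C`.
`W v = WQ v Q * ∏_{p ∈ P} (1 - 1/p)⁻¹` (`p ∣ Q ↔ p ∈ P` for primes `p`, `P ⊆ [1, v]`). So
`∑_t rgh v (Q t) g * W v ≤ (1 + δ) T * (#h) * ∏_{p ∈ P} (1 - 1/p)⁻¹ + g * W v * C (v + 1)^C
≤ T g ((1 + δ) κ + C (v + 1)^(C+1) / T)`, with `W v ≤ v + 1` (`RS.ARAaux.W_le` or so, in `RS/ARA.lean`, `RS/CRU.lean`);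
hence one of the `T` terms is at most the average. -/
def S_BLK : Prop := ∀ δ : ℝ, 0 < δ → ∃ C : ℕ, ∀ (P : Finset ℕ) (v g a T : ℕ) (κ : ℝ),
  (∀ p ∈ P, p.Prime ∧ p ≤ v) → 1 ≤ T →
  (((Icc 1 g).filter (fun h => ∀ p ∈ P, ¬ p ∣ h)).card : ℝ) ≤ κ * g * ∏ p ∈ P, (1 - (p : ℝ)⁻¹) →
  ∃ t ∈ Ioc a (a + T),
    (rgh v ((∏ p ∈ P, p) * t) g : ℝ) * W v ≤ ((1 + δ) * κ + C * ((v : ℝ) + 1) ^ C / T) * g

/-- for all large `g` there is a set `P` of primes `≤ z(⌊X/2⌋)`, with small product, such that the integers in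
`[1, g]` without prime factors in `P` are at most `κ` times as many as on average (`X = XX c g`) -/
def Thin (z : ℕ → ℕ) (κ c : ℝ) : Prop := ∀ η : ℝ, 0 < η → ∀ᶠ g : ℕ in atTop, ∃ P : Finset ℕ,
  (∀ p ∈ P, p.Prime ∧ p ≤ z (XX c g / 2)) ∧ ((∏ p ∈ P, p : ℕ) : ℝ) ≤ (XX c g : ℝ) ^ η ∧
  (((Icc 1 g).filter (fun h => ∀ p ∈ P, ¬ p ∣ h)).card : ℝ) ≤ (κ + η) * g * ∏ p ∈ P, (1 - (p : ℝ)⁻¹)

/-- MNY (hypothesis `S_BLK`): `RS.Many` for sieves `≤ n^(o(1))`.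

PROOF. As in `Pool/Agent/J6H39/RS/ARB.lean` (lemmas `core`, `bad`, `t_ARB`; adapt). Let `0 < η ≤ 1` wlog, `η1 = η / 16`,
`C` from `S_BLK` with `δ = η1`, `X = XX c g`, `P` from `Thin` with `η1`, `Q = ∏ P ≤ X^η1`, `T = ⌊X^η1⌋₊`, `D = Q T` (block
length), `V = z X ≤ X^σ` with `σ = η1 / (2 (C + 2))` (`Sub z`, `X → ∞`). Blocks `j`: the `a` of the form `a = Q t`,
`t ∈ (T j, T (j + 1)]`, i.e. `a ∈ (D j, D (j + 1)]`, for the `j` with `X/2 ≤ D j` and `D (j + 1) + g ≤ X`. `z` takes at most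
`V + 1` values on `[0, X]` and is monotone, so all but at most `V + 1` of the blocks `j` (for even `j`: of the disjoint
longer blocks, `g ≤ T ≤ D` for large `g`) have `z` constant `= v` on `(D j, D (j + 1) + g]`. For these, `S_BLK` (with
`a = T j`, `κ + η1` for `κ`; all `p ∈ P` are `≤ z(⌊X/2⌋) ≤ v`) gives `t` with
`∑_{m ∈ (Qt, Qt + g]} w z m ≤ rgh v (Q t) g * W v / log (X/2) ≤ ((1 + η1)(κ + η1) + C (V + 1)^C / T) g / log (X/2)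
≤ (κ + η) g / log X` for large `g` (`(V + 1)^C ≤ X^(η1/2) * 2^C`, `T ≥ X^η1 / 2`, `log X / log (X/2) → 1`; `κ ≤ 2`).
`J` = these `a = Q t` for the even good `j`: `a ∈ (D j, D (j+1)]`, `g ≤ D`, so the intervals `(a, a + g]` are disjoint.
`|J| ≥ X / (8 D) - V - 3 ≥ X^(1 - η)` for large `g` as `D ≤ X^(2 η1)`. -/
def S_MNY : Prop := ∀ z : ℕ → ℕ, Monotone z → Sub z → ∀ κ c : ℝ, 0 < κ → κ ≤ 2 → 0 < c → Thin z κ c → Many z κ c

/-- TH1 (no hypotheses): `P = ∅`. -/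
def S_TH1 : Prop := ∀ z : ℕ → ℕ, ∀ c : ℝ, 0 < c → Thin z 1 c

/-- TH2 (hypothesis `RS.S_IRR`): sieves `≥ (log n)^ε`.

PROOF. `k` odd with `2/k < ε`, `k ≥ 3`, `δ', E` from `S_IRR`; take `δ = δ'/2` (so `1 - δ' ≤ 1 - δ`, `δ < 1`).
`P = PP k E g`: its members are primes `≤ g^(1/k)`, and `z(⌊X/2⌋) ≥ (log ⌊X/2⌋)^ε ≥ (c √g / 2)^ε ≥ g^(1/k)` for large `g`;
`∏ P ≤ primorial ⌊g^(1/k)⌋ ≤ 4^(g^(1/k)) ≤ X^η` for large `g`, `X = ⌊exp (c √g)⌋`, `1/k < 1/2`. See `RS/ARB.lean`. -/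
def S_TH2 : Prop := ∀ ε : ℝ, 0 < ε → ∃ δ : ℝ, 0 < δ ∧ δ < 1 ∧ ∀ z : ℕ → ℕ,
  (∀ᶠ n : ℕ in atTop, Real.log n ^ ε ≤ (z n : ℝ)) → ∀ c : ℝ, 0 < c → Thin z (1 - δ) c

/-- PNP (no hypotheses): numbers up to `g` without prime factors `≤ s √g`.

PROOF. `y = ⌊s √g⌋₊`. An integer in `[1, g]` without prime factors `≤ y` is `1`, or a prime (at most `π(g)` of them),
or (for `(y+1)^3 > g`, true for large `g`) a product `p q` of two primes `> y`, `p, q ≤ g / y ≤ 2 √g / s`: at most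
`π(2 √g / s)² = O(g / log² g)` of them. By the prime number theorem (`Pool.Agent.Cov.PNT`, `psi_div_tendsto`, or other
versions in the library, e.g. grep `primeCounting`; see also Mathlib `Chebyshev`) `π(g) ≤ (1 + o(1)) g / log g`, and by
Mertens (`Pool.Agent.H305R2.mertens_three`, file `H305R2/MertensE.lean`, same product) `W y = (e^γ + o(1)) log y ≤
(e^γ/2 + o(1)) log g`. So the number times `W y` is at most `(e^γ/2 + o(1)) g`; `W y` is the inverse of the product. -/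
def S_PNP : Prop := ∀ s η : ℝ, 0 < s → s < 1 → 0 < η → ∀ᶠ g : ℕ in atTop,
  (((Icc 1 g).filter (fun h => ∀ p ∈ (Icc 1 ⌊s * √(g : ℝ)⌋₊).filter Nat.Prime, ¬ p ∣ h)).card : ℝ) ≤
    (Real.exp Real.eulerMascheroniConstant / 2 + η) * g *
      ∏ p ∈ (Icc 1 ⌊s * √(g : ℝ)⌋₊).filter Nat.Prime, (1 - (p : ℝ)⁻¹)

/-- TH3 (hypothesis `S_PNP`): sieves `≥ κ log n`, constant `e^γ/2 = 0.8905...`.

PROOF. `P` = the primes `≤ y = ⌊s √g⌋₊` with `s > 0` so small that `s < 1`, `s ≤ κ c / 4` and `s log 4 ≤ η c / 2`: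
`∏ P = primorial y ≤ 4^y ≤ exp (s log 4 √g) ≤ X^η` for large `g`, and
`z(⌊X/2⌋) ≥ κ log ⌊X/2⌋ ≥ κ c √g / 2 ≥ y`. -/
def S_TH3 : Prop := ∀ κ : ℝ, 0 < κ → ∀ z : ℕ → ℕ, (∀ᶠ n : ℕ in atTop, κ * Real.log n ≤ (z n : ℝ)) →
  ∀ c : ℝ, 0 < c → Thin z (Real.exp Real.eulerMascheroniConstant / 2) c

/-! ## Probability part -/

/-- WSM (no hypotheses): the densities tend to `0`.

PROOF. `W v ≤ C₁ + C₂ log v` (`Pool.Agent.J6H13.UM.W0_bound`) and `log (z m) ≤ δ log m` for each `δ > 0`. See `w_small` in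
`RS/LOW.lean`. -/
def S_WSM : Prop := ∀ z : ℕ → ℕ, Sub z → ∀ ε : ℝ, 0 < ε → ∀ᶠ m : ℕ in atTop, w z m ≤ ε

/-- LWG (hypotheses `RS.S_PL`, `RS.S_RB`): `RS.S_LOW` with a weaker hypothesis.

PROOF. Copy `Pool/Agent/J6H39/RS/LOW.lean`; there `z n ≤ log n` is used only in the lemma `w_small`, which is now the
hypothesis. (`ManyA Set.univ` = `Many`.) -/
def S_LWG : Prop := ∀ {Ω : Type} [mΩ : MeasurableSpace Ω] (μ : Measure Ω) [IsProbabilityMeasure μ]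
  (ℱ : Filtration ℕ mΩ) (S : ℕ → Set Ω) (z : ℕ → ℕ), IsModel μ ℱ S z →
  (∀ ε : ℝ, 0 < ε → ∀ᶠ m : ℕ in atTop, w z m ≤ ε) → ∀ κ c : ℝ, 0 < κ → 0 < c → κ < c ^ 2 → Many z κ c →
  ∀ᵐ ω ∂μ, ∀ᶠ g : ℕ in atTop, ∃ a : ℕ, XX c g ≤ 2 * a ∧ a + g ≤ XX c g ∧
    ∀ m ∈ Ioc a (a + g), ω ∉ S m

/-- CRG (hypotheses `RS.S_FLI`, `RS.S_PU`, `RS.S_RB`, `S_WSM`): `RS.S_CRU` for sieves `≤ n^(o(1))`.

PROOF. As `Pool/Agent/J6H39/RS/CRU.lean`: `C` from `S_FLI` with `δ = 1/2`, `σ = 1 / (4 (C + 2))`, `z (2n) ≤ (2n)^σ` for large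
`n`; so `z` is constant `= v` on some `(a, a + L] ⊆ (n, 2n]` with `L ≥ n / (2 ((2n)^σ + 1))`, and at least
`L / (2 W v) - C (v + 1)^C ≥ n^(1/4)` (`W v ≤ v + 1`) integers in it are rough, each with `w z m ≥ 1 / log (2n)`:
`∑_{n < m ≤ 2n} w z m ≥ n^(1/5)`. `l m = w z m / 2`, at most `1` for large `m` by `S_WSM`. -/
def S_CRG : Prop := ∀ {Ω : Type} [mΩ : MeasurableSpace Ω] (μ : Measure Ω) [IsProbabilityMeasure μ]
  (ℱ : Filtration ℕ mΩ) (S : ℕ → Set Ω) (z : ℕ → ℕ), IsModel μ ℱ S z → Monotone z → Sub z →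
  ∀ᵐ ω ∂μ, ∀ᶠ n : ℕ in atTop, ∃ m ∈ Ioc n (2 * n), ω ∈ S m

/-- ARG (hypothesis `RS.S_FLI`): `RS.S_ARA` (lower bound) for sieves `≤ (log n)^b`, `b = b(η)`.

PROOF. As `Pool/Agent/J6H39/RS/ARA.lean` with `b = 1 / (2 (C + 3))`, `C` from `S_FLI` with `δ = η/4`; the sum of the
errors is at most `(V + 1) * C (V + 1)^C * (V + 1)`, `V = z(n + g) ≤ 2 (log n)^b` or so, which is `O(√(log n) )`,
small compared with `g / log n ≥ c1 log n`. -/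
def S_ARG : Prop := ∀ η : ℝ, 0 < η → ∃ b : ℝ, 0 < b ∧ b ≤ 1 ∧ ∀ z : ℕ → ℕ, Monotone z →
  (∀ᶠ n : ℕ in atTop, (z n : ℝ) ≤ Real.log n ^ b) → ∀ c1 c2 : ℝ, 0 < c1 → 0 < c2 →
  ∀ᶠ n : ℕ in atTop, ∀ g : ℕ, c1 * Real.log n ^ 2 ≤ g → (g : ℝ) ≤ c2 * Real.log n ^ 2 →
    (1 - η) * (g / Real.log n) ≤ ∑ m ∈ Ioc n (n + g), w z m

/-- UPG (hypotheses `S_ARG`, `S_WSM`, `RS.S_PU`, `RS.S_RB`): all runs are short if `z(n) ≤ (log n)^b`.

PROOF. As `Pool/Agent/J6H39/RS/UPP.lean`. Given `η` (wlog `η ≤ 1`) take `b` from `S_ARG` for `η/8`; `l m = (1 - η/8) w z m`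
(`≤ 1` for large `m` by `S_WSM`; `(log n)^b ≤ n^δ`), `h n = ⌊(1 + η) (log n)²⌋₊`: the probability that nothing is chosen
in `(n, n + h n]` (and `l ≤ q` there) is at most `exp (-(1 - η/8)² h n / log n) ≤ n^(-(1 + η/4))` up to a constant. -/
def S_UPG : Prop := ∀ η : ℝ, 0 < η → ∃ b : ℝ, 0 < b ∧ ∀ {Ω : Type} [mΩ : MeasurableSpace Ω] (μ : Measure Ω)
  [IsProbabilityMeasure μ] (ℱ : Filtration ℕ mΩ) (S : ℕ → Set Ω) (z : ℕ → ℕ), IsModel μ ℱ S z → Monotone z →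
  (∀ᶠ n : ℕ in atTop, (z n : ℝ) ≤ Real.log n ^ b) →
  ∀ᵐ ω ∂μ, ∀ᶠ n : ℕ in atTop, ∃ m ∈ Ioc n (n + ⌊(1 + η) * Real.log n ^ 2⌋₊), ω ∈ S m

/-! ## Deterministic part -/

/-- the distance from `n` to the next member of `T` -/
noncomputable def gap (T : Set ℕ) (n : ℕ) : ℕ := sInf {m | m ∈ T ∧ n < m} - n

open Classical in
/-- `G(x)`: the largest gap after a member `n ≤ x` of `T` -/
noncomputable def maxGap (T : Set ℕ) (x : ℕ) : ℕ := ((range (x + 1)).filter (fun n => n ∈ T)).sup (gap T)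

/-- `L = limsup gap(n) / (log n)²` over the members `n` of `T` (an extended real number) -/
noncomputable def Lsup (T : Set ℕ) : EReal :=
  limsup (fun n : ℕ => (((gap T n : ℝ) / Real.log n ^ 2 : ℝ) : EReal)) (atTop ⊓ 𝓟 T)

/-- `liminf G(x) / (log x)²` (an extended real number) -/
noncomputable def Ginf (T : Set ℕ) : EReal :=
  liminf (fun x : ℕ => (((maxGap T x : ℝ) / Real.log x ^ 2 : ℝ) : EReal)) atTop

/-- `limsup G(x) / (log x)²` (an extended real number) -/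
noncomputable def Gsup (T : Set ℕ) : EReal :=
  limsup (fun x : ℕ => (((maxGap T x : ℝ) / Real.log x ^ 2 : ℝ) : EReal)) atTop

/-- DLO (no hypotheses): deterministic lower bound.

PROOF. Let `0 < c' < 1/c²`. For large `x` put `g = ⌊c' (log x)²⌋₊ + 1`; then `c √g ≤ log x` for large `x` (`c² c' < 1`), so
`XX c g ≤ x`. Take the run `(a, a + g]`, `a ≥ XX c g / 2` large; by the first hypothesis (for `n = ⌊(a-1)/2⌋` or so) `T` has a member `≤ a`;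
let `p` be the largest member `≤ a`, and `p'` the least member `> p` (exists, as `T` is unbounded); `p' > a`, hence
`p' > a + g`, so `gap T p = p' - p ≥ g ≥ c' (log x)²` and `p ≤ a ≤ x`. So `maxGap T x ≥ c' (log x)²` for all large `x`:
`Ginf T ≥ c'` (`le_liminf_of_le`), for all `c' < 1/c²`. -/
def S_DLO : Prop := ∀ T : Set ℕ, (∀ᶠ n : ℕ in atTop, ∃ m ∈ Ioc n (2 * n), m ∈ T) → ∀ c : ℝ, 0 < c →
  (∀ᶠ g : ℕ in atTop, ∃ a : ℕ, XX c g ≤ 2 * a ∧ a + g ≤ XX c g ∧ ∀ m ∈ Ioc a (a + g), m ∉ T) →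
  ((1 / c ^ 2 : ℝ) : EReal) ≤ Ginf T

/-- DLS (no hypotheses): `liminf G(x)/log² x ≤ L` for unbounded sets.

PROOF. Suppose `Lsup T < Ginf T` and take a real `c` with `Lsup T < c < Ginf T` (`EReal.lt_iff_exists_real_btwn`; note
`Ginf T ≥ 0`, so `Ginf T ≠ ⊥`, and if `c < 0`, `Lsup T < 0` is impossible as the quotients are `≥ 0` and
`atTop ⊓ 𝓟 T` is nontrivial; so take `c' > 0` — or take two reals `c < c'` between) . Then `gap T n ≤ c (log n)²` for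
the `n ∈ T`, `n ≥ N`; so for all `x`, `maxGap T x ≤ max (K) (c (log x)²)` with `K = maxGap T N` constant, `≤ c' (log x)²` for
large `x`: `Ginf T ≤ c' < Ginf T`. -/
def S_DLS : Prop := ∀ T : Set ℕ, T.Infinite → Ginf T ≤ Lsup T

/-- DUP (no hypotheses): deterministic upper bound.

PROOF. For `n ≥ N`: the next member of `T` after `n` is `≤ n + c (log n)²`, so `gap T n ≤ c (log n)²`: `Lsup T ≤ c`
(`limsup_le_of_le`, eventually in `atTop ⊓ 𝓟 T`). For `n < N` the gaps are bounded by a constant `K`, and `maxGap T x ≤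
max K (c (log x)²) ≤ c (log x)²` for large `x`: `Gsup T ≤ c`. -/
def S_DUP : Prop := ∀ T : Set ℕ, ∀ c : ℝ, 0 < c →
  (∀ᶠ n : ℕ in atTop, ∃ m ∈ Ioc n (n + ⌊c * Real.log n ^ 2⌋₊), m ∈ T) →
  Lsup T ≤ (c : EReal) ∧ Gsup T ≤ (c : EReal)

/-- MAIN: the final theorem (assembly by helper67). -/
def S_MAIN : Prop :=
  (∀ z : ℕ → ℕ, Monotone z → Sub z →
    ∀ {Ω : Type} [mΩ : MeasurableSpace Ω] (μ : Measure Ω) [IsProbabilityMeasure μ]
      (ℱ : Filtration ℕ mΩ) (S : ℕ → Set Ω), IsModel μ ℱ S z →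
      ∀ᵐ ω ∂μ, 1 ≤ Ginf {k | ω ∈ S k} ∧ Ginf {k | ω ∈ S k} ≤ Lsup {k | ω ∈ S k}) ∧
  (∀ ε : ℝ, 0 < ε → ∃ δ : ℝ, 0 < δ ∧ ∀ z : ℕ → ℕ, Monotone z → Sub z →
    (∀ᶠ n : ℕ in atTop, Real.log n ^ ε ≤ (z n : ℝ)) →
    ∀ {Ω : Type} [mΩ : MeasurableSpace Ω] (μ : Measure Ω) [IsProbabilityMeasure μ]
      (ℱ : Filtration ℕ mΩ) (S : ℕ → Set Ω), IsModel μ ℱ S z →
      ∀ᵐ ω ∂μ, ((1 + δ : ℝ) : EReal) ≤ Ginf {k | ω ∈ S k}) ∧
  (∀ z : ℕ → ℕ, Monotone z → Sub z → (∃ κ : ℝ, 0 < κ ∧ ∀ᶠ n : ℕ in atTop, κ * Real.log n ≤ (z n : ℝ)) →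
    ∀ {Ω : Type} [mΩ : MeasurableSpace Ω] (μ : Measure Ω) [IsProbabilityMeasure μ]
      (ℱ : Filtration ℕ mΩ) (S : ℕ → Set Ω), IsModel μ ℱ S z →
      ∀ᵐ ω ∂μ, ((2 * Real.exp (-Real.eulerMascheroniConstant) : ℝ) : EReal) ≤ Ginf {k | ω ∈ S k}) ∧
  (∀ η : ℝ, 0 < η → ∃ b : ℝ, 0 < b ∧ ∀ z : ℕ → ℕ, Monotone z →
    (∀ᶠ n : ℕ in atTop, (z n : ℝ) ≤ Real.log n ^ b) →
    ∀ {Ω : Type} [mΩ : MeasurableSpace Ω] (μ : Measure Ω) [IsProbabilityMeasure μ]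
      (ℱ : Filtration ℕ mΩ) (S : ℕ → Set Ω), IsModel μ ℱ S z →
      ∀ᵐ ω ∂μ, Lsup {k | ω ∈ S k} ≤ ((1 + η : ℝ) : EReal) ∧ Gsup {k | ω ∈ S k} ≤ ((1 + η : ℝ) : EReal))

end Pool.Agent.J6H67.CG
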