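import Pool.Agent.J6H39.RS.LOW
import Pool.Agent.J6H67.CG.Stm

/-! # Project CG (helper67): long runs of integers which are not chosen (module LWG, helper10), adapted from
`Pool/Agent/J6H39/RS/LOW.lean` (helper64) -/

set_option autoImplicit false

namespace Pool.Agent.J6H67.CG

open MeasureTheory Filter Finset
open scoped Topology
open Pool.Agent.J6H39.RS

namespace LWGaux

open Pool.Agent.J6H39.RS.LOWaux

lemma uu_eqG {z : ℕ → ℕ} (hz : ∀ ε : ℝ, 0 < ε → ∀ᶠ m : ℕ in atTop, w z m ≤ ε) {η : ℝ} (hη : 0 < η) :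
    ∃ m0 : ℕ, ∀ m ≥ m0, uu z η m = (1 + η) * w z m ∧ (1 + η) * uu z η m ≤ η := by
  obtain ⟨m0, h⟩ := eventually_atTop.1 (hz (η / (1 + η) ^ 2) (by positivity))
  refine ⟨m0, fun m hm => ?_⟩
  have h1 := h m hm
  rw [le_div_iff₀ (by positivity)] at h1
  have h0 := w_nonneg z m
  have h2 : (1 + η) * ((1 + η) * w z m) ≤ η := by nlinarith
  have h3 : (1 + η) * w z m ≤ 1 := by
    by_contra h4
    push Not at h4
    nlinarith
  have h4 : uu z η m = (1 + η) * w z m := min_eq_right h3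
  exact ⟨h4, by rw [h4]; exact h2⟩

/-- the deterministic part -/
lemma detG {z : ℕ → ℕ} (hz : ∀ ε : ℝ, 0 < ε → ∀ᶠ m : ℕ in atTop, w z m ≤ ε) {κ c : ℝ} (hκ : 0 < κ)
    (hc : 0 < c) (hM : Many z κ c) {η : ℝ} (hη : 0 < η) (hη2 : η < 1 / 2)
    (hh : (1 + η) ^ 3 * (κ + η) < (1 - 2 * η) * c ^ 2) :
    ∀ᶠ g : ℕ in atTop, ∃ J : Finset ℕ,
      (∀ a ∈ J, XX c g ≤ 2 * a ∧ a + g ≤ XX c g) ∧
      (∀ a ∈ J, ∀ b ∈ J, a ≠ b → a + g ≤ b ∨ b + g ≤ a) ∧
      ∏ a ∈ J, (1 - ∏ m ∈ Ioc a (a + g), (1 - uu z η m)) ≤ 1 / (g : ℝ) ^ 2 := by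
  obtain ⟨m0, hm0⟩ := uu_eqG hz hη
  set A : ℝ := (1 + η) ^ 3 * (κ + η) / c with hA
  set D : ℝ := (1 - 2 * η) * c - A with hD
  have hD0 : 0 < D := by
    rw [hD, hA, sub_pos, div_lt_iff₀ hc]
    nlinarith
  have hcs : Tendsto (fun g : ℕ => c * √(g : ℝ)) atTop atTop := sqrtN.const_mul_atTop hc
  filter_upwards [hM η hη, XX_top hc m0, exp_ge_log hD0, hcs.eventually_ge_atTop 1,
    hcs.eventually_ge_atTop ((1 + η) / η), hcs.eventually_ge_atTop (1 / η), eventually_ge_atTop 1]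
    with g hJ hX hexp h1 h2 h3 hg1
  obtain ⟨J, hJ1, hJ2, hJ3, hJ4⟩ := hJ
  refine ⟨J, hJ1, hJ2, ?_⟩
  set t : ℝ := √(g : ℝ) with ht
  have hg0 : (0 : ℝ) < g := by exact_mod_cast hg1
  have ht0 : 0 < t := Real.sqrt_pos.2 hg0
  have htt : t * t = g := Real.mul_self_sqrt hg0.le
  have hXge := XX_ge h1
  have hXpos : (0 : ℝ) < XX c g := lt_of_lt_of_le (Real.exp_pos _) hXge
  have hlog1 : c * t - 1 ≤ Real.log (XX c g) := by
    rw [Real.le_log_iff_exp_le hXpos]
    exact hXge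
  have hlog2 : c * t / (1 + η) ≤ Real.log (XX c g) := by
    refine le_trans ?_ hlog1
    rw [div_le_iff₀ (by positivity)]
    rw [div_le_iff₀ hη] at h2
    nlinarith
  have hgl : (g : ℝ) / Real.log (XX c g) ≤ (1 + η) * t / c := by
    have h5 : 0 < c * t / (1 + η) := by positivity
    calc (g : ℝ) / Real.log (XX c g) ≤ g / (c * t / (1 + η)) :=
          div_le_div_of_nonneg_left hg0.le h5 hlog2
      _ = (1 + η) * t / c := by
        rw [← htt]
        field_simp
  -- the product for one interval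
  have hP : ∀ a ∈ J, Real.exp (-(A * t)) ≤ ∏ m ∈ Ioc a (a + g), (1 - uu z η m) := by
    intro a ha
    have ha0 : m0 ≤ a := by
      have := (hJ1 a ha).1
      omega
    calc Real.exp (-(A * t)) ≤ Real.exp (-((1 + η) * ∑ m ∈ Ioc a (a + g), uu z η m)) := by
          apply Real.exp_le_exp.2
          apply neg_le_neg
          have e1 : ∑ m ∈ Ioc a (a + g), uu z η m = (1 + η) * ∑ m ∈ Ioc a (a + g), w z m := by
            rw [mul_sum]
            refine sum_congr rfl fun m hm => (hm0 m ?_).1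
            have := (mem_Ioc.1 hm).1
            omega
          rw [e1]
          calc (1 + η) * ((1 + η) * ∑ m ∈ Ioc a (a + g), w z m) ≤
                (1 + η) * ((1 + η) * ((κ + η) * (g / Real.log (XX c g)))) := by
                have := hJ4 a ha
                gcongr
            _ ≤ (1 + η) * ((1 + η) * ((κ + η) * ((1 + η) * t / c))) := by gcongr
            _ = A * t := by rw [hA]; ring
      _ = ∏ m ∈ Ioc a (a + g), Real.exp (-((1 + η) * uu z η m)) := by
          rw [← Real.exp_sum, mul_sum, ← sum_neg_distrib]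
      _ ≤ ∏ m ∈ Ioc a (a + g), (1 - uu z η m) := by
          refine prod_le_prod (fun m _ => (Real.exp_pos _).le) fun m hm => ?_
          refine one_sub_ge hη (uu_mem hη m).1 (hm0 m ?_).2
          have := (mem_Ioc.1 hm).1
          omega
  have hP1 : ∀ a ∈ J, ∏ m ∈ Ioc a (a + g), (1 - uu z η m) ≤ 1 := by
    intro a _
    refine prod_le_one (fun m _ => ?_) fun m _ => ?_
    · have := (uu_mem (z := z) hη m).2
      linarith
    · have := (uu_mem (z := z) hη m).1
      linarith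
  have hcard : Real.exp (D * t) ≤ Real.exp (-(A * t)) * (J.card : ℝ) := by
    have h5 : Real.exp ((1 - η) * (c * t - 1)) ≤ (J.card : ℝ) := by
      refine le_trans ?_ hJ3
      rw [Real.rpow_def_of_pos hXpos]
      apply Real.exp_le_exp.2
      rw [mul_comm]
      exact mul_le_mul_of_nonneg_right hlog1 (by linarith)
    calc Real.exp (D * t) ≤ Real.exp (-(A * t)) * Real.exp ((1 - η) * (c * t - 1)) := by
          rw [← Real.exp_add]
          apply Real.exp_le_exp.2
          rw [hD]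
          rw [div_le_iff₀ hη] at h3
          nlinarith
      _ ≤ _ := mul_le_mul_of_nonneg_left h5 (Real.exp_pos _).le
  calc ∏ a ∈ J, (1 - ∏ m ∈ Ioc a (a + g), (1 - uu z η m)) ≤
        ∏ a ∈ J, Real.exp (-Real.exp (-(A * t))) := by
        refine prod_le_prod (fun a ha => ?_) fun a ha => ?_
        · have := hP1 a ha
          linarith
        · have h5 := hP a ha
          have h6 := Real.add_one_le_exp (-Real.exp (-(A * t)))
          linarith
    _ = Real.exp (-(Real.exp (-(A * t)) * (J.card : ℝ))) := by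
        rw [prod_const, ← Real.exp_nat_mul]
        congr 1
        ring
    _ ≤ Real.exp (-(2 * Real.log g)) := by
        apply Real.exp_le_exp.2
        apply neg_le_neg
        exact hexp.trans hcard
    _ = 1 / (g : ℝ) ^ 2 := by
        rw [Real.exp_neg, mul_comm, Real.exp_mul, Real.exp_log hg0, one_div]
        norm_cast

end LWGaux

open Pool.Agent.J6H39.RS.LOWaux in
open LWGaux in
/-- **LWG** -/
theorem t_LWG (h1 : S_PL) (h2 : S_RB) : S_LWG := by
  intro Ω mΩ μ _ ℱ S z hmod hz κ c hκ hc hκc hM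
  obtain ⟨η, hη, hη2, hh⟩ := eta hκc
  have hdet := detG hz hκ hc hM hη hη2 hh
  obtain ⟨m0, hm0⟩ := uu_eqG hz hη
  -- Borel-Cantelli for fixed `N`
  have key : ∀ N : ℕ, ∀ᵐ ω ∂μ, ∀ᶠ g : ℕ in atTop,
      ¬ ((∀ m ≥ N, q μ ℱ S m ω ≤ uu z η m) ∧ ∀ a : ℕ, XX c g ≤ 2 * a → a + g ≤ XX c g →
        ∃ m ∈ Ioc a (a + g), ω ∈ S m) := by
    intro N
    obtain ⟨g0, hg0⟩ := eventually_atTop.1 (hdet.and (XX_top hc N))
    let s : ℕ → Set Ω := fun g => {ω | g0 ≤ g ∧ (∀ m ≥ N, q μ ℱ S m ω ≤ uu z η m) ∧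
      ∀ a : ℕ, XX c g ≤ 2 * a → a + g ≤ XX c g → ∃ m ∈ Ioc a (a + g), ω ∈ S m}
    have hs : ∀ g, μ (s g) ≤ ENNReal.ofReal (1 / (g : ℝ) ^ 2) := by
      intro g
      by_cases hg : g0 ≤ g
      · obtain ⟨hJ, hX⟩ := hg0 g hg
        obtain ⟨J, hJ1, hJ2, hJ3⟩ := hJ
        have hPL := h1 μ ℱ S hmod.adapted J g (uu z η) (fun m => uu_mem hη m) hJ2
        have hsub : s g ⊆ {ω | (∀ a ∈ J, ∀ m ∈ Ioc a (a + g), q μ ℱ S m ω ≤ uu z η m) ∧
            ∀ a ∈ J, ∃ m ∈ Ioc a (a + g), ω ∈ S m} := by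
          rintro ω ⟨-, g1, g2⟩
          refine ⟨fun a ha m hm => g1 m ?_, fun a ha => g2 a (hJ1 a ha).1 (hJ1 a ha).2⟩
          have h3 := (hJ1 a ha).1
          have h4 := (mem_Ioc.1 hm).1
          show N ≤ m
          omega
        refine (measure_mono hsub).trans ?_
        rw [← ofReal_measureReal]
        exact ENNReal.ofReal_le_ofReal (hPL.trans hJ3)
      · have : s g = ∅ := by
          ext ω
          refine ⟨fun h => hg h.1, fun h => absurd h (Set.notMem_empty _)⟩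
        rw [this, measure_empty]
        exact bot_le
    have hsum : ∑' g, μ (s g) ≠ ⊤ := by
      have h3 : Summable fun g : ℕ => 1 / (g : ℝ) ^ 2 := Real.summable_one_div_nat_pow.2 (by norm_num)
      exact ne_top_of_le_ne_top h3.tsum_ofReal_ne_top (ENNReal.tsum_le_tsum hs)
    filter_upwards [ae_eventually_notMem hsum] with ω hω
    filter_upwards [hω, eventually_ge_atTop g0] with g h3 h4 h5
    exact h3 ⟨h4, h5⟩
  filter_upwards [ae_all_iff.2 key, h2 μ ℱ S z hmod η hη (by linarith)] with ω g1 g2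
  obtain ⟨N, hN⟩ := eventually_atTop.1 g2
  filter_upwards [g1 (max N m0)] with g h3
  by_contra h4
  push Not at h4
  refine h3 ⟨fun m hm => ?_, fun a h5 h6 => h4 a h5 h6⟩
  rw [(hm0 m (le_of_max_le_right hm)).1]
  exact (hN m (le_of_max_le_left hm)).2


end Pool.Agent.J6H67.CG
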