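import Pool.Agent.J6H67.CG.Stm

set_option autoImplicit false

/-!
# Project CG, module MNY (helper45): choice of blocks

Adapted from `Pool/Agent/J6H39/RS/ARB.lean` (helper48).
-/

namespace Pool.Agent.J6H67.CG

open MeasureTheory Filter Finset
open scoped Topology
open Pool.Agent.J6H39.RS

namespace MNYaux

lemma one_sub_inv_pos (q : ℕ) (hq : q.Prime) : (0 : ℝ) < 1 - (q : ℝ)⁻¹ := by
  have h1 : (1 : ℝ) < q := by exact_mod_cast hq.one_lt
  have := inv_lt_one_of_one_lt₀ h1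
  linarith

lemma W_pos (v : ℕ) : 0 < W v := by
  unfold W
  apply Finset.prod_pos
  intro q hq
  rw [mem_filter] at hq
  exact inv_pos.2 (one_sub_inv_pos q hq.2)

open Classical in
lemma bad (z : ℕ → ℕ) (hz : Monotone z) (D t0 t1 : ℕ) (h : t0 ≤ t1) :
    ((Ico t0 t1).filter (fun t => ¬ z ((t + 1) * D) = z (t * D))).card + z (t0 * D) ≤
      z (t1 * D) := by
  induction t1, h using Nat.le_induction with
  | base => simp
  | succ n hn ih =>
    rw [Finset.card_filter, Finset.sum_Ico_succ_top hn, ← Finset.card_filter]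
    have h1 : z (n * D) ≤ z ((n + 1) * D) := hz (Nat.mul_le_mul_right _ (Nat.le_succ n))
    split_ifs with h2
    · omega
    · omega

open Classical in
/-- a good interval in one block -/
lemma block (δ : ℝ) (hδ : 0 < δ) (C : ℕ)
    (hB : ∀ (P : Finset ℕ) (v g a T : ℕ) (κ : ℝ),
      (∀ p ∈ P, p.Prime ∧ p ≤ v) → 1 ≤ T →
      (((Icc 1 g).filter (fun h => ∀ p ∈ P, ¬ p ∣ h)).card : ℝ) ≤ κ * g * ∏ p ∈ P, (1 - (p : ℝ)⁻¹) →
      ∃ t ∈ Ioc a (a + T),
        (rgh v ((∏ p ∈ P, p) * t) g : ℝ) * W v ≤ ((1 + δ) * κ + C * ((v : ℝ) + 1) ^ C / T) * g)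
    (P : Finset ℕ) (hP : ∀ p ∈ P, p.Prime) (z : ℕ → ℕ) (hz : Monotone z) (Q t D V g T : ℕ)
    (κ : ℝ) (hQ : Q = ∏ p ∈ P, p) (hD : D = Q * (T + g)) (hT : 1 ≤ T) (h2 : 2 ≤ t * D)
    (hV : z (t * D) ≤ V) (hc : z ((t + 1) * D) = z (t * D)) (hPv : ∀ p ∈ P, p ≤ z (t * D))
    (hI : (((Icc 1 g).filter (fun h => ∀ p ∈ P, ¬ p ∣ h)).card : ℝ) ≤
      κ * g * ∏ p ∈ P, (1 - (p : ℝ)⁻¹)) :
    ∃ a, t * D ≤ a ∧ a + g ≤ (t + 1) * D ∧ ∑ m ∈ Ioc a (a + g), w z m ≤
      ((1 + δ) * κ + C * ((V : ℝ) + 1) ^ C / T) * (g / Real.log ((t * D : ℕ) : ℝ)) := by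
  obtain ⟨v, hv⟩ : ∃ v, v = z (t * D) := ⟨_, rfl⟩
  rw [← hv] at hV hc hPv
  have hQ0 : 0 < Q := by
    rw [hQ]
    exact Finset.prod_pos (fun p hp => (hP p hp).pos)
  obtain ⟨s, hs, hcard⟩ := hB P v g (t * (T + g)) T κ (fun p hp => ⟨hP p hp, hPv p hp⟩) hT hI
  rw [← hQ] at hcard
  rw [mem_Ioc] at hs
  have ha1 : t * D ≤ Q * s := by
    have h1 : Q * (t * (T + g)) ≤ Q * s := Nat.mul_le_mul_left _ hs.1.le
    have h3 : t * D = Q * (t * (T + g)) := by
      rw [hD]
      ring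
    omega
  have ha2 : Q * s + g ≤ (t + 1) * D := by
    have h1 : Q * s ≤ Q * (t * (T + g) + T) := Nat.mul_le_mul_left _ hs.2
    have h3 : (t + 1) * D = Q * (t * (T + g) + T) + Q * g := by
      rw [hD]
      ring
    have h4 : g ≤ Q * g := Nat.le_mul_of_pos_left g hQ0
    omega
  refine ⟨Q * s, ha1, ha2, ?_⟩
  have hT0 : (2 : ℝ) ≤ ((t * D : ℕ) : ℝ) := by exact_mod_cast h2
  have hlog : 0 < Real.log ((t * D : ℕ) : ℝ) := Real.log_pos (by linarith)
  have hWv := W_pos v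
  have hzc : ∀ m ∈ Ioc (Q * s) (Q * s + g), z m = v := by
    intro m hm
    rw [mem_Ioc] at hm
    have h1 := hz (show t * D ≤ m by omega)
    have h3 := hz (show m ≤ (t + 1) * D by omega)
    omega
  have hsum : ∑ m ∈ Ioc (Q * s) (Q * s + g), w z m ≤
      (((Ioc (Q * s) (Q * s + g)).filter (fun m => Rough z m)).card : ℝ) *
        (W v / Real.log ((t * D : ℕ) : ℝ)) := by
    unfold w
    rw [← Finset.sum_filter, ← nsmul_eq_mul]
    apply Finset.sum_le_card_nsmul
    intro m hm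
    rw [mem_filter] at hm
    rw [hzc m hm.1]
    rw [mem_Ioc] at hm
    have h1 : ((t * D : ℕ) : ℝ) ≤ m := by
      have : t * D ≤ m := by omega
      exact_mod_cast this
    exact div_le_div_of_nonneg_left hWv.le hlog (Real.log_le_log (by linarith) h1)
  have hcard2 : ((Ioc (Q * s) (Q * s + g)).filter (fun m => Rough z m)).card = rgh v (Q * s) g := by
    unfold rgh
    congr 1
    apply Finset.filter_congr
    intro m hm
    unfold Rough
    rw [hzc m hm]
  rw [hcard2] at hsum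
  refine hsum.trans ?_
  have hg0 : (0 : ℝ) ≤ g := Nat.cast_nonneg _
  have hTr : (0 : ℝ) < T := by
    have : 0 < T := hT
    exact_mod_cast this
  calc (rgh v (Q * s) g : ℝ) * (W v / Real.log ((t * D : ℕ) : ℝ))
      = (rgh v (Q * s) g : ℝ) * W v / Real.log ((t * D : ℕ) : ℝ) := by ring
    _ ≤ ((1 + δ) * κ + C * ((v : ℝ) + 1) ^ C / T) * g / Real.log ((t * D : ℕ) : ℝ) :=
        div_le_div_of_nonneg_right hcard hlog.le
    _ ≤ ((1 + δ) * κ + C * ((V : ℝ) + 1) ^ C / T) * g / Real.log ((t * D : ℕ) : ℝ) := by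
        gcongr
    _ = ((1 + δ) * κ + C * ((V : ℝ) + 1) ^ C / T) * (g / Real.log ((t * D : ℕ) : ℝ)) := by
        ring

open Classical in
/-- the combinatorial core: many good intervals -/
lemma core (z : ℕ → ℕ) (hz : Monotone z) (X V D g : ℕ) (K0 : ℝ) (hK0 : 0 ≤ K0) (hX : 4 ≤ X)
    (hD0 : 0 < D) (hV : z X = V)
    (hb : ∀ t : ℕ, X ≤ 2 * (t * D) → (t + 1) * D ≤ X → z ((t + 1) * D) = z (t * D) →
      ∃ a, t * D ≤ a ∧ a + g ≤ (t + 1) * D ∧
        ∑ m ∈ Ioc a (a + g), w z m ≤ K0 * (g / Real.log ((t * D : ℕ) : ℝ))) :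
    ∃ J : Finset ℕ, (∀ a ∈ J, X ≤ 2 * a ∧ a + g ≤ X) ∧
      (∀ a ∈ J, ∀ b ∈ J, a ≠ b → a + g ≤ b ∨ b + g ≤ a) ∧
      (X : ℝ) / (2 * D) - 2 - V ≤ (J.card : ℝ) ∧
      ∀ a ∈ J, ∑ m ∈ Ioc a (a + g), w z m ≤ K0 * (g / (Real.log X - Real.log 2)) := by
  obtain ⟨t0, ht0⟩ : ∃ t0, t0 = X / (2 * D) + 1 := ⟨_, rfl⟩
  obtain ⟨t1, ht1⟩ : ∃ t1, t1 = X / D := ⟨_, rfl⟩
  obtain ⟨K, hK⟩ : ∃ K, K = (Ico t0 t1).filter (fun t => z ((t + 1) * D) = z (t * D)) := ⟨_, rfl⟩
  have hKt : ∀ t ∈ K, X ≤ 2 * (t * D) ∧ (t + 1) * D ≤ X := by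
    intro t ht
    rw [hK, mem_filter, mem_Ico] at ht
    constructor
    · have h1 := Nat.lt_mul_div_succ X (show 0 < 2 * D by omega)
      have h2 : 2 * D * (X / (2 * D) + 1) ≤ 2 * D * t := Nat.mul_le_mul_left _ (by omega)
      have h3 : 2 * D * t = 2 * (t * D) := by ring
      omega
    · have h1 : (t + 1) * D ≤ t1 * D := Nat.mul_le_mul_right _ (by omega)
      have h2 : t1 * D ≤ X := by
        rw [ht1]
        exact Nat.div_mul_le_self X D
      omega
  have hX4 : (4 : ℝ) ≤ X := by exact_mod_cast hX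
  have hblk : ∀ t ∈ K, ∃ a, t * D ≤ a ∧ a + g ≤ t * D + D ∧
      ∑ m ∈ Ioc a (a + g), w z m ≤ K0 * (g / (Real.log X - Real.log 2)) := by
    intro t ht
    obtain ⟨h1, h2⟩ := hKt t ht
    have h3 : (t + 1) * D = t * D + D := by ring
    have h4 : z ((t + 1) * D) = z (t * D) := by
      rw [hK, mem_filter] at ht
      exact ht.2
    obtain ⟨a, ha1, ha2, ha3⟩ := hb t h1 h2 h4
    refine ⟨a, ha1, by omega, ha3.trans ?_⟩
    have h6 : (X : ℝ) / 2 ≤ ((t * D : ℕ) : ℝ) := by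
      have : (X : ℝ) ≤ 2 * ((t * D : ℕ) : ℝ) := by exact_mod_cast h1
      linarith
    have h7 := Real.log_le_log (by linarith) h6
    rw [Real.log_div (by linarith) (by norm_num)] at h7
    have h8 : 0 < Real.log X - Real.log 2 := by
      rw [sub_pos]
      exact Real.log_lt_log (by norm_num) (by linarith)
    exact mul_le_mul_of_nonneg_left (div_le_div_of_nonneg_left (Nat.cast_nonneg _) h8 h7) hK0
  choose! f hf using hblk
  have hord : ∀ t ∈ K, ∀ t' ∈ K, t < t' → f t + g ≤ f t' := by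
    intro t ht t' ht' h
    have h1 := (hf t ht).2.1
    have h2 := (hf t' ht').1
    have h3 : (t + 1) * D ≤ t' * D := Nat.mul_le_mul_right _ h
    have h4 : (t + 1) * D = t * D + D := by ring
    omega
  -- two different blocks have different intervals (also for `g = 0`)
  have hlt : ∀ t ∈ K, ∀ t' ∈ K, t < t' → f t < f t' ∨ (f t = f t' ∧ g = 0) := by
    intro t ht t' ht' h
    have := hord t ht t' ht' h
    omega
  rcases Nat.eq_zero_or_pos g with hg0 | hgpos
  · -- `g = 0`: take the block ends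
    refine ⟨K.image (fun t => t * D), ?_, ?_, ?_, ?_⟩
    · intro a ha
      rw [Finset.mem_image] at ha
      obtain ⟨t, ht, rfl⟩ := ha
      obtain ⟨h1, h2⟩ := hKt t ht
      have h5 : (t + 1) * D = t * D + D := by ring
      omega
    · intro a _ b _ _
      omega
    · have hinj : Set.InjOn (fun t => t * D) (K : Set ℕ) := by
        intro t _ t' _ h
        exact Nat.eq_of_mul_eq_mul_right hD0 h
      rw [Finset.card_image_of_injOn hinj]
      have hDr : (0 : ℝ) < D := by exact_mod_cast hD0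
      have h1 : (X : ℝ) < D * (t1 + 1) := by
        have := Nat.lt_mul_div_succ X hD0
        rw [← ht1] at this
        exact_mod_cast this
      have h2 : (t0 : ℝ) ≤ X / (2 * D) + 1 := by
        rw [ht0]
        push_cast
        have := Nat.cast_div_le (α := ℝ) (m := X) (n := 2 * D)
        push_cast at this
        linarith
      have h3 : (X : ℝ) / D ≤ t1 + 1 := by
        rw [div_le_iff₀ hDr]
        linarith
      have h4 : (X : ℝ) / D = 2 * (X / (2 * D)) := by field_simp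
      rcases le_or_gt t0 t1 with h5 | h5
      · have h6 := bad z hz D t0 t1 h5
        have h7 : z (t1 * D) ≤ V := by
          rw [← hV]
          apply hz
          rw [ht1]
          exact Nat.div_mul_le_self X D
        have h8 : K.card + ((Ico t0 t1).filter (fun t => ¬ z ((t + 1) * D) = z (t * D))).card =
            t1 - t0 := by
          rw [hK, Finset.card_filter_add_card_filter_not, Nat.card_Ico]
        have h9 : t1 ≤ K.card + V + t0 := by omega
        have h10 : (t1 : ℝ) ≤ K.card + V + t0 := by exact_mod_cast h9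
        linarith
      · have h6 : (t1 : ℝ) + 1 ≤ t0 := by exact_mod_cast h5
        have h7 : (0 : ℝ) ≤ V := Nat.cast_nonneg _
        have h8 : (0 : ℝ) ≤ K.card := Nat.cast_nonneg _
        linarith
    · intro a _
      rw [hg0]
      simp
  have hinj : Set.InjOn f (K : Set ℕ) := by
    intro t ht t' ht' h
    rcases lt_trichotomy t t' with h1 | h1 | h1
    · have := hord t ht t' ht' h1
      omega
    · exact h1
    · have := hord t' ht' t ht h1
      omega
  refine ⟨K.image f, ?_, ?_, ?_, ?_⟩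
  · intro a ha
    rw [Finset.mem_image] at ha
    obtain ⟨t, ht, rfl⟩ := ha
    obtain ⟨h1, h2⟩ := hKt t ht
    obtain ⟨h3, h4, -⟩ := hf t ht
    have h5 : (t + 1) * D = t * D + D := by ring
    omega
  · intro a ha b hb' hab
    rw [Finset.mem_image] at ha hb'
    obtain ⟨t, ht, rfl⟩ := ha
    obtain ⟨t', ht', rfl⟩ := hb'
    rcases lt_trichotomy t t' with h1 | h1 | h1
    · left
      exact hord t ht t' ht' h1
    · exact absurd (by rw [h1]) hab
    · right
      exact hord t' ht' t ht h1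
  · rw [Finset.card_image_of_injOn hinj]
    have hDr : (0 : ℝ) < D := by exact_mod_cast hD0
    have h1 : (X : ℝ) < D * (t1 + 1) := by
      have := Nat.lt_mul_div_succ X hD0
      rw [← ht1] at this
      exact_mod_cast this
    have h2 : (t0 : ℝ) ≤ X / (2 * D) + 1 := by
      rw [ht0]
      push_cast
      have := Nat.cast_div_le (α := ℝ) (m := X) (n := 2 * D)
      push_cast at this
      linarith
    have h3 : (X : ℝ) / D ≤ t1 + 1 := by
      rw [div_le_iff₀ hDr]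
      linarith
    have h4 : (X : ℝ) / D = 2 * (X / (2 * D)) := by field_simp
    rcases le_or_gt t0 t1 with h5 | h5
    · have h6 := bad z hz D t0 t1 h5
      have h7 : z (t1 * D) ≤ V := by
        rw [← hV]
        apply hz
        rw [ht1]
        exact Nat.div_mul_le_self X D
      have h8 : K.card + ((Ico t0 t1).filter (fun t => ¬ z ((t + 1) * D) = z (t * D))).card =
          t1 - t0 := by
        rw [hK, Finset.card_filter_add_card_filter_not, Nat.card_Ico]
      have h9 : t1 ≤ K.card + V + t0 := by omega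
      have h10 : (t1 : ℝ) ≤ K.card + V + t0 := by exact_mod_cast h9
      linarith
    · have h6 : (t1 : ℝ) + 1 ≤ t0 := by exact_mod_cast h5
      have h7 : (0 : ℝ) ≤ V := Nat.cast_nonneg _
      have h8 : (0 : ℝ) ≤ K.card := Nat.cast_nonneg _
      linarith
  · intro a ha
    rw [Finset.mem_image] at ha
    obtain ⟨t, ht, rfl⟩ := ha
    exact (hf t ht).2.2

/-! ### asymptotics -/

lemma evB (c b : ℝ) (hc : 0 < c) (hb : 0 < b) :
    ∀ᶠ y : ℝ in atTop, 4 * y ^ 2 / c ^ 2 + 1 ≤ Real.exp (b * y) := by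
  filter_upwards [eventually_ge_atTop (1 : ℝ), eventually_ge_atTop (6 * (4 / c ^ 2 + 1) / b ^ 3)]
    with y h1 h2
  have hy0 : (0 : ℝ) ≤ y := by linarith
  have h3 := Real.pow_div_factorial_le_exp (b * y) (by positivity) 3
  have h4 : (Nat.factorial 3 : ℝ) = 6 := by norm_num [Nat.factorial]
  rw [h4] at h3
  refine le_trans ?_ h3
  rw [div_le_iff₀ (by positivity)] at h2
  rw [le_div_iff₀ (by norm_num)]
  have h5 : (1 : ℝ) ≤ y ^ 2 := one_le_pow₀ h1
  have h6 : 4 * y ^ 2 / c ^ 2 + 1 ≤ (4 / c ^ 2 + 1) * y ^ 2 := by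
    have e : 4 * y ^ 2 / c ^ 2 = 4 / c ^ 2 * y ^ 2 := by ring
    rw [e]
    nlinarith
  have h7 : (6 * (4 / c ^ 2 + 1)) * y ^ 2 ≤ (y * b ^ 3) * y ^ 2 :=
    mul_le_mul_of_nonneg_right h2 (by positivity)
  calc (4 * y ^ 2 / c ^ 2 + 1) * 6 ≤ (4 / c ^ 2 + 1) * y ^ 2 * 6 := by linarith
    _ = (6 * (4 / c ^ 2 + 1)) * y ^ 2 := by ring
    _ ≤ (y * b ^ 3) * y ^ 2 := h7
    _ = (b * y) ^ 3 := by ring

lemma evC (b C : ℝ) (hb : 0 < b) : ∀ᶠ y : ℝ in atTop, C ≤ Real.exp (b * y) := by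
  filter_upwards [eventually_ge_atTop (C / b)] with y h1
  rw [div_le_iff₀ hb] at h1
  have := Real.add_one_le_exp (b * y)
  nlinarith

lemma XX_tendsto (c : ℝ) (hc : 0 < c) : Tendsto (fun g : ℕ => XX c g) atTop atTop := by
  have h2 : Tendsto (fun g : ℕ => √(g : ℝ)) atTop atTop :=
    Real.tendsto_sqrt_atTop.comp tendsto_natCast_atTop_atTop
  exact tendsto_nat_floor_atTop.comp (Real.tendsto_exp_atTop.comp (h2.const_mul_atTop hc))

/-- `log XX` and `c √g` -/
lemma XX_log (c : ℝ) (g : ℕ) (h : 1 ≤ XX c g) :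
    Real.log (XX c g) ≤ c * √(g : ℝ) ∧ c * √(g : ℝ) ≤ Real.log (XX c g) + Real.log 2 := by
  have h0 : (1 : ℝ) ≤ XX c g := by exact_mod_cast h
  have h1 : ((XX c g : ℕ) : ℝ) ≤ Real.exp (c * √(g : ℝ)) := Nat.floor_le (Real.exp_pos _).le
  have h2 : Real.exp (c * √(g : ℝ)) < (XX c g : ℝ) + 1 := Nat.lt_floor_add_one _
  constructor
  · have := Real.log_le_log (by linarith) h1
    rwa [Real.log_exp] at this
  · have h3 : Real.exp (c * √(g : ℝ)) ≤ (XX c g : ℝ) * 2 := by linarith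
    have := Real.log_le_log (Real.exp_pos _) h3
    rwa [Real.log_exp, Real.log_mul (by linarith) (by norm_num)] at this

end MNYaux

open MNYaux in
theorem t_MNY (hBLK : S_BLK) : S_MNY := by
  classical
  intro z hz hsub κ c hκ0 hκ2 hc hThin η0 hη0
  obtain ⟨η, hη⟩ : ∃ η, η = min η0 (1 / 2) := ⟨_, rfl⟩
  have hη1 : 0 < η := by
    rw [hη]
    exact lt_min hη0 (by norm_num)
  have hη2 : η ≤ 1 / 2 := by
    rw [hη]
    exact min_le_right _ _
  have hη3 : η ≤ η0 := by
    rw [hη]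
    exact min_le_left _ _
  obtain ⟨η1, hη1'⟩ : ∃ η1, η1 = η / 16 := ⟨_, rfl⟩
  have h10 : 0 < η1 := by
    rw [hη1']
    positivity
  obtain ⟨C, hC⟩ := hBLK η1 h10
  obtain ⟨σ, hσ⟩ : ∃ σ : ℝ, σ = η1 / (2 * (C + 2)) := ⟨_, rfl⟩
  have hσ0 : 0 < σ := by
    rw [hσ]
    positivity
  have hCσ : C * σ ≤ η1 / 2 := by
    rw [hσ, mul_div_assoc', div_le_div_iff₀ (by positivity) (by norm_num)]
    have : (0 : ℝ) ≤ C := Nat.cast_nonneg _
    nlinarith
  have hσ1 : σ ≤ η1 := by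
    rw [hσ]
    apply div_le_self h10.le
    have : (0 : ℝ) ≤ C := Nat.cast_nonneg _
    linarith
  -- asymptotic facts
  have hXt := XX_tendsto c hc
  have hyt : Tendsto (fun g : ℕ => Real.log ((XX c g : ℕ) : ℝ)) atTop atTop :=
    Real.tendsto_log_atTop.comp (tendsto_natCast_atTop_atTop.comp hXt)
  filter_upwards [hThin η1 h10, hXt.eventually_ge_atTop 4,
    hXt.eventually (hsub σ hσ0),
    hyt.eventually (evB c η1 hc h10),
    hyt.eventually (evC η1 2 h10),
    hyt.eventually (evC (3 * η / 4) 4 (by positivity)),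
    hyt.eventually (evC (η1 / 2) (C * 2 ^ (C + 1) / η1) (by positivity)),
    hyt.eventually_ge_atTop (10 : ℝ), hyt.eventually_ge_atTop (2 * (κ + η0) / η)]
    with g gThin gX gV gB gC gE gF g10 gδ
  obtain ⟨X, hX⟩ : ∃ X, X = XX c g := ⟨_, rfl⟩
  rw [← hX] at gX gV gB gC gE gF g10 gδ gThin ⊢
  obtain ⟨y, hy⟩ : ∃ y, y = Real.log (X : ℝ) := ⟨_, rfl⟩
  rw [← hy] at gB gC gE gF g10 gδ
  obtain ⟨P, hP1, hP2, hP3⟩ := gThin
  have hXr : (4 : ℝ) ≤ X := by exact_mod_cast gX
  have hXpos : (0 : ℝ) < X := by linarith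
  have hXexp : (X : ℝ) = Real.exp y := by rw [hy, Real.exp_log hXpos]
  have hXpow : ∀ s : ℝ, (X : ℝ) ^ s = Real.exp (s * y) := by
    intro s
    rw [Real.rpow_def_of_pos hXpos, ← hy, mul_comm]
  have hlog2 : Real.log 2 ≤ 1 := by
    have := Real.log_two_lt_d9
    linarith
  have hlog20 : 0 < Real.log 2 := Real.log_pos (by norm_num)
  obtain ⟨hL1, hL2⟩ := XX_log c g (by rw [← hX]; omega)
  rw [← hX, ← hy] at hL1 hL2
  have hsq0 : 0 ≤ √(g : ℝ) := Real.sqrt_nonneg _
  have hcs : c * √(g : ℝ) ≤ 2 * y := by linarith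
  have hgy : (g : ℝ) ≤ 4 * y ^ 2 / c ^ 2 := by
    rw [le_div_iff₀ (by positivity)]
    have h1 := pow_le_pow_left₀ (by positivity) hcs 2
    rw [mul_pow, Real.sq_sqrt (Nat.cast_nonneg _)] at h1
    nlinarith
  obtain ⟨V, hV⟩ : ∃ V, V = z X := ⟨_, rfl⟩
  have hVy : (V : ℝ) ≤ Real.exp (σ * y) := by
    rw [← hXpow, hV]
    exact gV
  -- the block length
  obtain ⟨Q, hQ⟩ : ∃ Q, Q = ∏ p ∈ P, p := ⟨_, rfl⟩
  have hP : ∀ p ∈ P, p.Prime := fun p hp => (hP1 p hp).1
  have hQ0 : 0 < Q := by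
    rw [hQ]
    exact Finset.prod_pos (fun p hp => (hP p hp).pos)
  have hQy : (Q : ℝ) ≤ Real.exp (η1 * y) := by
    rw [← hXpow, hQ]
    exact hP2
  obtain ⟨T, hT⟩ : ∃ T, T = ⌊Real.exp (η1 * y)⌋₊ := ⟨_, rfl⟩
  have hT1 : (T : ℝ) ≤ Real.exp (η1 * y) := by
    rw [hT]
    exact Nat.floor_le (Real.exp_pos _).le
  have hT2 : Real.exp (η1 * y) < T + 1 := by
    rw [hT]
    exact Nat.lt_floor_add_one _
  have hT3 : 1 ≤ T := by
    have : (1 : ℝ) < T + 1 := by linarith
    have h2 : (0 : ℝ) < T := by linarith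
    exact_mod_cast h2
  have hT4 : Real.exp (η1 * y) / 2 ≤ T := by linarith
  have hT0 : (0 : ℝ) < T := by
    have : 0 < T := hT3
    exact_mod_cast this
  obtain ⟨D, hD⟩ : ∃ D, D = Q * (T + g) := ⟨_, rfl⟩
  have hD0' : 0 < D := by
    rw [hD]
    exact Nat.mul_pos hQ0 (by omega)
  have hD0 : (0 : ℝ) < D := by exact_mod_cast hD0'
  have hDr : (D : ℝ) ≤ Real.exp (η / 4 * y) := by
    rw [hD]
    push_cast
    have h1 : Real.exp (η / 4 * y) =
        Real.exp (η1 * y) * (Real.exp (η1 * y) * (Real.exp (η1 * y) * Real.exp (η1 * y))) := by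
      rw [← Real.exp_add, ← Real.exp_add, ← Real.exp_add]
      congr 1
      rw [hη1']
      ring
    rw [h1]
    have h2 : (T : ℝ) + g ≤ Real.exp (η1 * y) * (Real.exp (η1 * y) * Real.exp (η1 * y)) := by
      have h3 : (g : ℝ) ≤ Real.exp (η1 * y) := by linarith
      have h4 : (1 : ℝ) ≤ Real.exp (η1 * y) := by linarith
      have h5 : Real.exp (η1 * y) * 2 ≤ Real.exp (η1 * y) * (Real.exp (η1 * y) * Real.exp (η1 * y)) := by
        apply mul_le_mul_of_nonneg_left _ (Real.exp_pos _).le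
        nlinarith
      linarith
    exact mul_le_mul hQy h2 (by positivity) (Real.exp_pos _).le
  -- the error term
  obtain ⟨K0, hK0⟩ : ∃ K0 : ℝ, K0 = (1 + η1) * (κ + η1) + C * ((V : ℝ) + 1) ^ C / T := ⟨_, rfl⟩
  have hK00 : 0 ≤ K0 := by
    rw [hK0]
    positivity
  have herr : C * ((V : ℝ) + 1) ^ C / T ≤ η1 := by
    have h1 : (V : ℝ) + 1 ≤ 2 * Real.exp (σ * y) := by
      have : 1 ≤ Real.exp (σ * y) := Real.one_le_exp (by positivity)
      linarith
    have h2 : ((V : ℝ) + 1) ^ C ≤ 2 ^ C * Real.exp (η1 / 2 * y) := by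
      calc ((V : ℝ) + 1) ^ C ≤ (2 * Real.exp (σ * y)) ^ C := by gcongr
        _ = 2 ^ C * Real.exp (C * (σ * y)) := by rw [mul_pow, ← Real.exp_nat_mul]
        _ ≤ 2 ^ C * Real.exp (η1 / 2 * y) := by
            apply mul_le_mul_of_nonneg_left _ (by positivity)
            apply Real.exp_le_exp.2
            have h3 : (0 : ℝ) ≤ y := by linarith
            calc C * (σ * y) = (C * σ) * y := by ring
              _ ≤ η1 / 2 * y := mul_le_mul_of_nonneg_right hCσ h3
    rw [div_le_iff₀ hT0]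
    have h3 : C * 2 ^ (C + 1) ≤ η1 * Real.exp (η1 / 2 * y) := by
      rw [div_le_iff₀ h10] at gF
      linarith
    have h4 : Real.exp (η1 * y) = Real.exp (η1 / 2 * y) * Real.exp (η1 / 2 * y) := by
      rw [← Real.exp_add]
      congr 1
      ring
    have h5 : (C : ℝ) * ((V : ℝ) + 1) ^ C ≤ C * (2 ^ C * Real.exp (η1 / 2 * y)) :=
      mul_le_mul_of_nonneg_left h2 (Nat.cast_nonneg _)
    have h6 := mul_le_mul_of_nonneg_right h3 (Real.exp_pos (η1 / 2 * y)).le
    have h7 : (C : ℝ) * (2 ^ C * Real.exp (η1 / 2 * y)) = C * 2 ^ (C + 1) * Real.exp (η1 / 2 * y) / 2 := by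
      rw [pow_succ]
      ring
    have h8 : η1 * (Real.exp (η1 * y) / 2) ≤ η1 * T := mul_le_mul_of_nonneg_left hT4 h10.le
    rw [h4] at h8
    rw [h7] at h5
    linarith
  have hK1 : K0 ≤ κ + 5 * η / 16 := by
    have h1 : η1 ≤ 1 / 32 := by
      rw [hη1']
      linarith
    have h2 : 5 * η / 16 = 5 * η1 := by
      rw [hη1']
      ring
    rw [hK0, h2]
    have h3 : η1 * κ ≤ η1 * 2 := mul_le_mul_of_nonneg_left hκ2 h10.le
    have h4 : η1 * η1 ≤ η1 * (1 / 32) := mul_le_mul_of_nonneg_left h1 h10.le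
    linarith
  obtain ⟨J, hJ1, hJ2, hJ3, hJ4⟩ := core z hz X V D g K0 hK00 gX hD0' hV.symm (by
    intro t h1 h2 h3
    have h4 : z (X / 2) ≤ z (t * D) := hz (by omega)
    have h5 : z (t * D) ≤ V := by
      rw [hV]
      apply hz
      have h6 : (t + 1) * D = t * D + D := by ring
      omega
    obtain ⟨a, ha1, ha2, ha3⟩ := block η1 h10 C hC P hP z hz Q t D V g T (κ + η1) hQ hD hT3
      (by omega) h5 h3 (fun p hp => (hP1 p hp).2.trans h4) hP3
    rw [← hK0] at ha3
    exact ⟨a, ha1, ha2, ha3⟩)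
  refine ⟨J, hJ1, hJ2, le_trans ?_ hJ3, fun a ha => (hJ4 a ha).trans ?_⟩
  · -- the number of intervals
    have h1 : (X : ℝ) ^ (1 - η0) ≤ (X : ℝ) ^ (1 - η) :=
      Real.rpow_le_rpow_of_exponent_le (by linarith) (by linarith)
    refine h1.trans ?_
    rw [hXpow]
    have h3 : Real.exp ((1 - η / 4) * y) / 2 ≤ (X : ℝ) / (2 * D) := by
      rw [hXexp, div_le_div_iff₀ (by norm_num) (by positivity)]
      have h4 : Real.exp y = Real.exp ((1 - η / 4) * y) * Real.exp (η / 4 * y) := by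
        rw [← Real.exp_add]
        congr 1
        ring
      rw [h4]
      have h5 := mul_le_mul_of_nonneg_left hDr (Real.exp_pos ((1 - η / 4) * y)).le
      linarith
    have h5 : Real.exp ((1 - η / 4) * y) = Real.exp ((1 - η) * y) * Real.exp (3 * η / 4 * y) := by
      rw [← Real.exp_add]
      congr 1
      ring
    have h7 : 2 + (V : ℝ) ≤ Real.exp ((1 - η) * y) := by
      have h8 : Real.exp (1 / 2 * y) ≤ Real.exp ((1 - η) * y) := by
        apply Real.exp_le_exp.2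
        exact mul_le_mul_of_nonneg_right (by linarith) (by linarith)
      refine le_trans ?_ h8
      have h9 : (V : ℝ) ≤ Real.exp (1 / 4 * y) := by
        refine hVy.trans (Real.exp_le_exp.2 ?_)
        have h11 : σ ≤ 1 / 4 := by
          have : η1 ≤ 1 / 32 := by
            rw [hη1']
            linarith
          linarith
        exact mul_le_mul_of_nonneg_right h11 (by linarith)
      have h12 : Real.exp (1 / 2 * y) = Real.exp (1 / 4 * y) * Real.exp (1 / 4 * y) := by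
        rw [← Real.exp_add]
        congr 1
        ring
      have h13 := Real.add_one_le_exp (1 / 4 * y)
      have h14 : (3 : ℝ) ≤ Real.exp (1 / 4 * y) := by linarith
      have h15 := mul_le_mul_of_nonneg_right h14 (Real.exp_pos (1 / 4 * y)).le
      rw [h12]
      linarith
    have h8 : 2 * Real.exp ((1 - η) * y) ≤ Real.exp ((1 - η / 4) * y) / 2 := by
      rw [h5]
      have := mul_le_mul_of_nonneg_left gE (Real.exp_pos ((1 - η) * y)).le
      linarith
    linarith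
  · -- the density
    rw [← hy]
    have hy2 : 0 < y - Real.log 2 := by linarith
    have hy0 : 0 < y := by linarith
    rw [div_le_iff₀ hη1] at gδ
    rw [← mul_div_assoc, ← mul_div_assoc, div_le_div_iff₀ hy2 hy0]
    have h1 : K0 * y ≤ (κ + η0) * (y - Real.log 2) := by
      have h2 : K0 * y ≤ (κ + 5 * η / 16) * y := mul_le_mul_of_nonneg_right hK1 hy0.le
      have h3 : (κ + η0) * Real.log 2 ≤ (κ + η0) * 1 :=
        mul_le_mul_of_nonneg_left hlog2 (by linarith)
      have h4 : η * y ≤ η0 * y := mul_le_mul_of_nonneg_right hη3 hy0.le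
      linarith
    have h2 : (0 : ℝ) ≤ g := Nat.cast_nonneg _
    have h3 := mul_le_mul_of_nonneg_left h1 h2
    linarith

end Pool.Agent.J6H67.CG
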