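import Pool.Agent.J6H67.CG.Stm2
import Pool.Agent.Cov.PNT
import Pool.Agent.H305R2.MertensE

/-!
# CG-PN2: numbers up to `g` without prime factors `≤ g^((1-κ)/2)` (helper57 for helper67)
-/

set_option autoImplicit false

namespace Pool.Agent.J6H67.CG

open Filter Finset
open scoped Topology

namespace PN2

/-- the product of Mertens -/
noncomputable def WW (N : ℕ) : ℝ := ∏ p ∈ (Icc 1 N).filter Nat.Prime, (1 - (p : ℝ)⁻¹)⁻¹

lemma one_sub_pos {p : ℕ} (hp : p.Prime) : 0 < 1 - (p : ℝ)⁻¹ := by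
  have h1 : (1 : ℝ) < p := by exact_mod_cast hp.one_lt
  have h2 : (p : ℝ)⁻¹ < 1 := inv_lt_one_of_one_lt₀ h1
  linarith

lemma WW_pos (N : ℕ) : 0 < WW N := by
  refine Finset.prod_pos fun p hp => ?_
  exact inv_pos.2 (one_sub_pos (mem_filter.1 hp).2)

lemma card_primes_le (n : ℕ) : ((Icc 1 n).filter Nat.Prime).card ≤ Nat.primeCounting n := by
  rw [Nat.primeCounting, Nat.primeCounting', Nat.count_eq_card_filter_range]
  apply Finset.card_le_card
  intro p hp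
  rw [mem_filter, mem_Icc] at hp
  rw [mem_filter, mem_range]
  exact ⟨by omega, hp.2⟩

/-- the elementary count -/
lemma count (S : Finset ℕ) (g y y' : ℕ)
    (hS : ∀ h ∈ S, (1 ≤ h ∧ h ≤ g) ∧ ∀ p ∈ (Icc 1 y).filter Nat.Prime, ¬ p ∣ h)
    (h3 : g < (y + 1) ^ 3) (hy' : ∀ p : ℕ, p * p ≤ g → p ≤ y') :
    S.card ≤
      1 + Nat.primeCounting g + ∑ p ∈ (Ioc y y').filter Nat.Prime, Nat.primeCounting (g / p) := by
  have hsub : S ⊆
      ({1} ∪ (Icc 1 g).filter Nat.Prime) ∪ ((Ioc y y').filter Nat.Prime).biUnion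
        (fun p => ((Icc 1 (g / p)).filter Nat.Prime).image (fun q => p * q)) := by
    intro h hh
    obtain ⟨⟨h1, hg⟩, hr⟩ := hS h hh
    have hrough : ∀ p : ℕ, p.Prime → p ∣ h → y < p := by
      intro p hp hd
      by_contra hcon
      exact hr p (mem_filter.2 ⟨mem_Icc.2 ⟨hp.one_lt.le, by omega⟩, hp⟩) hd
    by_cases h10 : h = 1
    · exact mem_union_left _ (mem_union_left _ (by rw [h10]; exact mem_singleton_self 1))
    by_cases hpr : h.Prime
    · exact mem_union_left _ (mem_union_right _ (mem_filter.2 ⟨mem_Icc.2 ⟨h1, hg⟩, hpr⟩))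
    · refine mem_union_right _ (mem_biUnion.2 ⟨h.minFac, ?_, ?_⟩)
      · have hp := Nat.minFac_prime h10
        have hsq : h.minFac ^ 2 ≤ h := Nat.minFac_sq_le_self (by omega) hpr
        rw [mem_filter, mem_Ioc]
        refine ⟨⟨hrough _ hp h.minFac_dvd, hy' _ ?_⟩, hp⟩
        nlinarith
      · have hp := Nat.minFac_prime h10
        have hsq : h.minFac ^ 2 ≤ h := Nat.minFac_sq_le_self (by omega) hpr
        obtain ⟨m, hm⟩ := h.minFac_dvd
        have hpy := hrough _ hp h.minFac_dvd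
        have hp0 := hp.pos
        have hm0 : 0 < m := by
          rcases Nat.eq_zero_or_pos m with h0 | h0
          · rw [h0, mul_zero] at hm; omega
          · exact h0
        have hm1 : m ≠ 1 := by
          intro h0
          rw [h0, mul_one] at hm
          rw [← hm] at hp
          exact hpr hp
        have hmd : m ∣ h := ⟨h.minFac, by rw [mul_comm]; exact hm⟩
        have hmp : m.Prime := by
          by_contra hcon
          have hq := Nat.minFac_prime hm1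
          have hqy := hrough _ hq (m.minFac_dvd.trans hmd)
          have hqs : m.minFac ^ 2 ≤ m := Nat.minFac_sq_le_self hm0 hcon
          have h4 : (y + 1) ^ 2 ≤ m.minFac ^ 2 := Nat.pow_le_pow_left hqy 2
          have h5 : (y + 1) * (y + 1) ^ 2 ≤ h.minFac * m := Nat.mul_le_mul hpy (h4.trans hqs)
          rw [← hm] at h5
          have h6 : (y + 1) ^ 3 = (y + 1) * (y + 1) ^ 2 := by ring
          omega
        rw [mem_image]
        refine ⟨m, mem_filter.2 ⟨mem_Icc.2 ⟨hm0, ?_⟩, hmp⟩, hm.symm⟩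
        rw [Nat.le_div_iff_mul_le hp0, mul_comm, ← hm]
        exact hg
  refine (Finset.card_le_card hsub).trans ((Finset.card_union_le _ _).trans (Nat.add_le_add ?_ ?_))
  · refine (Finset.card_union_le _ _).trans (Nat.add_le_add ?_ (card_primes_le g))
    rw [card_singleton]
  · refine Finset.card_biUnion_le.trans (Finset.sum_le_sum fun p _ => ?_)
    exact Finset.card_image_le.trans (card_primes_le _)

/-- the sum of `1 / p` from the product -/
lemma sum_inv_le {y y' : ℕ} (hyy : y ≤ y') :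
    1 + ∑ p ∈ (Ioc y y').filter Nat.Prime, (p : ℝ)⁻¹ ≤ WW y' / WW y := by
  classical
  have hsplit : WW y' = WW y * ∏ p ∈ (Ioc y y').filter Nat.Prime, (1 - (p : ℝ)⁻¹)⁻¹ := by
    unfold WW
    rw [← Finset.prod_union]
    · congr 1
      ext p
      simp only [mem_filter, mem_union, mem_Icc, mem_Ioc]
      constructor
      · rintro ⟨⟨h1, h2⟩, h3⟩
        by_cases h : p ≤ y
        · exact Or.inl ⟨⟨h1, h⟩, h3⟩
        · exact Or.inr ⟨⟨by omega, h2⟩, h3⟩
      · rintro (⟨⟨h1, h2⟩, h3⟩ | ⟨⟨h1, h2⟩, h3⟩)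
        · exact ⟨⟨h1, by omega⟩, h3⟩
        · exact ⟨⟨by omega, h2⟩, h3⟩
    · rw [Finset.disjoint_left]
      intro p h1 h2
      rw [mem_filter, mem_Icc] at h1
      rw [mem_filter, mem_Ioc] at h2
      omega
  rw [hsplit, mul_div_cancel_left₀ _ (WW_pos y).ne']
  have h1 : ∏ p ∈ (Ioc y y').filter Nat.Prime, Real.exp ((p : ℝ)⁻¹) ≤
      ∏ p ∈ (Ioc y y').filter Nat.Prime, (1 - (p : ℝ)⁻¹)⁻¹ := by
    refine Finset.prod_le_prod (fun p _ => (Real.exp_pos _).le) fun p hp => ?_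
    have h2 := one_sub_pos (mem_filter.1 hp).2
    have h3 := Real.one_sub_le_exp_neg ((p : ℝ)⁻¹)
    rw [Real.exp_neg] at h3
    exact (le_inv_comm₀ (Real.exp_pos _) h2).2 h3
  rw [← Real.exp_sum] at h1
  have h4 := Real.add_one_le_exp (∑ p ∈ (Ioc y y').filter Nat.Prime, (p : ℝ)⁻¹)
  linarith

lemma tendsto_floor_rpow {s : ℝ} (hs : 0 < s) :
    Tendsto (fun g : ℕ => ⌊(g : ℝ) ^ s⌋₊) atTop atTop :=
  tendsto_nat_floor_atTop.comp ((tendsto_rpow_atTop hs).comp tendsto_natCast_atTop_atTop)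

lemma log_floor {s : ℝ} (hs : 0 < s) :
    Tendsto (fun g : ℕ => Real.log (⌊(g : ℝ) ^ s⌋₊ : ℝ) / Real.log g) atTop (𝓝 s) := by
  have h1 : Tendsto (fun g : ℕ => (g : ℝ) ^ s) atTop atTop :=
    (tendsto_rpow_atTop hs).comp tendsto_natCast_atTop_atTop
  have h2 : Tendsto (fun x : ℝ => (⌊x⌋₊ : ℝ) / x) atTop (𝓝 1) := tendsto_nat_floor_div_atTop
  have h3 : Tendsto (fun g : ℕ => Real.log ((⌊(g : ℝ) ^ s⌋₊ : ℝ) / (g : ℝ) ^ s)) atTop (𝓝 0) := by
    have h4 := (Real.continuousAt_log one_ne_zero).tendsto.comp (h2.comp h1)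
    rw [Real.log_one] at h4
    exact h4
  have hL : Tendsto (fun g : ℕ => (Real.log g)⁻¹) atTop (𝓝 0) :=
    tendsto_inv_atTop_zero.comp (Real.tendsto_log_atTop.comp tendsto_natCast_atTop_atTop)
  have h5 := (h3.mul hL).const_add s
  rw [zero_mul, add_zero] at h5
  refine h5.congr' ?_
  filter_upwards [eventually_ge_atTop 2, (tendsto_floor_rpow hs).eventually_ge_atTop 1] with g hg hf
  have hg1 : (1 : ℝ) < g := by exact_mod_cast hg
  have hlog : Real.log g ≠ 0 := (Real.log_pos hg1).ne'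
  have hf0 : (⌊(g : ℝ) ^ s⌋₊ : ℝ) ≠ 0 := by
    have : (1 : ℝ) ≤ (⌊(g : ℝ) ^ s⌋₊ : ℝ) := by exact_mod_cast hf
    linarith
  have hgs : (g : ℝ) ^ s ≠ 0 := (Real.rpow_pos_of_pos (by linarith) s).ne'
  rw [Real.log_div hf0 hgs, Real.log_rpow (by linarith)]
  field_simp
  ring

/-- Mertens at powers of `g` -/
lemma mertens_pow {s : ℝ} (hs : 0 < s) :
    Tendsto (fun g : ℕ => WW ⌊(g : ℝ) ^ s⌋₊ / Real.log g) atTop
      (𝓝 (Real.exp Real.eulerMascheroniConstant * s)) := by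
  have h1 := (Pool.Agent.H305R2.mertens_three.comp (tendsto_floor_rpow hs)).mul (log_floor hs)
  refine h1.congr' ?_
  filter_upwards [(tendsto_floor_rpow hs).eventually_ge_atTop 2] with g hf
  have hf1 : (1 : ℝ) < (⌊(g : ℝ) ^ s⌋₊ : ℝ) := by exact_mod_cast hf
  have hlog : Real.log (⌊(g : ℝ) ^ s⌋₊ : ℝ) ≠ 0 := (Real.log_pos hf1).ne'
  simp only [Function.comp]
  change WW ⌊(g : ℝ) ^ s⌋₊ / _ * _ = _
  field_simp

end PN2

open PN2 in
theorem t_PN2 : S_PN2 := by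
  intro η hη
  set E := Real.exp Real.eulerMascheroniConstant with hE
  have hE0 : 0 < E := Real.exp_pos _
  have hE3 : E ≤ 3 := by
    have h1 : Real.eulerMascheroniConstant ≤ 1 := by
      have := Real.eulerMascheroniConstant_lt_two_thirds
      linarith
    have h2 := Real.exp_le_exp.2 h1
    have h3 := Real.exp_one_lt_d9
    linarith
  obtain ⟨κ, hκ⟩ : ∃ κ : ℝ, κ = min (1 / 4) (η / 41) := ⟨_, rfl⟩
  have hκ0 : 0 < κ := by rw [hκ]; positivity
  have hκ4 : κ ≤ 1 / 4 := by rw [hκ]; exact min_le_left _ _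
  have hκη : κ ≤ η / 41 := by rw [hκ]; exact min_le_right _ _
  refine ⟨κ, hκ0, by linarith, ?_⟩
  have hσ : 0 < (1 - κ) / 2 := by linarith
  -- the prime number theorem
  have hπ : ∀ᶠ g : ℕ in atTop, (Nat.primeCounting g : ℝ) * Real.log g / g < 1 + κ := by
    have h1 := Pool.Agent.Cov.PNT.pi_tendsto.comp (tendsto_natCast_atTop_atTop (R := ℝ))
    have h2 := h1.eventually (gt_mem_nhds (show (1 : ℝ) < 1 + κ by linarith))
    filter_upwards [h2] with g hg
    simpa [Function.comp] using hg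
  obtain ⟨x0, hx0⟩ : ∃ x0 : ℝ, ∀ x : ℝ, x0 ≤ x →
      (Nat.primeCounting ⌊x⌋₊ : ℝ) * Real.log x / x < 2 :=
    eventually_atTop.1 (Pool.Agent.Cov.PNT.pi_tendsto.eventually (gt_mem_nhds (show (1 : ℝ) < 2 by norm_num)))
  -- Mertens
  have hm1 := mertens_pow hσ
  have hm2 := mertens_pow (show (0 : ℝ) < 1 / 2 by norm_num)
  have hr : ∀ᶠ g : ℕ in atTop, WW ⌊(g : ℝ) ^ (1 / 2 : ℝ)⌋₊ / WW ⌊(g : ℝ) ^ ((1 - κ) / 2)⌋₊ < 1 + 2 * κ := by
    have h1 := hm2.div hm1 (by positivity)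
    have h2 : E * (1 / 2) / (E * ((1 - κ) / 2)) < 1 + 2 * κ := by
      rw [mul_div_mul_left _ _ hE0.ne', div_lt_iff₀ hσ]
      nlinarith
    filter_upwards [h1.eventually (gt_mem_nhds h2), eventually_ge_atTop 2] with g hg hg2
    have hg1 : (1 : ℝ) < g := by exact_mod_cast hg2
    have hlog : Real.log g ≠ 0 := (Real.log_pos hg1).ne'
    rwa [Pi.div_apply, div_div_div_cancel_right₀ hlog] at hg
  have hw : ∀ᶠ g : ℕ in atTop, WW ⌊(g : ℝ) ^ ((1 - κ) / 2)⌋₊ / Real.log g < (E + κ) / 2 := by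
    refine hm1.eventually (gt_mem_nhds ?_)
    nlinarith
  -- large `g`
  have hlogg : ∀ᶠ g : ℕ in atTop, Real.log g ≤ κ * g := by
    have h1 := (Real.isLittleO_log_id_atTop.bound hκ0)
    filter_upwards [tendsto_natCast_atTop_atTop.eventually h1, eventually_ge_atTop 1] with g hg hg1
    have h2 : (1 : ℝ) ≤ g := by exact_mod_cast hg1
    rw [Real.norm_of_nonneg (Real.log_nonneg h2)] at hg
    simpa using hg
  have hsq : ∀ᶠ g : ℕ in atTop, max x0 2 ≤ (g : ℝ) ^ (1 / 2 : ℝ) :=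
    ((tendsto_rpow_atTop (show (0 : ℝ) < 1 / 2 by norm_num)).comp
      tendsto_natCast_atTop_atTop).eventually_ge_atTop _
  filter_upwards [hπ, hr, hw, hlogg, hsq, eventually_ge_atTop 2] with g h1 h2 h3 h4 h5 hg2
  have hg1 : (1 : ℝ) < g := by exact_mod_cast hg2
  have hg0 : (0 : ℝ) < g := by linarith
  have hlog : 0 < Real.log g := Real.log_pos hg1
  set y := ⌊(g : ℝ) ^ ((1 - κ) / 2)⌋₊ with hy
  set y' := ⌊(g : ℝ) ^ (1 / 2 : ℝ)⌋₊ with hy'
  have hsqrt : (g : ℝ) ^ (1 / 2 : ℝ) * (g : ℝ) ^ (1 / 2 : ℝ) = g := by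
    rw [← Real.rpow_add hg0]; norm_num
  have hs0 : 0 < (g : ℝ) ^ (1 / 2 : ℝ) := Real.rpow_pos_of_pos hg0 _
  have hyy : y ≤ y' := Nat.floor_le_floor
    (Real.rpow_le_rpow_of_exponent_le hg1.le (by linarith))
  have hcube : g < (y + 1) ^ 3 := by
    have h6 : (g : ℝ) ^ ((1 - κ) / 2) < y + 1 := Nat.lt_floor_add_one _
    have h7 : ((g : ℝ) ^ ((1 - κ) / 2)) ^ 3 < ((y : ℝ) + 1) ^ 3 :=
      pow_lt_pow_left₀ h6 (Real.rpow_nonneg hg0.le _) (by norm_num)
    have h8 : (g : ℝ) ≤ ((g : ℝ) ^ ((1 - κ) / 2)) ^ 3 := by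
      rw [← Real.rpow_natCast, ← Real.rpow_mul hg0.le]
      calc (g : ℝ) = (g : ℝ) ^ (1 : ℝ) := (Real.rpow_one _).symm
        _ ≤ _ := Real.rpow_le_rpow_of_exponent_le hg1.le (by push_cast; linarith)
    have h9 : (g : ℝ) < ((y : ℝ) + 1) ^ 3 := lt_of_le_of_lt h8 h7
    exact_mod_cast h9
  have hroot : ∀ p : ℕ, p * p ≤ g → p ≤ y' := by
    intro p hp
    apply Nat.le_floor
    by_contra hcon
    push Not at hcon
    have h6 : (g : ℝ) < (p : ℝ) * p := by
      rw [← hsqrt]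
      exact mul_lt_mul'' hcon hcon hs0.le hs0.le
    have h7 : (p : ℝ) * p ≤ g := by exact_mod_cast hp
    linarith
  have hcount' : ∀ S : Finset ℕ,
      (∀ h ∈ S, (1 ≤ h ∧ h ≤ g) ∧ ∀ p ∈ (Icc 1 y).filter Nat.Prime, ¬ p ∣ h) → (S.card : ℝ) ≤
      1 + Nat.primeCounting g + ∑ p ∈ (Ioc y y').filter Nat.Prime, (Nat.primeCounting (g / p) : ℝ) := by
    intro S hS
    exact_mod_cast count S g y y' hS hcube hroot
  -- the sum over `p`
  have hterm : ∀ p ∈ (Ioc y y').filter Nat.Prime,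
      (Nat.primeCounting (g / p) : ℝ) ≤ 4 * (g / Real.log g) * (p : ℝ)⁻¹ := by
    intro p hp
    rw [mem_filter, mem_Ioc] at hp
    have hp0 : (0 : ℝ) < p := by exact_mod_cast hp.2.pos
    have hps : (p : ℝ) ≤ (g : ℝ) ^ (1 / 2 : ℝ) := (Nat.le_floor_iff hs0.le).1 hp.1.2
    have hx : (g : ℝ) ^ (1 / 2 : ℝ) ≤ (g : ℝ) / p := by
      rw [le_div_iff₀ hp0]
      calc (g : ℝ) ^ (1 / 2 : ℝ) * p ≤ (g : ℝ) ^ (1 / 2 : ℝ) * (g : ℝ) ^ (1 / 2 : ℝ) := by gcongr
        _ = g := hsqrt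
    have h6 := hx0 ((g : ℝ) / p) ((le_max_left _ _).trans (h5.trans hx))
    have h7 : ⌊(g : ℝ) / p⌋₊ = g / p := Nat.floor_div_eq_div g p
    rw [h7] at h6
    have hx1 : 0 < (g : ℝ) / p := by positivity
    have h8 : Real.log g / 2 ≤ Real.log ((g : ℝ) / p) := by
      calc Real.log g / 2 = Real.log ((g : ℝ) ^ (1 / 2 : ℝ)) := by rw [Real.log_rpow hg0]; ring
        _ ≤ _ := Real.log_le_log hs0 hx
    rw [div_lt_iff₀ hx1] at h6
    have h9 : (Nat.primeCounting (g / p) : ℝ) * (Real.log g / 2) ≤ 2 * ((g : ℝ) / p) :=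
      (mul_le_mul_of_nonneg_left h8 (Nat.cast_nonneg _)).trans h6.le
    have h10 : 4 * (g / Real.log g) * (p : ℝ)⁻¹ = 2 * ((g : ℝ) / p) / (Real.log g / 2) := by
      field_simp
      ring
    rw [h10, le_div_iff₀ (by positivity)]
    exact h9
  have hsum : ∑ p ∈ (Ioc y y').filter Nat.Prime, (Nat.primeCounting (g / p) : ℝ) ≤
      4 * (g / Real.log g) * (2 * κ) := by
    refine (Finset.sum_le_sum hterm).trans ?_
    rw [← Finset.mul_sum]
    have h6 := sum_inv_le hyy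
    have h7 : ∑ p ∈ (Ioc y y').filter Nat.Prime, (p : ℝ)⁻¹ ≤ 2 * κ := by linarith
    gcongr
  have hπ' : (Nat.primeCounting g : ℝ) ≤ (1 + κ) * (g / Real.log g) := by
    rw [div_lt_iff₀ hg0] at h1
    rw [← mul_div_assoc, le_div_iff₀ hlog]
    exact h1.le
  have hone : (1 : ℝ) ≤ κ * (g / Real.log g) := by
    rw [← mul_div_assoc, le_div_iff₀ hlog]
    linarith
  have hA : ∀ S : Finset ℕ,
      (∀ h ∈ S, (1 ≤ h ∧ h ≤ g) ∧ ∀ p ∈ (Icc 1 y).filter Nat.Prime, ¬ p ∣ h) → (S.card : ℝ) ≤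
      (1 + 10 * κ) * (g / Real.log g) := by
    intro S hS
    refine (hcount' S hS).trans ?_
    have : (1 + 10 * κ) * ((g : ℝ) / Real.log g) =
        κ * (g / Real.log g) + (1 + κ) * (g / Real.log g) + 4 * (g / Real.log g) * (2 * κ) := by ring
    rw [this]
    linarith
  have hprod : ∏ p ∈ (Icc 1 y).filter Nat.Prime, (1 - (p : ℝ)⁻¹) = (WW y)⁻¹ := by
    unfold WW
    rw [Finset.prod_inv_distrib, inv_inv]
  rw [hprod]
  have hWy := WW_pos y
  rw [div_lt_iff₀ hlog] at h3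
  refine (hA _ fun h hh => ?_).trans ?_
  · rw [mem_filter, mem_Icc] at hh
    exact hh
  rw [← div_eq_mul_inv, le_div_iff₀ hWy]
  have h6 : (1 + 10 * κ) * ((g : ℝ) / Real.log g) * WW y ≤
      (1 + 10 * κ) * ((g : ℝ) / Real.log g) * ((E + κ) / 2 * Real.log g) := by
    apply mul_le_mul_of_nonneg_left h3.le
    positivity
  refine h6.trans ?_
  have h7 : (1 + 10 * κ) * ((g : ℝ) / Real.log g) * ((E + κ) / 2 * Real.log g) =
      (1 + 10 * κ) * ((E + κ) / 2) * g := by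
    field_simp
  rw [h7]
  apply mul_le_mul_of_nonneg_right _ hg0.le
  nlinarith

end Pool.Agent.J6H67.CG
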