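import Pool.Agent.J6H67.CG.Stm

set_option autoImplicit false

/-!
# Module TH1 of project CG: the empty set of primes
-/

namespace Pool.Agent.J6H67.CG

open MeasureTheory Filter Finset
open scoped Topology
open Pool.Agent.J6H39.RS

theorem one_le_XX {c : ℝ} (hc : 0 < c) (g : ℕ) : 1 ≤ XX c g := by
  unfold XX
  rw [Nat.one_le_floor_iff]
  exact Real.one_le_exp (by positivity)

theorem t_TH1 : S_TH1 := by
  intro z c hc η hη
  refine Eventually.of_forall fun g => ⟨∅, ?_, ?_, ?_⟩
  · intro p hp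
    exact absurd hp (Finset.notMem_empty p)
  · rw [Finset.prod_empty, Nat.cast_one]
    refine Real.one_le_rpow ?_ hη.le
    exact_mod_cast one_le_XX hc g
  · rw [Finset.prod_empty, mul_one]
    have h1 : (((Icc 1 g).filter (fun h => ∀ p ∈ (∅ : Finset ℕ), ¬ p ∣ h)).card : ℝ) ≤ g := by
      have h2 := Finset.card_filter_le (Icc 1 g) (fun h => ∀ p ∈ (∅ : Finset ℕ), ¬ p ∣ h)
      rw [Nat.card_Icc, Nat.add_sub_cancel] at h2
      exact_mod_cast h2
    have h3 : (0 : ℝ) ≤ η * g := by positivity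
    nlinarith

end Pool.Agent.J6H67.CG
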