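import Pool.Agent.J6H67.CG.Stm
import Pool.Agent.J6H39.RS.ARB

set_option autoImplicit false

/-!
# Project CG, module TH2: sieves `≥ (log n)^ε`
-/

namespace Pool.Agent.J6H67.CG

open MeasureTheory Filter Finset
open scoped Topology
open Pool.Agent.J6H39.RS Pool.Agent.J6H39.RS.ARBaux

theorem PP_prod_le (k : ℕ) (E : ℝ) (g : ℕ) :
    ((∏ p ∈ PP k E g, p : ℕ) : ℝ) ≤ Real.exp ((g : ℝ) ^ ((1 : ℝ) / k) * Real.log 4) := by
  have h1 : ∏ p ∈ PP k E g, p ≤ primorial ⌊(g : ℝ) ^ ((1 : ℝ) / k)⌋₊ := by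
    unfold primorial
    apply Finset.prod_le_prod_of_subset_of_one_le'
    · intro p hp
      unfold PP at hp
      rw [mem_filter, mem_Ioc] at hp
      rw [mem_filter, mem_range]
      exact ⟨by omega, hp.2⟩
    · intro p hp _
      rw [mem_filter] at hp
      exact hp.2.one_lt.le
  have h2 : ((∏ p ∈ PP k E g, p : ℕ) : ℝ) ≤ (4 : ℝ) ^ ⌊(g : ℝ) ^ ((1 : ℝ) / k)⌋₊ := by
    exact_mod_cast h1.trans (primorial_le_four_pow _)
  refine h2.trans ?_
  have h3 : (4 : ℝ) ^ ⌊(g : ℝ) ^ ((1 : ℝ) / k)⌋₊ =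
      Real.exp ((⌊(g : ℝ) ^ ((1 : ℝ) / k)⌋₊ : ℝ) * Real.log 4) := by
    rw [Real.exp_nat_mul, Real.exp_log (by norm_num)]
  rw [h3]
  apply Real.exp_le_exp.2
  exact mul_le_mul_of_nonneg_right (Nat.floor_le (Real.rpow_nonneg (Nat.cast_nonneg _) _))
    (Real.log_pos (by norm_num)).le

theorem t_TH2 (h : S_IRR) : S_TH2 := by
  intro ε hε
  obtain ⟨k0, hk0⟩ := exists_nat_gt (2 / ε)
  obtain ⟨k, hk⟩ : ∃ k, k = 2 * k0 + 1 := ⟨_, rfl⟩
  have hk0pos : 0 < k0 := by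
    have h1 : (0 : ℝ) < k0 := lt_trans (by positivity) hk0
    exact_mod_cast h1
  have hkodd : Odd k := ⟨k0, hk⟩
  have hk3 : 3 ≤ k := by omega
  have hkpos : 0 < k := by omega
  have hkr : (0 : ℝ) < k := by exact_mod_cast hkpos
  have hkr3 : (3 : ℝ) ≤ k := by exact_mod_cast hk3
  have hkε : 2 / (k : ℝ) < ε := by
    have h1 : (k0 : ℝ) ≤ k := by
      have : k0 ≤ k := by omega
      exact_mod_cast this
    rw [div_lt_iff₀ hkr]
    rw [div_lt_iff₀ hε] at hk0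
    nlinarith
  obtain ⟨δ, E, hδ, hδ1, hE, hE1, hI⟩ := h k hkodd
  refine ⟨δ / 2, by positivity, by linarith, ?_⟩
  intro z hzb c hc η hη
  have h2 : Tendsto (fun g : ℕ => √(g : ℝ)) atTop atTop :=
    Real.tendsto_sqrt_atTop.comp tendsto_natCast_atTop_atTop
  have hXt := XX_tendsto c hc
  obtain ⟨n0, hn0⟩ := eventually_atTop.1 hzb
  have hε' : (0 : ℝ) < 1 - 2 / k := by
    have : 2 / (k : ℝ) ≤ 2 / 3 := div_le_div_of_nonneg_left (by norm_num) (by norm_num) hkr3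
    linarith
  filter_upwards [hI, hXt.eventually_ge_atTop (2 * n0 + 4), evD c ε k hc hkε hkpos,
    h2.eventually (evA (1 - 2 / k) (η * c / 2) hε' (by positivity)),
    h2.eventually_ge_atTop (4 / c), h2.eventually_ge_atTop (2 / c), eventually_ge_atTop 1]
    with g gI gX gD gA g4 g2 g1
  obtain ⟨X, hX⟩ : ∃ X, X = XX c g := ⟨_, rfl⟩
  rw [← hX] at gX ⊢
  have hXr : (4 : ℝ) ≤ X := by
    have : 4 ≤ X := by omega
    exact_mod_cast this
  have hXpos : (0 : ℝ) < X := by linarith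
  have hlog2 : Real.log 2 ≤ 1 := by
    have := Real.log_two_lt_d9
    linarith
  have hlog4 : Real.log 4 ≤ 2 := by
    have : Real.log 4 = 2 * Real.log 2 := by
      rw [show (4 : ℝ) = 2 ^ 2 by norm_num, Real.log_pow]
      push_cast
      ring
    linarith
  obtain ⟨-, hL2⟩ := XX_log c g (by rw [← hX]; omega)
  rw [← hX] at hL2
  have hcs : 4 ≤ c * √(g : ℝ) := by
    rw [div_le_iff₀ hc] at g4
    linarith
  have hsq0 : 0 ≤ √(g : ℝ) := Real.sqrt_nonneg _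
  refine ⟨PP k E g, ?_, ?_, ?_⟩
  · intro p hp
    unfold PP at hp
    rw [mem_filter, mem_Ioc] at hp
    refine ⟨hp.2, ?_⟩
    have h1 : (X : ℝ) / 4 ≤ ((X / 2 : ℕ) : ℝ) := by
      have h3 : X ≤ 4 * (X / 2) := by omega
      have h4 : (X : ℝ) ≤ 4 * ((X / 2 : ℕ) : ℝ) := by exact_mod_cast h3
      linarith
    have h3 := Real.log_le_log (by linarith) h1
    rw [Real.log_div (by linarith) (by norm_num)] at h3
    have h4 : c * √(g : ℝ) / 4 ≤ Real.log ((X / 2 : ℕ) : ℝ) := by linarith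
    have h5 : (c * √(g : ℝ) / 4) ^ ε ≤ Real.log ((X / 2 : ℕ) : ℝ) ^ ε :=
      Real.rpow_le_rpow (by positivity) h4 hε.le
    have h6 := hn0 (X / 2) (by omega)
    have h7 : (g : ℝ) ^ ((1 : ℝ) / k) ≤ ((z (X / 2) : ℕ) : ℝ) := gD.trans (h5.trans h6)
    exact hp.1.2.trans (Nat.floor_le_of_le h7)
  · refine (PP_prod_le k E g).trans ?_
    rw [Real.rpow_def_of_pos hXpos]
    apply Real.exp_le_exp.2
    have hg0 : (0 : ℝ) ≤ g := Nat.cast_nonneg _
    have e1 : (g : ℝ) ^ ((1 : ℝ) / k) = √(g : ℝ) ^ (1 - (1 - 2 / (k : ℝ))) := by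
      have hgr : (g : ℝ) = √(g : ℝ) ^ (2 : ℝ) := by
        rw [Real.rpow_two, Real.sq_sqrt hg0]
      conv_lhs => rw [hgr]
      rw [← Real.rpow_mul hsq0]
      congr 1
      ring
    rw [e1]
    refine gA.trans ?_
    rw [div_le_iff₀ hc] at g2
    have h3 : c * √(g : ℝ) / 2 ≤ Real.log X := by linarith
    have h4 := mul_le_mul_of_nonneg_left h3 hη.le
    linarith
  · refine gI.trans ?_
    have h3 : (0 : ℝ) ≤ g * ∏ p ∈ PP k E g, (1 - (p : ℝ)⁻¹) := by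
      refine mul_nonneg (Nat.cast_nonneg _) (Finset.prod_nonneg fun p hp => ?_)
      unfold PP at hp
      rw [mem_filter] at hp
      exact (one_sub_inv_pos p hp.2).le
    have h4 : 1 - δ ≤ 1 - δ / 2 + η := by linarith
    have h5 := mul_le_mul_of_nonneg_right h4 h3
    rw [mul_assoc, mul_assoc]
    exact h5

end Pool.Agent.J6H67.CG
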