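import Pool.Agent.J6H67.CG.Stm2
import Pool.Agent.J6H39.RS.ARBof

set_option autoImplicit false

/-!
# Project CG, module TH4: sieves `≥ (log n) ^ (1 - o(1))`
-/

namespace Pool.Agent.J6H67.CG

open MeasureTheory Filter Finset
open scoped Topology
open Pool.Agent.J6H39.RS

namespace TH4aux

theorem prod_le (y : ℕ) : ((∏ p ∈ (Icc 1 y).filter Nat.Prime, p : ℕ) : ℝ) ≤ 4 ^ y := by
  have h1 : ∏ p ∈ (Icc 1 y).filter Nat.Prime, p = primorial y := by
    unfold primorial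
    refine Finset.prod_congr ?_ (fun _ _ => rfl)
    ext p
    simp only [mem_filter, mem_Icc, mem_range]
    constructor
    · rintro ⟨⟨h1, h2⟩, h3⟩
      exact ⟨by omega, h3⟩
    · rintro ⟨h1, h3⟩
      exact ⟨⟨h3.one_lt.le, by omega⟩, h3⟩
  rw [h1]
  exact_mod_cast primorial_le_four_pow y

theorem sqrt_pow (g : ℕ) (a : ℝ) : (g : ℝ) ^ (a / 2) = √(g : ℝ) ^ a := by
  rw [Real.sqrt_eq_rpow, ← Real.rpow_mul (Nat.cast_nonneg g)]
  congr 1
  ring

end TH4aux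

open TH4aux in
theorem t_TH4 (h : S_PN2) : S_TH4 := by
  intro z hz c hc η hη
  obtain ⟨κ, hκ0, hκ3, hκ⟩ := h η hη
  have hz2 := (half_tend hc).eventually (hz (κ / 2) (by positivity))
  have hlim1 : ∀ᶠ x : ℝ in atTop, ((c / 2) ^ (1 - κ / 2))⁻¹ ≤ x ^ (κ / 2) :=
    (tendsto_rpow_atTop (by positivity : 0 < κ / 2)).eventually_ge_atTop _
  have hlim2 : ∀ᶠ x : ℝ in atTop, Real.log 4 / (η * (c / 2)) ≤ x ^ κ :=
    (tendsto_rpow_atTop hκ0).eventually_ge_atTop _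
  filter_upwards [hκ, hz2, XX_half hc, sq_tend.eventually hlim1, sq_tend.eventually hlim2,
    sq_tend.eventually_gt_atTop 0, (half_tend hc).eventually_ge_atTop 1] with g h1 h2 h3 h4 h5 h6 h7
  refine ⟨(Icc 1 ⌊(g : ℝ) ^ ((1 - κ) / 2)⌋₊).filter Nat.Prime, ?_, ?_, h1⟩
  · intro p hp
    rw [mem_filter, mem_Icc] at hp
    refine ⟨hp.2, ?_⟩
    have hc2 : 0 < (c / 2) ^ (1 - κ / 2) := by positivity
    have e1 : (g : ℝ) ^ ((1 - κ) / 2) ≤ (z (XX c g / 2) : ℝ) := by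
      refine le_trans ?_ h2
      refine le_trans ?_ (Real.rpow_le_rpow (by positivity) h3 (by linarith))
      rw [sqrt_pow, Real.mul_rpow (by positivity) h6.le]
      have e2 : √(g : ℝ) ^ (1 - κ / 2) = √(g : ℝ) ^ (κ / 2) * √(g : ℝ) ^ (1 - κ) := by
        rw [← Real.rpow_add h6]
        congr 1
        ring
      rw [e2, ← mul_assoc]
      have e3 : 1 ≤ (c / 2) ^ (1 - κ / 2) * √(g : ℝ) ^ (κ / 2) := by
        calc (1 : ℝ) = (c / 2) ^ (1 - κ / 2) * ((c / 2) ^ (1 - κ / 2))⁻¹ :=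
              (mul_inv_cancel₀ hc2.ne').symm
          _ ≤ _ := mul_le_mul_of_nonneg_left h4 hc2.le
      calc √(g : ℝ) ^ (1 - κ) = 1 * √(g : ℝ) ^ (1 - κ) := (one_mul _).symm
        _ ≤ _ := mul_le_mul_of_nonneg_right e3 (by positivity)
    have e4 : (⌊(g : ℝ) ^ ((1 - κ) / 2)⌋₊ : ℝ) ≤ (z (XX c g / 2) : ℝ) :=
      (Nat.floor_le (by positivity)).trans e1
    have e5 : ⌊(g : ℝ) ^ ((1 - κ) / 2)⌋₊ ≤ z (XX c g / 2) := by exact_mod_cast e4
    exact hp.1.2.trans e5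
  · refine (prod_le _).trans ?_
    have hX1 : 1 ≤ XX c g / 2 := h7
    have hX : (0 : ℝ) < (XX c g : ℝ) := by
      have : 0 < XX c g := by omega
      exact_mod_cast this
    have hX2 : c / 2 * √(g : ℝ) ≤ Real.log (XX c g) := by
      refine h3.trans (Real.log_le_log (by exact_mod_cast hX1) ?_)
      exact_mod_cast Nat.div_le_self _ _
    have hlog4 : 0 < Real.log 4 := Real.log_pos (by norm_num)
    have e1 : ((4 : ℝ) ^ ⌊(g : ℝ) ^ ((1 - κ) / 2)⌋₊) =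
        Real.exp (Real.log 4 * (⌊(g : ℝ) ^ ((1 - κ) / 2)⌋₊ : ℝ)) := by
      rw [← Real.rpow_natCast, Real.rpow_def_of_pos (by norm_num)]
    rw [e1, Real.rpow_def_of_pos hX]
    apply Real.exp_le_exp.2
    calc Real.log 4 * (⌊(g : ℝ) ^ ((1 - κ) / 2)⌋₊ : ℝ) ≤ Real.log 4 * (g : ℝ) ^ ((1 - κ) / 2) :=
          mul_le_mul_of_nonneg_left (Nat.floor_le (by positivity)) hlog4.le
      _ = Real.log 4 * √(g : ℝ) ^ (1 - κ) := by rw [sqrt_pow]
      _ ≤ (√(g : ℝ) ^ κ * (η * (c / 2))) * √(g : ℝ) ^ (1 - κ) := by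
          refine mul_le_mul_of_nonneg_right ?_ (by positivity)
          rwa [div_le_iff₀ (by positivity)] at h5
      _ = (η * (c / 2)) * (√(g : ℝ) ^ κ * √(g : ℝ) ^ (1 - κ)) := by ring
      _ = (η * (c / 2)) * √(g : ℝ) := by
          rw [← Real.rpow_add h6]
          have : κ + (1 - κ) = 1 := by ring
          rw [this, Real.rpow_one]
      _ = (c / 2 * √(g : ℝ)) * η := by ring
      _ ≤ Real.log (XX c g) * η := mul_le_mul_of_nonneg_right hX2 hη.le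

end Pool.Agent.J6H67.CG
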