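import Pool.Agent.J6H39.RS.UPP
import Pool.Agent.J6H67.CG.Stm

set_option autoImplicit false

/-!
# Project CG, module UPG: all runs are short (sieves `≤ (log n)^b`)
-/

namespace Pool.Agent.J6H67.CG

open MeasureTheory Filter Finset
open scoped Topology
open Pool.Agent.J6H39.RS

namespace UPGaux

theorem sub_of_log {z : ℕ → ℕ} {b : ℝ} (hb : b ≤ 1)
    (hz : ∀ᶠ n : ℕ in atTop, (z n : ℝ) ≤ Real.log n ^ b) : Sub z := by
  intro δ hδ
  have hlog : Tendsto (fun n : ℕ => Real.log n) atTop atTop :=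
    Real.tendsto_log_atTop.comp tendsto_natCast_atTop_atTop
  have h1 : ∀ᶠ x : ℝ in atTop, ‖Real.log x‖ ≤ 1 * ‖x ^ δ‖ :=
    (isLittleO_log_rpow_atTop hδ).bound one_pos
  have h2 : ∀ᶠ n : ℕ in atTop, ‖Real.log n‖ ≤ 1 * ‖(n : ℝ) ^ δ‖ :=
    tendsto_natCast_atTop_atTop.eventually h1
  filter_upwards [hz, h2, hlog.eventually (eventually_ge_atTop (1 : ℝ))] with n hn hn2 hn3
  have h3 : Real.log n ^ b ≤ Real.log n := by
    calc Real.log n ^ b ≤ Real.log n ^ (1 : ℝ) := Real.rpow_le_rpow_of_exponent_le hn3 hb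
      _ = Real.log n := Real.rpow_one _
  rw [one_mul, Real.norm_of_nonneg (by linarith), Real.norm_of_nonneg (by positivity)] at hn2
  linarith

end UPGaux

open Pool.Agent.J6H39.RS.UPPaux UPGaux in
theorem t_UPG (h1 : S_ARG) (h2' : S_WSM) (h2 : S_PU) (h3 : S_RB) : S_UPG := by
  intro η0 hη0'
  set c : ℝ := 1 + η0 with hcdef
  have hc : 1 < c := by linarith
  obtain ⟨η, hη0, hη1, hα⟩ : ∃ η : ℝ, 0 < η ∧ η < 1 ∧ 1 < (1 - η) ^ 2 * c := by
    refine ⟨(c - 1) / (4 * c), div_pos (by linarith) (by linarith), ?_, ?_⟩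
    · rw [div_lt_one (by linarith)]
      linarith
    · have h4 : (c - 1) / (4 * c) * (4 * c) = c - 1 := div_mul_cancel₀ _ (by linarith)
      have h5 : 0 < (c - 1) / (4 * c) := div_pos (by linarith) (by linarith)
      nlinarith [mul_pos (mul_pos h5 h5) (by linarith : 0 < c)]
  obtain ⟨b, hb0, hb1, hARG⟩ := h1 η hη0
  refine ⟨b, hb0, ?_⟩
  intro Ω mΩ μ _ ℱ S z hM hz hsm
  have hlog : Tendsto (fun n : ℕ => Real.log n) atTop atTop :=
    Real.tendsto_log_atTop.comp tendsto_natCast_atTop_atTop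
  set α : ℝ := (1 - η) ^ 2 * c with hαdef
  set E : ℕ → Set Ω := fun n => {ω |
    (∀ m ∈ Ioc n (n + ⌊c * Real.log n ^ 2⌋₊), (1 - η) * w z m ≤ q μ ℱ S m ω) ∧
      ∀ m ∈ Ioc n (n + ⌊c * Real.log n ^ 2⌋₊), ω ∉ S m} with hE
  have hw1 : ∀ᶠ n : ℕ in atTop, ∀ m : ℕ, n ≤ m → w z m ≤ 1 :=
    eventually_forall_ge_atTop.mpr (h2' z (sub_of_log hb1 hsm) 1 one_pos)
  have hbound : ∀ᶠ n : ℕ in atTop, ‖μ.real (E n)‖ ≤ Real.exp 1 * (n : ℝ) ^ (-α) := by
    filter_upwards [hw1, hARG z hz hsm (c / 2) c (by linarith) (by linarith),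
      hlog.eventually (eventually_ge_atTop (2 : ℝ)), eventually_ge_atTop 2] with n hn1 hn2 hl hn
    have hn0 : (0 : ℝ) < n := by exact_mod_cast (by omega : 0 < n)
    set g : ℕ := ⌊c * Real.log n ^ 2⌋₊ with hg
    have hcl : 0 ≤ c * Real.log n ^ 2 := by positivity
    have hg1 : (g : ℝ) ≤ c * Real.log n ^ 2 := Nat.floor_le hcl
    have hg2 : c * Real.log n ^ 2 - 1 ≤ g := by
      have := Nat.lt_floor_add_one (c * Real.log n ^ 2)
      linarith
    have hA := hn2 g (by nlinarith) hg1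
    have hpu := h2 μ ℱ S hM.adapted (Ioc n (n + g)) (fun m => (1 - η) * w z m)
      (by simp) (by
        intro m hm
        rw [Finset.mem_Ioc] at hm
        have ha := w_nonneg z m
        have hb := hn1 m (by omega)
        constructor
        · exact mul_nonneg (by linarith) ha
        · nlinarith)
    rw [Real.norm_of_nonneg measureReal_nonneg]
    refine hpu.trans ?_
    have hprod : ∏ m ∈ Ioc n (n + g), (1 - (1 - η) * w z m) ≤
        Real.exp (-((1 - η) * ∑ m ∈ Ioc n (n + g), w z m)) := by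
      rw [Finset.mul_sum, ← Finset.sum_neg_distrib, Real.exp_sum]
      apply Finset.prod_le_prod
      · intro m hm
        rw [Finset.mem_Ioc] at hm
        have ha := w_nonneg z m
        have hb := hn1 m (by omega)
        nlinarith
      · intro m _
        exact Real.one_sub_le_exp_neg _
    refine hprod.trans ?_
    have e : Real.exp 1 * (n : ℝ) ^ (-α) = Real.exp (1 - α * Real.log n) := by
      rw [Real.rpow_def_of_pos hn0, ← Real.exp_add]
      congr 1
      ring
    rw [e]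
    apply Real.exp_le_exp.mpr
    have hL : 0 < Real.log n := by linarith
    have hgl : c * Real.log n - 1 / 2 ≤ g / Real.log n := by
      rw [le_div_iff₀ hL]
      nlinarith
    have hS2 : (1 - η) * ((1 - η) * (c * Real.log n - 1 / 2)) ≤
        (1 - η) * ∑ m ∈ Ioc n (n + g), w z m := by
      apply mul_le_mul_of_nonneg_left _ (by linarith)
      exact (mul_le_mul_of_nonneg_left hgl (by linarith)).trans hA
    have hS3 : (1 - η) * ((1 - η) * (c * Real.log n - 1 / 2)) = α * Real.log n - (1 - η) ^ 2 / 2 := by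
      rw [hαdef]
      ring
    rw [hS3] at hS2
    nlinarith
  have hsum : Summable (fun n : ℕ => μ.real (E n)) := by
    have hs : Summable (fun n : ℕ => Real.exp 1 * (n : ℝ) ^ (-α)) :=
      (Real.summable_nat_rpow.mpr (by linarith)).mul_left _
    exact Summable.of_norm_bounded_eventually_nat hs hbound
  have hBC : ∀ᵐ ω ∂μ, ∀ᶠ n in atTop, ω ∉ E n := by
    apply ae_eventually_notMem
    have e : ∀ n, μ (E n) = ENNReal.ofReal (μ.real (E n)) := by
      intro n
      rw [ofReal_measureReal]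
    simp_rw [e]
    exact hsum.tsum_ofReal_ne_top
  filter_upwards [hBC, h3 μ ℱ S z hM η hη0 hη1] with ω hω1 hω2
  have hω3 : ∀ᶠ n : ℕ in atTop, ∀ m : ℕ, n ≤ m → (1 - η) * w z m ≤ q μ ℱ S m ω ∧
      q μ ℱ S m ω ≤ (1 + η) * w z m := eventually_forall_ge_atTop.mpr hω2
  filter_upwards [hω1, hω3] with n hn1 hn2
  by_contra hcon
  push Not at hcon
  apply hn1
  refine ⟨?_, ?_⟩
  · intro m hm
    rw [Finset.mem_Ioc] at hm
    exact (hn2 m hm.1.le).1
  · intro m hm
    exact hcon m hm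

end Pool.Agent.J6H67.CG
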