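import Pool.Agent.J6H67.CG.Stm
import Pool.Agent.J6H13.UM.Def

/-! # Project CG (helper67), module WSM (helper42): the densities tend to zero -/

set_option autoImplicit false

namespace Pool.Agent.J6H67.CG

open MeasureTheory Filter Finset
open scoped Topology
open Pool.Agent.J6H39.RS

namespace WSMaux

lemma logN : Tendsto (fun n : ℕ => Real.log (n : ℝ)) atTop atTop :=
  Real.tendsto_log_atTop.comp tendsto_natCast_atTop_atTop

end WSMaux

open WSMaux in
/-- **WSM**: the densities tend to `0` for sieves `z(n) ≤ n^(o(1))` -/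
theorem t_WSM : S_WSM := by
  classical
  intro z hz ε hε
  obtain ⟨C₁, C₂, hC₁, hC₂, hW⟩ := Pool.Agent.J6H13.UM.W0_bound
  have hδ : 0 < ε / (2 * C₂) := by positivity
  filter_upwards [hz (ε / (2 * C₂)) hδ, logN.eventually_ge_atTop (2 * C₁ / ε),
    logN.eventually_ge_atTop 1, eventually_ge_atTop 1] with m h2 h3 h4 hm1
  have hL : 0 < Real.log (m : ℝ) := by linarith
  have hm0 : (0 : ℝ) < m := by exact_mod_cast hm1
  unfold w
  split_ifs with hr
  · rw [div_le_iff₀ hL]
    have h5 : W (z m) ≤ C₁ + C₂ * Real.log (z m) := hW (z m)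
    have h6 : Real.log (z m) ≤ ε / (2 * C₂) * Real.log m := by
      rcases Nat.eq_zero_or_pos (z m) with h7 | h7
      · rw [h7, Nat.cast_zero, Real.log_zero]
        positivity
      · rw [← Real.log_rpow hm0]
        exact Real.log_le_log (by exact_mod_cast h7) h2
    have h7 : C₂ * Real.log (z m) ≤ C₂ * (ε / (2 * C₂) * Real.log m) :=
      mul_le_mul_of_nonneg_left h6 hC₂.le
    have h8 : C₂ * (ε / (2 * C₂) * Real.log m) = ε * Real.log m / 2 := by field_simp
    have h9 : C₁ ≤ ε * Real.log m / 2 := by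
      rw [div_le_iff₀ hε] at h3
      linarith
    linarith
  · exact hε.le

end Pool.Agent.J6H67.CG
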