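import Pool.Agent.J6H67.CG.MAIN
import Pool.Agent.J6H67.CG.FLP
import Pool.Agent.J6H67.CG.BLK
import Pool.Agent.J6H67.CG.MNY
import Pool.Agent.J6H67.CG.TH1
import Pool.Agent.J6H67.CG.TH2
import Pool.Agent.J6H67.CG.PN2
import Pool.Agent.J6H67.CG.TH4
import Pool.Agent.J6H67.CG.WSM
import Pool.Agent.J6H67.CG.LWG
import Pool.Agent.J6H67.CG.CRG
import Pool.Agent.J6H67.CG.ARG
import Pool.Agent.J6H67.CG.UPG
import Pool.Agent.J6H67.CG.DLO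
import Pool.Agent.J6H67.CG.DLS
import Pool.Agent.J6H67.CG.DUP
import Pool.Agent.J6H39.RS.FLI
import Pool.Agent.J6H39.RS.PL
import Pool.Agent.J6H39.RS.PU
import Pool.Agent.J6H39.RS.RB
import Pool.Agent.J6H39.RS.IRR

set_option autoImplicit false

/-! # Project CG (helper67): the final theorem for the definitions of the project -/

namespace Pool.Agent.J6H67.CG

open MeasureTheory Filter Finset
open scoped Topology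
open Pool.Agent.J6H39.RS

/-- The parts (2) - (5) of the theorem. -/
theorem parts :
    (∀ z : ℕ → ℕ, Monotone z → Sub z →
      ∀ {Ω : Type} [mΩ : MeasurableSpace Ω] (μ : Measure Ω) [IsProbabilityMeasure μ]
        (ℱ : Filtration ℕ mΩ) (S : ℕ → Set Ω), IsModel μ ℱ S z →
        ∀ᵐ ω ∂μ, 1 ≤ Ginf {k | ω ∈ S k} ∧ Ginf {k | ω ∈ S k} ≤ Lsup {k | ω ∈ S k}) ∧
    (∀ ε : ℝ, 0 < ε → ∃ δ : ℝ, 0 < δ ∧ ∀ z : ℕ → ℕ, Monotone z → Sub z →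
      (∀ᶠ n : ℕ in atTop, Real.log n ^ ε ≤ (z n : ℝ)) →
      ∀ {Ω : Type} [mΩ : MeasurableSpace Ω] (μ : Measure Ω) [IsProbabilityMeasure μ]
        (ℱ : Filtration ℕ mΩ) (S : ℕ → Set Ω), IsModel μ ℱ S z →
        ∀ᵐ ω ∂μ, ((1 + δ : ℝ) : EReal) ≤ Ginf {k | ω ∈ S k}) ∧
    (∀ z : ℕ → ℕ, Monotone z → Sub z →
      (∀ κ : ℝ, 0 < κ → ∀ᶠ n : ℕ in atTop, Real.log n ^ (1 - κ) ≤ (z n : ℝ)) →
      ∀ {Ω : Type} [mΩ : MeasurableSpace Ω] (μ : Measure Ω) [IsProbabilityMeasure μ]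
        (ℱ : Filtration ℕ mΩ) (S : ℕ → Set Ω), IsModel μ ℱ S z →
        ∀ᵐ ω ∂μ, ((2 * Real.exp (-Real.eulerMascheroniConstant) : ℝ) : EReal) ≤ Ginf {k | ω ∈ S k}) ∧
    (∀ η : ℝ, 0 < η → ∃ b : ℝ, 0 < b ∧ ∀ z : ℕ → ℕ, Monotone z →
      (∀ᶠ n : ℕ in atTop, (z n : ℝ) ≤ Real.log n ^ b) →
      ∀ {Ω : Type} [mΩ : MeasurableSpace Ω] (μ : Measure Ω) [IsProbabilityMeasure μ]
        (ℱ : Filtration ℕ mΩ) (S : ℕ → Set Ω), IsModel μ ℱ S z →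
        ∀ᵐ ω ∂μ, Lsup {k | ω ∈ S k} ≤ ((1 + η : ℝ) : EReal) ∧ Gsup {k | ω ∈ S k} ≤ ((1 + η : ℝ) : EReal)) := by
  have hFLI : Pool.Agent.J6H39.RS.S_FLI := Pool.Agent.J6H39.RS.t_FLI
  have hPL : Pool.Agent.J6H39.RS.S_PL := Pool.Agent.J6H39.RS.t_PL
  have hPU : Pool.Agent.J6H39.RS.S_PU := Pool.Agent.J6H39.RS.t_PU
  have hRB : Pool.Agent.J6H39.RS.S_RB := Pool.Agent.J6H39.RS.t_RB
  have hWSM : Pool.Agent.J6H67.CG.S_WSM := Pool.Agent.J6H67.CG.t_WSM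
  have hLWG : Pool.Agent.J6H67.CG.S_LWG := Pool.Agent.J6H67.CG.t_LWG hPL hRB
  have hCRG : Pool.Agent.J6H67.CG.S_CRG := Pool.Agent.J6H67.CG.t_CRG hFLI hPU hRB hWSM
  have hMNY : Pool.Agent.J6H67.CG.S_MNY := Pool.Agent.J6H67.CG.t_MNY (Pool.Agent.J6H67.CG.t_BLK Pool.Agent.J6H67.CG.t_FLP)
  have hTH1 : Pool.Agent.J6H67.CG.S_TH1 := Pool.Agent.J6H67.CG.t_TH1
  have hTH2 : Pool.Agent.J6H67.CG.S_TH2 := Pool.Agent.J6H67.CG.t_TH2 Pool.Agent.J6H39.RS.t_IRR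
  have hTH4 : Pool.Agent.J6H67.CG.S_TH4 := Pool.Agent.J6H67.CG.t_TH4 Pool.Agent.J6H67.CG.t_PN2
  have hUPG : Pool.Agent.J6H67.CG.S_UPG := Pool.Agent.J6H67.CG.t_UPG (Pool.Agent.J6H67.CG.t_ARG hFLI) hWSM hPU hRB
  have hDLO : Pool.Agent.J6H67.CG.S_DLO := Pool.Agent.J6H67.CG.t_DLO
  have hDLS : Pool.Agent.J6H67.CG.S_DLS := Pool.Agent.J6H67.CG.t_DLS
  have hDUP : Pool.Agent.J6H67.CG.S_DUP := Pool.Agent.J6H67.CG.t_DUP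
  refine ⟨?_, ?_, ?_, ?_⟩
  · intro z hz hs Ω mΩ μ _ ℱ S hM
    have hM' := hM
    filter_upwards [Pool.Agent.J6H67.CG.lowlim hLWG hCRG hWSM hMNY hDLO hz hs μ ℱ S hM' one_pos one_le_two
      (fun c hc => hTH1 z c hc), hCRG μ ℱ S z hM' hz hs] with ω h1 h2
    refine ⟨?_, hDLS _ (Pool.Agent.J6H67.CG.infinite_of h2)⟩
    have h3 : (1 : EReal) ≤ Pool.Agent.J6H67.CG.Ginf {k | ω ∈ S k} := by simpa using h1
    exact h3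
  · intro ε hε
    obtain ⟨δ, hδ0, hδ1, hδ⟩ := hTH2 ε hε
    refine ⟨δ, hδ0, ?_⟩
    intro z hz hs hzl Ω mΩ μ _ ℱ S hM
    have hM' := hM
    filter_upwards [Pool.Agent.J6H67.CG.lowlim hLWG hCRG hWSM hMNY hDLO hz hs μ ℱ S hM' (κ := 1 - δ)
      (by linarith) (by linarith) (fun c hc => hδ z hzl c hc)] with ω h1
    refine le_trans ?_ h1
    rw [EReal.coe_le_coe_iff, le_div_iff₀ (by linarith)]
    nlinarith
  · rintro z hz hs hzl Ω mΩ μ _ ℱ S hM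
    have hM' := hM
    filter_upwards [Pool.Agent.J6H67.CG.lowlim hLWG hCRG hWSM hMNY hDLO hz hs μ ℱ S hM'
      (κ := Real.exp Real.eulerMascheroniConstant / 2) (by positivity) Pool.Agent.J6H67.CG.gamma_le
      (fun c hc => hTH4 z hzl c hc)] with ω h1
    refine le_trans (le_of_eq ?_) h1
    congr 1
    rw [Real.exp_neg]
    have := Real.exp_pos Real.eulerMascheroniConstant
    field_simp
  · intro η hη
    obtain ⟨b, hb, h⟩ := hUPG η hη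
    refine ⟨b, hb, ?_⟩
    intro z hz hzl Ω mΩ μ _ ℱ S hM
    have hM' := hM
    filter_upwards [h μ ℱ S z hM' hz hzl] with ω h1
    exact hDUP {k | ω ∈ S k} (1 + η) (by linarith) h1

/-- a sieve `≤ (log n)^(o(1))` is `≤ n^(o(1))` -/
lemma sub_of_small {z : ℕ → ℕ} (hz : ∀ δ : ℝ, 0 < δ → ∀ᶠ n : ℕ in atTop, (z n : ℝ) ≤ Real.log n ^ δ) : Sub z := by
  intro δ hδ
  have h1 := (isLittleO_log_rpow_atTop hδ).comp_tendsto (tendsto_natCast_atTop_atTop (R := ℝ))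
  have h2 := h1.bound one_pos
  filter_upwards [hz 1 one_pos, h2] with n h3 h4
  rw [Real.rpow_one] at h3
  simp only [Function.comp, one_mul, Real.norm_eq_abs] at h4
  rw [abs_of_nonneg (Real.rpow_nonneg (Nat.cast_nonneg n) δ)] at h4
  exact h3.trans ((le_abs_self _).trans h4)

theorem fin :
    (∀ z : ℕ → ℕ, Monotone z → (∀ δ : ℝ, 0 < δ → ∀ᶠ n : ℕ in atTop, (z n : ℝ) ≤ Real.log n ^ δ) →
      ∀ {Ω : Type} [mΩ : MeasurableSpace Ω] (μ : Measure Ω) [IsProbabilityMeasure μ]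
        (ℱ : Filtration ℕ mΩ) (S : ℕ → Set Ω), IsModel μ ℱ S z →
        ∀ᵐ ω ∂μ, Lsup {k | ω ∈ S k} = 1 ∧ Ginf {k | ω ∈ S k} = 1 ∧ Gsup {k | ω ∈ S k} = 1) ∧
    (∀ z : ℕ → ℕ, Monotone z → Sub z →
      ∀ {Ω : Type} [mΩ : MeasurableSpace Ω] (μ : Measure Ω) [IsProbabilityMeasure μ]
        (ℱ : Filtration ℕ mΩ) (S : ℕ → Set Ω), IsModel μ ℱ S z →
        ∀ᵐ ω ∂μ, 1 ≤ Ginf {k | ω ∈ S k} ∧ Ginf {k | ω ∈ S k} ≤ Lsup {k | ω ∈ S k}) ∧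
    (∀ ε : ℝ, 0 < ε → ∃ δ : ℝ, 0 < δ ∧ ∀ z : ℕ → ℕ, Monotone z → Sub z →
      (∀ᶠ n : ℕ in atTop, Real.log n ^ ε ≤ (z n : ℝ)) →
      ∀ {Ω : Type} [mΩ : MeasurableSpace Ω] (μ : Measure Ω) [IsProbabilityMeasure μ]
        (ℱ : Filtration ℕ mΩ) (S : ℕ → Set Ω), IsModel μ ℱ S z →
        ∀ᵐ ω ∂μ, ((1 + δ : ℝ) : EReal) ≤ Ginf {k | ω ∈ S k}) ∧
    (∀ z : ℕ → ℕ, Monotone z → Sub z →
      (∀ κ : ℝ, 0 < κ → ∀ᶠ n : ℕ in atTop, Real.log n ^ (1 - κ) ≤ (z n : ℝ)) →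
      ∀ {Ω : Type} [mΩ : MeasurableSpace Ω] (μ : Measure Ω) [IsProbabilityMeasure μ]
        (ℱ : Filtration ℕ mΩ) (S : ℕ → Set Ω), IsModel μ ℱ S z →
        ∀ᵐ ω ∂μ, ((2 * Real.exp (-Real.eulerMascheroniConstant) : ℝ) : EReal) ≤ Ginf {k | ω ∈ S k}) ∧
    (∀ η : ℝ, 0 < η → ∃ b : ℝ, 0 < b ∧ ∀ z : ℕ → ℕ, Monotone z →
      (∀ᶠ n : ℕ in atTop, (z n : ℝ) ≤ Real.log n ^ b) →
      ∀ {Ω : Type} [mΩ : MeasurableSpace Ω] (μ : Measure Ω) [IsProbabilityMeasure μ]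
        (ℱ : Filtration ℕ mΩ) (S : ℕ → Set Ω), IsModel μ ℱ S z →
        ∀ᵐ ω ∂μ, Lsup {k | ω ∈ S k} ≤ ((1 + η : ℝ) : EReal) ∧ Gsup {k | ω ∈ S k} ≤ ((1 + η : ℝ) : EReal)) := by
  obtain ⟨h1, h2, h3, h4⟩ := parts
  refine ⟨?_, h1, h2, h3, h4⟩
  intro z hz hzs Ω mΩ μ _ ℱ S hM
  have h5 : ∀ k : ℕ, ∀ᵐ ω ∂μ, Lsup {k | ω ∈ S k} ≤ ((1 + 1 / ((k : ℝ) + 1) : ℝ) : EReal) ∧
      Gsup {k | ω ∈ S k} ≤ ((1 + 1 / ((k : ℝ) + 1) : ℝ) : EReal) := by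
    intro k
    obtain ⟨b, hb, h⟩ := h4 (1 / ((k : ℝ) + 1)) (by positivity)
    exact h z hz (hzs b hb) μ ℱ S hM
  have hlim : Tendsto (fun k : ℕ => ((1 + 1 / ((k : ℝ) + 1) : ℝ) : EReal)) atTop (𝓝 1) := by
    have h6 : Tendsto (fun k : ℕ => (1 : ℝ) + 1 / ((k : ℝ) + 1)) atTop (𝓝 (1 + 0)) :=
      tendsto_one_div_add_atTop_nhds_zero_nat.const_add 1
    rw [add_zero] at h6
    exact (continuous_coe_real_ereal.tendsto 1).comp h6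
  filter_upwards [h1 z hz (sub_of_small hzs) μ ℱ S hM, ae_all_iff.2 h5] with ω g1 g2
  have g3 : Lsup {k | ω ∈ S k} ≤ 1 := ge_of_tendsto hlim (Eventually.of_forall fun k => (g2 k).1)
  have g4 : Gsup {k | ω ∈ S k} ≤ 1 := ge_of_tendsto hlim (Eventually.of_forall fun k => (g2 k).2)
  have g5 : Ginf {k | ω ∈ S k} ≤ Gsup {k | ω ∈ S k} := liminf_le_limsup
  exact ⟨le_antisymm g3 (g1.1.trans g1.2), le_antisymm (g5.trans g4) g1.1, le_antisymm g4 (g1.1.trans g5)⟩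


end Pool.Agent.J6H67.CG
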