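import Pool.Agent.J6H67.CG.Stm
import Pool.Agent.J6H67.CG.DUP
import Pool.Agent.J6H39.RS.UPP

set_option autoImplicit false

/-!
# Project CG: sieves which are `≤ (log n)^b` infinitely often: `liminf G(x)/log² x ≤ 1 + η`
-/

namespace Pool.Agent.J6H67.CG

open MeasureTheory Filter Finset
open scoped Topology
open Pool.Agent.J6H39.RS

namespace UPFaux

open Pool.Agent.J6H39.RS.ARAaux Pool.Agent.J6H39.RS.UPPaux

open Classical in
/-- the mean density, uniform -/
theorem dens (δ : ℝ) (C : ℕ)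
    (hC : ∀ z a L : ℕ, |(rgh z a L : ℝ) - L / W z| ≤ δ * (L / W z) + C * ((z : ℝ) + 1) ^ C)
    (z : ℕ → ℕ) (hz : Monotone z) (n g M : ℕ) (hn : 1 ≤ n) (hM : n + g ≤ M) (hM2 : 2 ≤ M) :
    ((1 - δ) * g - C * ((z M : ℝ) + 1) ^ (C + 2)) / Real.log M ≤ ∑ m ∈ Ioc n (n + g), w z m := by
  have hF := F_bound δ C hC z hz n g
  set F : ℝ := ∑ m ∈ Ioc n (n + g), (if Rough z m then W (z m) else 0) with hFdef
  have hlM : 0 < Real.log M := Real.log_pos (by exact_mod_cast (by omega : 1 < M))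
  have hlow : F / Real.log M ≤ ∑ m ∈ Ioc n (n + g), w z m := by
    rw [hFdef, Finset.sum_div]
    apply Finset.sum_le_sum
    intro m hm
    rw [Finset.mem_Ioc] at hm
    unfold w
    split_ifs with hr
    · have hm0 : (0 : ℝ) < m := by exact_mod_cast (by omega : 0 < m)
      have hm1 : 0 < Real.log m := by
        apply Real.log_pos
        exact_mod_cast (by omega : 1 < m)
      apply div_le_div_of_nonneg_left (W_pos _).le hm1
      apply Real.log_le_log hm0
      exact_mod_cast (by omega : m ≤ M)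
    · simp
  refine le_trans ?_ hlow
  apply div_le_div_of_nonneg_right _ hlM.le
  have h1 : ((z (n + g) : ℝ) + 1) ^ (C + 2) ≤ ((z M : ℝ) + 1) ^ (C + 2) := by
    apply pow_le_pow_left₀ (by positivity)
    have : z (n + g) ≤ z M := hz hM
    have : (z (n + g) : ℝ) ≤ z M := by exact_mod_cast this
    linarith
  have h2 := mul_le_mul_of_nonneg_left h1 (Nat.cast_nonneg (α := ℝ) C)
  have h3 := (abs_le.mp hF).1
  linarith

/-- `c Λ²`, rounded -/
noncomputable def gk (c : ℝ) (k : ℕ) : ℕ := ⌊c * ((k : ℝ) * Real.log 2) ^ 2⌋₊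

theorem log_two_pow (k : ℕ) : Real.log ((2 ^ k : ℕ) : ℝ) = k * Real.log 2 := by
  push_cast
  rw [Real.log_pow]

theorem kt : Tendsto (fun k : ℕ => (k : ℝ) * Real.log 2) atTop atTop :=
  tendsto_natCast_atTop_atTop.atTop_mul_const (Real.log_pos (by norm_num))

theorem ev_small (c : ℝ) : ∀ᶠ k : ℕ in atTop, k + gk c k ≤ 2 ^ (k - 1) := by
  have h1 := tendsto_pow_const_div_const_pow_of_one_lt 2 (show (1 : ℝ) < 2 by norm_num)
  have h2 : ∀ᶠ k : ℕ in atTop, (k : ℝ) ^ 2 / 2 ^ k < 1 / (2 * (|c| + 1)) :=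
    h1.eventually (gt_mem_nhds (by positivity))
  filter_upwards [h2, eventually_ge_atTop 1] with k hk hk1
  have h3 : (0 : ℝ) < 2 ^ k := by positivity
  rw [div_lt_iff₀ h3, div_mul_eq_mul_div, lt_div_iff₀ (by positivity)] at hk
  have hk1' : (1 : ℝ) ≤ k := by exact_mod_cast hk1
  have h4 : (gk c k : ℝ) ≤ |c| * (k : ℝ) ^ 2 := by
    have hl1 : Real.log 2 ≤ 1 := by
      have := Real.log_two_lt_d9
      linarith
    have hl0 : 0 ≤ Real.log 2 := (Real.log_pos (by norm_num)).le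
    have h5 : ((k : ℝ) * Real.log 2) ^ 2 ≤ (k : ℝ) ^ 2 := by
      apply pow_le_pow_left₀ (by positivity)
      nlinarith
    have h6 : c * ((k : ℝ) * Real.log 2) ^ 2 ≤ |c| * (k : ℝ) ^ 2 := by
      calc c * ((k : ℝ) * Real.log 2) ^ 2 ≤ |c| * ((k : ℝ) * Real.log 2) ^ 2 :=
            mul_le_mul_of_nonneg_right (le_abs_self c) (by positivity)
        _ ≤ |c| * (k : ℝ) ^ 2 := mul_le_mul_of_nonneg_left h5 (abs_nonneg c)
    unfold gk
    rcases le_or_gt 0 (c * ((k : ℝ) * Real.log 2) ^ 2) with h7 | h7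
    · exact (Nat.floor_le h7).trans h6
    · rw [Nat.floor_of_nonpos h7.le]
      simp only [Nat.cast_zero]
      positivity
  have h5 : ((2 ^ (k - 1) : ℕ) : ℝ) * 2 = 2 ^ k := by
    have h6 : 2 ^ (k - 1) * 2 = 2 ^ k := by
      rw [← pow_succ]
      congr 1
      omega
    exact_mod_cast h6
  have h6 : ((k + gk c k : ℕ) : ℝ) ≤ ((2 ^ (k - 1) : ℕ) : ℝ) := by
    push_cast
    push_cast at h5
    have h7 : (k : ℝ) ≤ (k : ℝ) ^ 2 := by nlinarith
    nlinarith
  exact_mod_cast h6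

/-- the deterministic part -/
theorem det_up (T : Set ℕ) (c c' : ℝ) (hc : 0 < c) (hcc : c < c')
    (h : ∃ᶠ k : ℕ in atTop, ∀ n, k ≤ n → n + gk c k ≤ 2 ^ k → ∃ m ∈ Ioc n (n + gk c k), m ∈ T) :
    Ginf T ≤ (c' : EReal) := by
  classical
  have hl0 : 0 < Real.log 2 := Real.log_pos (by norm_num)
  obtain ⟨l2, hl2⟩ : ∃ l2, l2 = Real.log 2 := ⟨_, rfl⟩
  have hev : ∀ᶠ k : ℕ in atTop, (2 * c' * l2 ^ 2 + 1) / ((c' - c) * l2 ^ 2) ≤ (k : ℝ) :=
    tendsto_natCast_atTop_atTop.eventually_ge_atTop _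
  have htend : Tendsto (fun k : ℕ => 2 ^ (k - 1)) atTop atTop :=
    (tendsto_pow_atTop_atTop_of_one_lt (by norm_num : 1 < 2)).comp (tendsto_sub_atTop_nat 1)
  unfold Ginf
  refine liminf_le_of_frequently_le ?_ (by isBoundedDefault)
  refine htend.frequently ?_
  refine (h.and_eventually (hev.and ((ev_small c).and (eventually_ge_atTop 2)))).mono ?_
  rintro k ⟨h1, h2, h3, hk2⟩
  have hpow : 2 ^ (k - 1) + 2 ^ (k - 1) = 2 ^ k := by
    rw [← two_mul, ← pow_succ']
    congr 1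
    omega
  have hG : maxGap T (2 ^ (k - 1)) ≤ gk c k + k := by
    unfold maxGap
    refine Finset.sup_le fun n hn => ?_
    have hn' := Finset.mem_range.1 (Finset.mem_filter.1 hn).1
    by_cases hnk : n < k
    · obtain ⟨m, hm, hmT⟩ := h1 k le_rfl (by omega)
      rw [mem_Ioc] at hm
      exact gap_le_of ⟨m, mem_Ioc.2 ⟨by omega, by omega⟩, hmT⟩
    · rw [not_lt] at hnk
      obtain ⟨m, hm, hmT⟩ := h1 n hnk (by omega)
      rw [mem_Ioc] at hm
      exact gap_le_of ⟨m, mem_Ioc.2 ⟨by omega, by omega⟩, hmT⟩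
  have hk2' : (2 : ℝ) ≤ k := by exact_mod_cast hk2
  have hlx : Real.log ((2 ^ (k - 1) : ℕ) : ℝ) = ((k : ℝ) - 1) * l2 := by
    rw [log_two_pow, hl2, Nat.cast_sub (by omega), Nat.cast_one]
  have hl2' : 0 < l2 := by rw [hl2]; exact hl0
  have hpos : 0 < ((k : ℝ) - 1) * l2 := mul_pos (by linarith) hl2'
  rw [EReal.coe_le_coe_iff, hlx, div_le_iff₀ (by positivity)]
  have h4 : (maxGap T (2 ^ (k - 1)) : ℝ) ≤ gk c k + k := by exact_mod_cast hG
  have h5 : (gk c k : ℝ) ≤ c * ((k : ℝ) * l2) ^ 2 := by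
    unfold gk
    rw [← hl2]
    exact Nat.floor_le (by positivity)
  rw [div_le_iff₀ (mul_pos (by linarith) (by positivity))] at h2
  have h6 : (2 * c' * l2 ^ 2 + 1) * k ≤ (k * ((c' - c) * l2 ^ 2)) * k :=
    mul_le_mul_of_nonneg_right h2 (by linarith)
  have hc' : 0 < c' := by linarith
  have h7 : 0 ≤ c' * l2 ^ 2 := by positivity
  nlinarith

end UPFaux

open Pool.Agent.J6H39.RS.ARAaux Pool.Agent.J6H39.RS.UPPaux UPFaux in
/-- sieves which are `≤ (log n)^b` infinitely often -/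
theorem t_UPF (h1 : S_FLI) (h2' : S_WSM) (h2 : S_PU) (h3 : S_RB) :
    ∀ η : ℝ, 0 < η → ∃ b : ℝ, 0 < b ∧ ∀ z : ℕ → ℕ, Monotone z → Sub z →
      (∃ᶠ n : ℕ in atTop, (z n : ℝ) ≤ Real.log n ^ b) →
      ∀ {Ω : Type} [mΩ : MeasurableSpace Ω] (μ : Measure Ω) [IsProbabilityMeasure μ]
        (ℱ : Filtration ℕ mΩ) (S : ℕ → Set Ω), IsModel μ ℱ S z →
        ∀ᵐ ω ∂μ, Ginf {k | ω ∈ S k} ≤ ((1 + η : ℝ) : EReal) := by
  intro η0 hη0'
  obtain ⟨c, hcdef⟩ : ∃ c : ℝ, c = 1 + η0 / 2 := ⟨_, rfl⟩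
  have hc : 1 < c := by linarith
  obtain ⟨η, hη0, hη1, hα⟩ : ∃ η : ℝ, 0 < η ∧ η < 1 ∧ 1 < (1 - η) ^ 2 * c := by
    refine ⟨(c - 1) / (4 * c), div_pos (by linarith) (by linarith), ?_, ?_⟩
    · rw [div_lt_one (by linarith)]
      linarith
    · have h4 : (c - 1) / (4 * c) * (4 * c) = c - 1 := div_mul_cancel₀ _ (by linarith)
      have h5 : 0 < (c - 1) / (4 * c) := div_pos (by linarith) (by linarith)
      nlinarith [mul_pos (mul_pos h5 h5) (by linarith : 0 < c)]
  obtain ⟨C, hC⟩ := h1 (η / 2) (by positivity)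
  obtain ⟨b, hb⟩ : ∃ b : ℝ, b = ((C + 2 : ℕ) : ℝ)⁻¹ := ⟨_, rfl⟩
  have hb0 : 0 < b := by rw [hb]; positivity
  refine ⟨b / 2, by positivity, ?_⟩
  intro z hz hs hfr Ω mΩ μ _ ℱ S hM
  set α : ℝ := (1 - η) ^ 2 * c with hαdef
  have hl20 : 0 < Real.log 2 := Real.log_pos (by norm_num)
  set E : ℕ → Set Ω := fun k => {ω | ((z (2 ^ k) : ℝ) ≤ ((k : ℝ) * Real.log 2) ^ b) ∧
    ∃ n : ℕ, k ≤ n ∧ n + gk c k ≤ 2 ^ k ∧
      (∀ m ∈ Ioc n (n + gk c k), (1 - η) * w z m ≤ q μ ℱ S m ω) ∧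
      ∀ m ∈ Ioc n (n + gk c k), ω ∉ S m} with hE
  have hw1 : ∀ᶠ n : ℕ in atTop, ∀ m : ℕ, n ≤ m → w z m ≤ 1 :=
    eventually_forall_ge_atTop.mpr (h2' z hs 1 one_pos)
  have hbound : ∀ᶠ k : ℕ in atTop, ‖μ.real (E k)‖ ≤
      Real.exp 1 * (Real.exp (-((α - 1) * Real.log 2))) ^ k := by
    filter_upwards [hw1, kt.eventually_ge_atTop (2 : ℝ), kt.eventually_ge_atTop
      ((C * 2 ^ (C + 2) + 1) / (η / 2)), eventually_ge_atTop 1] with k hk1 hk2 hk3 hk4
    obtain ⟨Λ, hΛ⟩ : ∃ Λ : ℝ, Λ = (k : ℝ) * Real.log 2 := ⟨_, rfl⟩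
    rw [← hΛ] at hk2 hk3
    rw [Real.norm_of_nonneg measureReal_nonneg]
    by_cases hB : (z (2 ^ k) : ℝ) ≤ ((k : ℝ) * Real.log 2) ^ b
    · set g : ℕ := gk c k with hg
      have hcl : 0 ≤ c * Λ ^ 2 := by positivity
      have hg2 : c * Λ ^ 2 - 1 ≤ g := by
        have := Nat.lt_floor_add_one (c * Λ ^ 2)
        rw [hg]
        unfold gk
        rw [← hΛ]
        linarith
      have hg1 : (1 : ℝ) ≤ g := by nlinarith
      have hΛ1 : 1 ≤ Λ := by linarith
      have hZ : (C : ℝ) * ((z (2 ^ k) : ℝ) + 1) ^ (C + 2) ≤ η / 2 * g := by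
        rw [← hΛ] at hB
        have h4 : (1 : ℝ) ≤ Λ ^ b := Real.one_le_rpow hΛ1 hb0.le
        have h5 : ((z (2 ^ k) : ℝ) + 1) ^ (C + 2) ≤ (2 * Λ ^ b) ^ (C + 2) := by
          apply pow_le_pow_left₀ (by positivity)
          linarith
        rw [mul_pow, hb, Real.rpow_inv_natCast_pow (by positivity) (by omega)] at h5
        rw [div_le_iff₀ (by positivity)] at hk3
        have h6 : (C : ℝ) * ((z (2 ^ k) : ℝ) + 1) ^ (C + 2) ≤ C * (2 ^ (C + 2) * Λ) :=
          mul_le_mul_of_nonneg_left h5 (by positivity)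
        have h7 : (C * 2 ^ (C + 2) + 1) * Λ ≤ (Λ * (η / 2)) * Λ :=
          mul_le_mul_of_nonneg_right hk3 (by linarith)
        have h8 : η / 2 * (c * Λ ^ 2 - 1) ≤ η / 2 * g := mul_le_mul_of_nonneg_left hg2 (by positivity)
        have h9 : η / 2 * (Λ ^ 2 - 1) ≤ η / 2 * (c * Λ ^ 2 - 1) := by
          apply mul_le_mul_of_nonneg_left _ (by positivity)
          nlinarith
        nlinarith
      -- one run
      have hone : ∀ n : ℕ, k ≤ n → n + g ≤ 2 ^ k →
          μ.real {ω | (∀ m ∈ Ioc n (n + g), (1 - η) * w z m ≤ q μ ℱ S m ω) ∧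
            ∀ m ∈ Ioc n (n + g), ω ∉ S m} ≤ Real.exp (1 - α * Λ) := by
        intro n hn1 hn2
        have hA := dens (η / 2) C hC z hz n g (2 ^ k) (by omega) hn2 (by
          have : 2 ^ 1 ≤ 2 ^ k := Nat.pow_le_pow_right (by norm_num) hk4
          omega)
        rw [log_two_pow, ← hΛ] at hA
        have hpu := h2 μ ℱ S hM.adapted (Ioc n (n + g)) (fun m => (1 - η) * w z m)
          (by simp) (by
            intro m hm
            rw [Finset.mem_Ioc] at hm
            have ha := w_nonneg z m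
            have hb := hk1 m (by omega)
            constructor
            · exact mul_nonneg (by linarith) ha
            · nlinarith)
        refine hpu.trans ?_
        have hprod : ∏ m ∈ Ioc n (n + g), (1 - (1 - η) * w z m) ≤
            Real.exp (-((1 - η) * ∑ m ∈ Ioc n (n + g), w z m)) := by
          rw [Finset.mul_sum, ← Finset.sum_neg_distrib, Real.exp_sum]
          apply Finset.prod_le_prod
          · intro m hm
            rw [Finset.mem_Ioc] at hm
            have ha := w_nonneg z m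
            have hb := hk1 m (by omega)
            nlinarith
          · intro m _
            exact Real.one_sub_le_exp_neg _
        refine hprod.trans ?_
        apply Real.exp_le_exp.mpr
        have hL : 0 < Λ := by linarith
        have hgl : (1 - η) * (c * Λ - 1 / 2) ≤ ((1 - η / 2) * g - C * ((z (2 ^ k) : ℝ) + 1) ^ (C + 2)) / Λ := by
          rw [le_div_iff₀ hL]
          have h5 : (1 - η) * (c * Λ ^ 2 - 1) ≤ (1 - η) * g :=
            mul_le_mul_of_nonneg_left hg2 (by linarith)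
          have h6 : (1 - η) * (c * Λ - 1 / 2) * Λ ≤ (1 - η) * (c * Λ ^ 2 - 1) := by
            have h7 : (c * Λ - 1 / 2) * Λ ≤ c * Λ ^ 2 - 1 := by nlinarith
            rw [mul_assoc]
            exact mul_le_mul_of_nonneg_left h7 (by linarith)
          linarith
        have hS2 : (1 - η) * ((1 - η) * (c * Λ - 1 / 2)) ≤
            (1 - η) * ∑ m ∈ Ioc n (n + g), w z m := by
          apply mul_le_mul_of_nonneg_left _ (by linarith)
          exact hgl.trans hA
        have hS3 : (1 - η) * ((1 - η) * (c * Λ - 1 / 2)) = α * Λ - (1 - η) ^ 2 / 2 := by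
          rw [hαdef]
          ring
        rw [hS3] at hS2
        nlinarith
      -- the union
      obtain ⟨s, hsdef⟩ : ∃ s, s = (range (2 ^ k)).filter (fun n => k ≤ n ∧ n + g ≤ 2 ^ k) := ⟨_, rfl⟩
      have hsub : E k ⊆ ⋃ n ∈ s, {ω | (∀ m ∈ Ioc n (n + g), (1 - η) * w z m ≤ q μ ℱ S m ω) ∧
            ∀ m ∈ Ioc n (n + g), ω ∉ S m} := by
        rintro ω ⟨-, n, hn1, hn2, hn3, hn4⟩
        rw [Set.mem_iUnion₂]
        refine ⟨n, ?_, hn3, hn4⟩
        rw [hsdef, mem_filter, mem_range]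
        have : 1 ≤ g := by exact_mod_cast hg1
        exact ⟨by omega, hn1, hn2⟩
      have hcard : (s.card : ℝ) ≤ Real.exp Λ := by
        have h5 : s.card ≤ 2 ^ k := by
          rw [hsdef]
          exact (Finset.card_filter_le _ _).trans (by rw [card_range])
        have h6 : (s.card : ℝ) ≤ 2 ^ k := by exact_mod_cast h5
        refine h6.trans (le_of_eq ?_)
        rw [hΛ, Real.exp_nat_mul, Real.exp_log (by norm_num)]
      calc μ.real (E k) ≤ μ.real (⋃ n ∈ s, {ω | (∀ m ∈ Ioc n (n + g), (1 - η) * w z m ≤ q μ ℱ S m ω) ∧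
            ∀ m ∈ Ioc n (n + g), ω ∉ S m}) := measureReal_mono hsub (measure_ne_top _ _)
        _ ≤ ∑ n ∈ s, μ.real {ω | (∀ m ∈ Ioc n (n + g), (1 - η) * w z m ≤ q μ ℱ S m ω) ∧
            ∀ m ∈ Ioc n (n + g), ω ∉ S m} := measureReal_biUnion_finset_le _ _
        _ ≤ ∑ n ∈ s, Real.exp (1 - α * Λ) := by
            refine Finset.sum_le_sum fun n hn => ?_
            rw [hsdef, mem_filter] at hn
            exact hone n hn.2.1 hn.2.2
        _ = s.card * Real.exp (1 - α * Λ) := by rw [sum_const, nsmul_eq_mul]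
        _ ≤ Real.exp Λ * Real.exp (1 - α * Λ) := mul_le_mul_of_nonneg_right hcard (Real.exp_pos _).le
        _ = Real.exp 1 * (Real.exp (-((α - 1) * Real.log 2))) ^ k := by
            rw [← Real.exp_nat_mul, ← Real.exp_add, ← Real.exp_add, hΛ]
            congr 1
            ring
    · have : E k = ∅ := by
        ext ω
        exact ⟨fun h => hB h.1, fun h => absurd h (Set.notMem_empty _)⟩
      rw [this, measureReal_empty]
      positivity
  have hsum : Summable (fun k : ℕ => μ.real (E k)) := by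
    have hs : Summable (fun k : ℕ => Real.exp 1 * (Real.exp (-((α - 1) * Real.log 2))) ^ k) := by
      refine (summable_geometric_of_lt_one (Real.exp_pos _).le ?_).mul_left _
      rw [Real.exp_lt_one_iff]
      have : 0 < (α - 1) * Real.log 2 := mul_pos (by linarith) hl20
      linarith
    exact Summable.of_norm_bounded_eventually_nat hs hbound
  have hBC : ∀ᵐ ω ∂μ, ∀ᶠ n in atTop, ω ∉ E n := by
    apply ae_eventually_notMem
    have e : ∀ n, μ (E n) = ENNReal.ofReal (μ.real (E n)) := by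
      intro n
      rw [ofReal_measureReal]
    simp_rw [e]
    exact hsum.tsum_ofReal_ne_top
  -- the scales
  have hfk : ∃ᶠ k : ℕ in atTop, (z (2 ^ k) : ℝ) ≤ ((k : ℝ) * Real.log 2) ^ b := by
    have hlt : Tendsto (fun n : ℕ => Nat.log 2 n) atTop atTop :=
      tendsto_atTop_atTop.2 fun b => ⟨2 ^ b, fun n hn => Nat.le_log_of_pow_le (by norm_num) hn⟩
    refine hlt.frequently ?_
    refine (hfr.and_eventually ((hlt.eventually (kt.eventually_ge_atTop (2 : ℝ))).and
      (eventually_ge_atTop 2))).mono ?_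
    rintro n ⟨hn1, hn2, hn3⟩
    obtain ⟨k, hk⟩ : ∃ k, k = Nat.log 2 n := ⟨_, rfl⟩
    rw [← hk] at hn2 ⊢
    have h4 : 2 ^ k ≤ n := by rw [hk]; exact Nat.pow_log_le_self 2 (by omega)
    have h5 : n < 2 ^ (k + 1) := by rw [hk]; exact Nat.lt_pow_succ_log_self (by norm_num) n
    have h6 : Real.log n ≤ ((k : ℝ) + 1) * Real.log 2 := by
      have h7 : (n : ℝ) ≤ ((2 ^ (k + 1) : ℕ) : ℝ) := by exact_mod_cast h5.le
      have h8 := Real.log_le_log (by exact_mod_cast (by omega : 0 < n)) h7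
      rw [log_two_pow] at h8
      push_cast at h8
      exact h8
    have hl1 : Real.log 2 ≤ 1 := by
      have := Real.log_two_lt_d9
      linarith
    have h7 : Real.log n ≤ ((k : ℝ) * Real.log 2) ^ 2 := by nlinarith
    have h8 : (0 : ℝ) ≤ Real.log n := Real.log_natCast_nonneg n
    calc (z (2 ^ k) : ℝ) ≤ z n := by exact_mod_cast hz h4
      _ ≤ Real.log n ^ (b / 2) := hn1
      _ ≤ (((k : ℝ) * Real.log 2) ^ 2) ^ (b / 2) := Real.rpow_le_rpow h8 h7 (by positivity)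
      _ = ((k : ℝ) * Real.log 2) ^ b := by
          rw [← Real.rpow_natCast, ← Real.rpow_mul (by positivity)]
          congr 1
          push_cast
          ring
  filter_upwards [hBC, h3 μ ℱ S z hM η hη0 hη1] with ω hω1 hω2
  have hω3 : ∀ᶠ n : ℕ in atTop, ∀ m : ℕ, n ≤ m → (1 - η) * w z m ≤ q μ ℱ S m ω ∧
      q μ ℱ S m ω ≤ (1 + η) * w z m := eventually_forall_ge_atTop.mpr hω2
  refine det_up _ c (1 + η0) (by linarith) (by linarith) ?_
  refine (hfk.and_eventually (hω1.and hω3)).mono ?_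
  rintro k ⟨hk1, hk2, hk3⟩ n hn1 hn2
  by_contra hcon
  push Not at hcon
  apply hk2
  refine ⟨hk1, n, hn1, hn2, ?_, ?_⟩
  · intro m hm
    rw [Finset.mem_Ioc] at hm
    exact (hk3 m (by omega)).1
  · intro m hm
    exact hcon m hm

end Pool.Agent.J6H67.CG
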