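import Pool.Agent.J6H67.CG.RelD
import Pool.Agent.J6H67.CG.Up

set_option autoImplicit false

/-! # Project CG (helper67): the final theorem, third version -/

namespace Pool.Agent.J6H67.CG

open MeasureTheory Filter Finset
open scoped Topology
open Pool.Agent.J6H39.RS

/-- members in all intervals `(n, 2n]` -/
theorem crg : S_CRG := t_CRG t_FLI t_PU t_RB t_WSM

theorem upf : ∀ η : ℝ, 0 < η → ∃ b : ℝ, 0 < b ∧ ∀ z : ℕ → ℕ, Monotone z → Sub z →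
      (∃ᶠ n : ℕ in atTop, (z n : ℝ) ≤ Real.log n ^ b) →
      ∀ {Ω : Type} [mΩ : MeasurableSpace Ω] (μ : Measure Ω) [IsProbabilityMeasure μ]
        (ℱ : Filtration ℕ mΩ) (S : ℕ → Set Ω), IsModel μ ℱ S z →
        ∀ᵐ ω ∂μ, Ginf {k | ω ∈ S k} ≤ ((1 + η : ℝ) : EReal) := t_UPF t_FLI t_WSM t_PU t_RB

theorem fin3 :
    (∀ z : ℕ → ℕ, Monotone z → Sub z →
      ∀ {Ω : Type} [mΩ : MeasurableSpace Ω] (μ : Measure Ω) [IsProbabilityMeasure μ]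
        (ℱ : Filtration ℕ mΩ) (S : ℕ → Set Ω), IsModel μ ℱ S z →
        ∀ᵐ ω ∂μ, 1 ≤ Ginf {k | ω ∈ S k} ∧ Ginf {k | ω ∈ S k} ≤ Gsup {k | ω ∈ S k} ∧
          Gsup {k | ω ∈ S k} = Lsup {k | ω ∈ S k}) ∧
    (∀ ε : ℝ, 0 < ε → ∃ δ : ℝ, 0 < δ ∧ ∀ z : ℕ → ℕ, Monotone z → Sub z →
      ∀ {Ω : Type} [mΩ : MeasurableSpace Ω] (μ : Measure Ω) [IsProbabilityMeasure μ]
        (ℱ : Filtration ℕ mΩ) (S : ℕ → Set Ω), IsModel μ ℱ S z →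
        ((∀ᶠ n : ℕ in atTop, Real.log n ^ ε ≤ (z n : ℝ)) →
          ∀ᵐ ω ∂μ, ((1 + δ : ℝ) : EReal) ≤ Ginf {k | ω ∈ S k}) ∧
        ((∃ᶠ n : ℕ in atTop, Real.log n ^ ε ≤ (z n : ℝ)) →
          ∀ᵐ ω ∂μ, ((1 + δ : ℝ) : EReal) ≤ Lsup {k | ω ∈ S k})) ∧
    (∀ z : ℕ → ℕ, Monotone z → Sub z →
      ∀ {Ω : Type} [mΩ : MeasurableSpace Ω] (μ : Measure Ω) [IsProbabilityMeasure μ]
        (ℱ : Filtration ℕ mΩ) (S : ℕ → Set Ω), IsModel μ ℱ S z →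
        ((∀ ε : ℝ, 0 < ε → ∀ᶠ n : ℕ in atTop, Real.log n ^ (1 - ε) ≤ (z n : ℝ)) →
          ∀ᵐ ω ∂μ, ((2 * Real.exp (-Real.eulerMascheroniConstant) : ℝ) : EReal) ≤ Ginf {k | ω ∈ S k}) ∧
        ((∀ ε : ℝ, 0 < ε → ∃ᶠ n : ℕ in atTop, Real.log n ^ (1 - ε) ≤ (z n : ℝ)) →
          ∀ᵐ ω ∂μ, ((2 * Real.exp (-Real.eulerMascheroniConstant) : ℝ) : EReal) ≤ Lsup {k | ω ∈ S k})) ∧
    (∀ η : ℝ, 0 < η → ∃ b : ℝ, 0 < b ∧ ∀ z : ℕ → ℕ, Monotone z → Sub z →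
      ∀ {Ω : Type} [mΩ : MeasurableSpace Ω] (μ : Measure Ω) [IsProbabilityMeasure μ]
        (ℱ : Filtration ℕ mΩ) (S : ℕ → Set Ω), IsModel μ ℱ S z →
        ((∀ᶠ n : ℕ in atTop, (z n : ℝ) ≤ Real.log n ^ b) →
          ∀ᵐ ω ∂μ, Lsup {k | ω ∈ S k} ≤ ((1 + η : ℝ) : EReal)) ∧
        ((∃ᶠ n : ℕ in atTop, (z n : ℝ) ≤ Real.log n ^ b) →
          ∀ᵐ ω ∂μ, Ginf {k | ω ∈ S k} ≤ ((1 + η : ℝ) : EReal))) ∧
    (∀ z : ℕ → ℕ, Monotone z → Sub z →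
      ∀ {Ω : Type} [mΩ : MeasurableSpace Ω] (μ : Measure Ω) [IsProbabilityMeasure μ]
        (ℱ : Filtration ℕ mΩ) (S : ℕ → Set Ω), IsModel μ ℱ S z →
        ((∀ᵐ ω ∂μ, Lsup {k | ω ∈ S k} = 1) ↔
          ∀ ε : ℝ, 0 < ε → ∀ᶠ n : ℕ in atTop, (z n : ℝ) ≤ Real.log n ^ ε) ∧
        ((∀ᵐ ω ∂μ, Ginf {k | ω ∈ S k} = 1) ↔
          ∀ ε : ℝ, 0 < ε → ∃ᶠ n : ℕ in atTop, (z n : ℝ) ≤ Real.log n ^ ε)) := by
  obtain ⟨-, f2, f3, f4, f5⟩ := fin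
  refine ⟨?_, ?_, ?_, ?_, ?_⟩
  · intro z hz hs Ω mΩ μ _ ℱ S hM
    filter_upwards [f2 z hz hs μ ℱ S hM, crg μ ℱ S z hM hz hs] with ω h1 h2
    exact ⟨h1.1, liminf_le_limsup, gsup_eq (infinite_of h2)⟩
  · intro ε hε
    obtain ⟨δ1, hδ1, h1⟩ := f3 ε hε
    obtain ⟨δ2, hδ2, h2⟩ := rel ε hε
    refine ⟨min δ1 δ2, lt_min hδ1 hδ2, ?_⟩
    intro z hz hs Ω mΩ μ _ ℱ S hM
    constructor
    · intro hzl
      filter_upwards [h1 z hz hs hzl μ ℱ S hM] with ω hω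
      refine le_trans ?_ hω
      rw [EReal.coe_le_coe_iff]
      linarith [min_le_left δ1 δ2]
    · intro hzl
      filter_upwards [h2 z hz hs hzl μ ℱ S hM] with ω hω
      refine le_trans ?_ hω
      rw [EReal.coe_le_coe_iff]
      linarith [min_le_right δ1 δ2]
  · intro z hz hs Ω mΩ μ _ ℱ S hM
    exact ⟨fun h => f4 z hz hs h μ ℱ S hM, fun h => relB z hz hs h μ ℱ S hM⟩
  · intro η hη
    obtain ⟨b1, hb1, h1⟩ := f5 η hη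
    obtain ⟨b2, hb2, h2⟩ := upf η hη
    refine ⟨min b1 b2, lt_min hb1 hb2, ?_⟩
    intro z hz hs Ω mΩ μ _ ℱ S hM
    have hlog : Tendsto (fun n : ℕ => Real.log n) atTop atTop :=
      Real.tendsto_log_atTop.comp tendsto_natCast_atTop_atTop
    constructor
    · intro hzl
      have hzl' : ∀ᶠ n : ℕ in atTop, (z n : ℝ) ≤ Real.log n ^ b1 := by
        filter_upwards [hzl, hlog.eventually_ge_atTop 1] with n hn hn1
        exact hn.trans (Real.rpow_le_rpow_of_exponent_le hn1 (min_le_left _ _))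
      filter_upwards [h1 z hz hzl' μ ℱ S hM] with ω hω
      exact hω.1
    · intro hzl
      have hzl' : ∃ᶠ n : ℕ in atTop, (z n : ℝ) ≤ Real.log n ^ b2 := by
        refine (hzl.and_eventually (hlog.eventually_ge_atTop 1)).mono ?_
        rintro n ⟨hn, hn1⟩
        exact hn.trans (Real.rpow_le_rpow_of_exponent_le hn1 (min_le_right _ _))
      exact h2 z hz hs hzl' μ ℱ S hM
  · intro z hz hs Ω mΩ μ _ ℱ S hM
    refine ⟨crit z hz hs μ ℱ S hM, ?_, ?_⟩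
    · intro h
      by_contra hcon
      push Not at hcon
      obtain ⟨ε, hε, hfr⟩ := hcon
      obtain ⟨δ, hδ, hr⟩ := f3 ε hε
      have hfr' : ∀ᶠ n : ℕ in atTop, Real.log n ^ ε ≤ (z n : ℝ) := hfr.mono fun n hn => hn.le
      obtain ⟨ω, h1, h2⟩ := (h.and (hr z hz hs hfr' μ ℱ S hM)).exists
      rw [h1] at h2
      have h3 : ((1 + δ : ℝ) : EReal) ≤ ((1 : ℝ) : EReal) := h2
      rw [EReal.coe_le_coe_iff] at h3
      linarith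
    · intro h
      have h5 : ∀ k : ℕ, ∀ᵐ ω ∂μ, Ginf {k | ω ∈ S k} ≤ ((1 + 1 / ((k : ℝ) + 1) : ℝ) : EReal) := by
        intro k
        obtain ⟨b, hb, hk⟩ := upf (1 / ((k : ℝ) + 1)) (by positivity)
        exact hk z hz hs (h b hb) μ ℱ S hM
      have hlim : Tendsto (fun k : ℕ => ((1 + 1 / ((k : ℝ) + 1) : ℝ) : EReal)) atTop (𝓝 1) := by
        have h6 : Tendsto (fun k : ℕ => (1 : ℝ) + 1 / ((k : ℝ) + 1)) atTop (𝓝 (1 + 0)) :=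
          tendsto_one_div_add_atTop_nhds_zero_nat.const_add 1
        rw [add_zero] at h6
        exact (continuous_coe_real_ereal.tendsto 1).comp h6
      filter_upwards [f2 z hz hs μ ℱ S hM, ae_all_iff.2 h5] with ω g1 g2
      exact le_antisymm (ge_of_tendsto hlim (Eventually.of_forall g2)) g1.1

end Pool.Agent.J6H67.CG
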