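import Pool.Agent.J6H67.CG.Stm

set_option autoImplicit false

/-! # Project CG (helper67): assembly -/

namespace Pool.Agent.J6H67.CG

open MeasureTheory Filter Finset
open scoped Topology
open Pool.Agent.J6H39.RS

lemma infinite_of {T : Set ℕ} (h : ∀ᶠ n : ℕ in atTop, ∃ m ∈ Ioc n (2 * n), m ∈ T) : T.Infinite := by
  rw [Set.infinite_iff_exists_gt]
  intro a
  obtain ⟨n, hn, m, hm, hmT⟩ := ((eventually_ge_atTop a).and h).exists
  exact ⟨m, hmT, lt_of_le_of_lt hn (mem_Ioc.1 hm).1⟩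

/-- lower bounds for one constant -/
lemma low (hLWG : S_LWG) (hCRG : S_CRG) (hWSM : S_WSM) (hMNY : S_MNY) (hDLO : S_DLO)
    {z : ℕ → ℕ} (hz : Monotone z) (hs : Sub z) {Ω : Type} [mΩ : MeasurableSpace Ω] (μ : Measure Ω)
    [IsProbabilityMeasure μ] (ℱ : Filtration ℕ mΩ) (S : ℕ → Set Ω) (hM : IsModel μ ℱ S z)
    {κ c : ℝ} (hκ : 0 < κ) (hκ2 : κ ≤ 2) (hc : 0 < c) (hκc : κ < c ^ 2) (hT : Thin z κ c) :
    ∀ᵐ ω ∂μ, ((1 / c ^ 2 : ℝ) : EReal) ≤ Ginf {k | ω ∈ S k} := by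
  filter_upwards [hCRG μ ℱ S z hM hz hs,
    hLWG μ ℱ S z hM (hWSM z hs) κ c hκ hc hκc (hMNY z hz hs κ c hκ hκ2 hc hT)] with ω h1 h2
  exact hDLO {k | ω ∈ S k} h1 c hc h2

lemma tendsto_one_div : Tendsto (fun k : ℕ => 1 / ((k : ℝ) + 1)) atTop (𝓝 0) :=
  tendsto_one_div_add_atTop_nhds_zero_nat

/-- lower bounds, the limit -/
lemma lowlim (hLWG : S_LWG) (hCRG : S_CRG) (hWSM : S_WSM) (hMNY : S_MNY) (hDLO : S_DLO)
    {z : ℕ → ℕ} (hz : Monotone z) (hs : Sub z) {Ω : Type} [mΩ : MeasurableSpace Ω] (μ : Measure Ω)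
    [IsProbabilityMeasure μ] (ℱ : Filtration ℕ mΩ) (S : ℕ → Set Ω) (hM : IsModel μ ℱ S z)
    {κ : ℝ} (hκ : 0 < κ) (hκ2 : κ ≤ 2) (hT : ∀ c : ℝ, 0 < c → Thin z κ c) :
    ∀ᵐ ω ∂μ, ((1 / κ : ℝ) : EReal) ≤ Ginf {k | ω ∈ S k} := by
  have h1 : ∀ k : ℕ, ∀ᵐ ω ∂μ, ((1 / (√(κ + 1 / ((k : ℝ) + 1))) ^ 2 : ℝ) : EReal) ≤ Ginf {k | ω ∈ S k} := by
    intro k
    have hk : 0 < 1 / ((k : ℝ) + 1) := by positivity
    have hp : 0 < κ + 1 / ((k : ℝ) + 1) := by positivity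
    refine low hLWG hCRG hWSM hMNY hDLO hz hs μ ℱ S hM hκ hκ2 (Real.sqrt_pos.2 hp) ?_
      (hT _ (Real.sqrt_pos.2 hp))
    rw [Real.sq_sqrt hp.le]
    linarith
  filter_upwards [ae_all_iff.2 h1] with ω hω
  have h2 : Tendsto (fun k : ℕ => ((1 / (√(κ + 1 / ((k : ℝ) + 1))) ^ 2 : ℝ) : EReal)) atTop
      (𝓝 ((1 / κ : ℝ) : EReal)) := by
    apply (continuous_coe_real_ereal.tendsto _).comp
    have h3 : Tendsto (fun k : ℕ => κ + 1 / ((k : ℝ) + 1)) atTop (𝓝 (κ + 0)) :=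
      tendsto_one_div.const_add κ
    rw [add_zero] at h3
    have h4 := h3.inv₀ hκ.ne'
    rw [one_div]
    refine h4.congr fun k => ?_
    have hp : 0 < κ + 1 / ((k : ℝ) + 1) := by positivity
    rw [Real.sq_sqrt hp.le, one_div (κ + 1 / ((k : ℝ) + 1))]
  exact le_of_tendsto h2 (Eventually.of_forall hω)

lemma gamma_le : Real.exp Real.eulerMascheroniConstant / 2 ≤ 2 := by
  have h1 : Real.eulerMascheroniConstant < 2 / 3 := Real.eulerMascheroniConstant_lt_two_thirds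
  have h2 : Real.exp Real.eulerMascheroniConstant ≤ Real.exp 1 := Real.exp_le_exp.2 (by linarith)
  have h3 := Real.exp_one_lt_d9
  linarith

theorem t_MAIN (hLWG : S_LWG) (hCRG : S_CRG) (hWSM : S_WSM) (hMNY : S_MNY) (hTH1 : S_TH1)
    (hTH2 : S_TH2) (hTH3 : S_TH3) (hUPG : S_UPG) (hDLO : S_DLO) (hDLS : S_DLS) (hDUP : S_DUP) : S_MAIN := by
  refine ⟨?_, ?_, ?_, ?_⟩
  · intro z hz hs Ω mΩ μ _ ℱ S hM
    filter_upwards [lowlim hLWG hCRG hWSM hMNY hDLO hz hs μ ℱ S hM one_pos one_le_two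
      (fun c hc => hTH1 z c hc), hCRG μ ℱ S z hM hz hs] with ω h1 h2
    refine ⟨?_, hDLS _ (infinite_of h2)⟩
    simpa using h1
  · intro ε hε
    obtain ⟨δ, hδ0, hδ1, hδ⟩ := hTH2 ε hε
    refine ⟨δ, hδ0, ?_⟩
    intro z hz hs hzl Ω mΩ μ _ ℱ S hM
    filter_upwards [lowlim hLWG hCRG hWSM hMNY hDLO hz hs μ ℱ S hM (κ := 1 - δ) (by linarith) (by linarith)
      (fun c hc => hδ z hzl c hc)] with ω h1
    refine le_trans ?_ h1
    rw [EReal.coe_le_coe_iff, le_div_iff₀ (by linarith)]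
    nlinarith
  · rintro z hz hs ⟨κ, hκ, hzl⟩ Ω mΩ μ _ ℱ S hM
    filter_upwards [lowlim hLWG hCRG hWSM hMNY hDLO hz hs μ ℱ S hM
      (κ := Real.exp Real.eulerMascheroniConstant / 2) (by positivity) gamma_le
      (fun c hc => hTH3 κ hκ z hzl c hc)] with ω h1
    refine le_trans (le_of_eq ?_) h1
    congr 1
    rw [Real.exp_neg]
    have := Real.exp_pos Real.eulerMascheroniConstant
    field_simp
  · intro η hη
    obtain ⟨b, hb, h⟩ := hUPG η hη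
    refine ⟨b, hb, ?_⟩
    intro z hz hzl Ω mΩ μ _ ℱ S hM
    filter_upwards [h μ ℱ S z hM hz hzl] with ω h1
    exact hDUP {k | ω ∈ S k} (1 + η) (by linarith) h1

end Pool.Agent.J6H67.CG
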