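import Pool.Agent.J6H67.CG.Stm
import Pool.Agent.Helper923.PNT
import Pool.Agent.H305R2.MertensE

/-!
# CG-PNP: numbers up to `g` without prime factors `≤ s √g`
-/

set_option autoImplicit false

namespace Pool.Agent.J6H67.CG

open MeasureTheory Filter Finset
open scoped Topology

namespace PNPaux

theorem card_primes (g : ℕ) : ((range (g + 1)).filter Nat.Prime).card = Nat.primeCounting g := by
  rw [Nat.primeCounting, Nat.primeCounting', Nat.count_eq_card_filter_range]

theorem card_rough (g y M : ℕ) (P : Finset ℕ) [DecidablePred (fun h : ℕ => ∀ p ∈ P, ¬ p ∣ h)]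
    (hP : ∀ p : ℕ, p.Prime → p ≤ y → p ∈ P) (hy : g < (y + 1) ^ 3)
    (hM : ∀ p q : ℕ, y < q → p * q ≤ g → p ≤ M) :
    ((Icc 1 g).filter (fun h => ∀ p ∈ P, ¬ p ∣ h)).card ≤
      1 + Nat.primeCounting g + (Nat.primeCounting M) ^ 2 := by
  have hsub : (Icc 1 g).filter (fun h => ∀ p ∈ P, ¬ p ∣ h) ⊆
      ({1} ∪ (range (g + 1)).filter Nat.Prime) ∪
        (((range (M + 1)).filter Nat.Prime) ×ˢ ((range (M + 1)).filter Nat.Prime)).image
          (fun x : ℕ × ℕ => x.1 * x.2) := by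
    intro h hh
    rw [mem_filter, mem_Icc] at hh
    obtain ⟨⟨h1, hg⟩, hr⟩ := hh
    have hbig : ∀ p : ℕ, p.Prime → p ∣ h → y < p := by
      intro p hp hph
      by_contra hcon
      push Not at hcon
      exact hr p (hP p hp hcon) hph
    rw [mem_union, mem_union]
    by_cases he : h = 1
    · left; left
      rw [he]
      exact mem_singleton_self 1
    by_cases hp : h.Prime
    · left; right
      exact mem_filter.2 ⟨mem_range.2 (by omega), hp⟩
    right
    obtain ⟨q, hq⟩ := Nat.minFac_dvd h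
    set p := h.minFac with hpdef
    have hpp : p.Prime := Nat.minFac_prime he
    have hq1 : q ≠ 1 := by
      rintro rfl
      rw [mul_one] at hq
      exact hp (hq ▸ hpp)
    have hpy : y < p := hbig p hpp (Nat.minFac_dvd h)
    have hqp : q.Prime := by
      by_contra hqn
      obtain ⟨t, ht⟩ := Nat.minFac_dvd q
      set r := q.minFac with hrdef
      have hrp : r.Prime := Nat.minFac_prime hq1
      have ht1 : t ≠ 1 := by
        rintro rfl
        rw [mul_one] at ht
        exact hqn (ht ▸ hrp)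
      have hup : t.minFac.Prime := Nat.minFac_prime ht1
      have hqh : q ∣ h := ⟨p, by rw [hq, mul_comm]⟩
      have hry : y < r := hbig r hrp ((Nat.minFac_dvd q).trans hqh)
      have htq : t ∣ q := ⟨r, by rw [ht, mul_comm]⟩
      have huy : y < t.minFac := hbig _ hup (((Nat.minFac_dvd t).trans htq).trans hqh)
      have ht0 : 0 < t := by
        rcases Nat.eq_zero_or_pos t with h0 | h0
        · rw [h0, mul_zero] at ht
          rw [ht, mul_zero] at hq
          omega
        · exact h0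
      have huT : t.minFac ≤ t := Nat.minFac_le ht0
      have : (y + 1) ^ 3 ≤ h := by
        rw [hq, ht]
        calc (y + 1) ^ 3 = (y + 1) * ((y + 1) * (y + 1)) := by ring
          _ ≤ p * (r * t) := Nat.mul_le_mul hpy (Nat.mul_le_mul hry (by omega))
      omega
    have hqy : y < q := hbig q hqp ⟨p, by rw [hq, mul_comm]⟩
    rw [mem_image]
    refine ⟨(p, q), ?_, hq.symm⟩
    rw [mem_product, mem_filter, mem_filter, mem_range, mem_range]
    have a1 : p ≤ M := hM p q hqy (by rw [← hq]; exact hg)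
    have a2 : q ≤ M := hM q p hpy (by rw [mul_comm, ← hq]; exact hg)
    exact ⟨⟨by omega, hpp⟩, by omega, hqp⟩
  refine (card_le_card hsub).trans ?_
  refine (card_union_le _ _).trans ?_
  refine Nat.add_le_add ?_ ?_
  · refine (card_union_le _ _).trans ?_
    rw [card_singleton, card_primes]
  · refine card_image_le.trans ?_
    rw [card_product, card_primes, sq]

theorem tendsto_pi : Tendsto (fun X : ℕ => (Nat.primeCounting X : ℝ) * Real.log X / X) atTop
    (𝓝 1) := by
  have := Pool.Agent.Helper923.PNT.pi_tendsto.comp tendsto_natCast_atTop_atTop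
  refine this.congr fun X => ?_
  simp

theorem tendsto_log_div : Tendsto (fun X : ℕ => Real.log X / X) atTop (𝓝 0) := by
  have h := (Real.isLittleO_log_id_atTop).tendsto_div_nhds_zero
  have := h.comp tendsto_natCast_atTop_atTop
  refine this.congr fun X => ?_
  simp

theorem tendsto_sqrt : Tendsto (fun g : ℕ => √(g : ℝ)) atTop atTop :=
  Real.tendsto_sqrt_atTop.comp tendsto_natCast_atTop_atTop

theorem tendsto_sq (s : ℝ) (hs : 0 < s) :
    Tendsto (fun g : ℕ => (Nat.primeCounting ⌊√(g : ℝ) / s⌋₊ : ℝ) ^ 2 * Real.log g / g) atTop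
      (𝓝 0) := by
  have hx : Tendsto (fun g : ℕ => √(g : ℝ) / s) atTop atTop :=
    tendsto_sqrt.atTop_div_const hs
  have hp := Pool.Agent.Helper923.PNT.pi_tendsto.comp hx
  have hl : Tendsto (fun g : ℕ => Real.log (√(g : ℝ) / s)) atTop atTop :=
    Real.tendsto_log_atTop.comp hx
  have hi : Tendsto (fun g : ℕ => (Real.log (√(g : ℝ) / s))⁻¹) atTop (𝓝 0) :=
    tendsto_inv_atTop_zero.comp hl
  have hf := ((hp.pow 2).mul_const (1 / s ^ 2)).mul
    ((hi.const_mul 2).add ((hi.pow 2).const_mul (2 * Real.log s)))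
  have e0 : (1 : ℝ) ^ 2 * (1 / s ^ 2) * (2 * 0 + 2 * Real.log s * 0 ^ 2) = 0 := by ring
  rw [e0] at hf
  refine hf.congr' ?_
  filter_upwards [hl.eventually_gt_atTop 0, eventually_gt_atTop 0] with g h1 h2
  have hg : (0 : ℝ) < g := by exact_mod_cast h2
  have hsq : 0 < √(g : ℝ) := Real.sqrt_pos.2 hg
  have hlog : Real.log (√(g : ℝ) / s) = Real.log g / 2 - Real.log s := by
    rw [Real.log_div hsq.ne' hs.ne', Real.log_sqrt hg.le]
  have hlogg : Real.log g = 2 * (Real.log (√(g : ℝ) / s) + Real.log s) := by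
    rw [hlog]; ring
  have hsqg : √(g : ℝ) ^ 2 = g := Real.sq_sqrt hg.le
  simp only [Function.comp_apply]
  rw [hlogg]
  have hne := h1.ne'
  set L := Real.log (√(g : ℝ) / s) with hL
  set P : ℝ := (Nat.primeCounting ⌊√(g : ℝ) / s⌋₊ : ℝ) with hP
  have e1 : (P * L / (√(g : ℝ) / s)) ^ 2 * (1 / s ^ 2) = P ^ 2 * L ^ 2 / g := by
    rw [div_pow, div_pow, hsqg]
    field_simp
  rw [e1]
  field_simp

end PNPaux

open PNPaux in
theorem t_PNP : S_PNP := by
  intro s η hs hs1 hη
  have hy : Tendsto (fun g : ℕ => ⌊s * √(g : ℝ)⌋₊) atTop atTop :=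
    tendsto_nat_floor_atTop.comp (tendsto_sqrt.const_mul_atTop hs)
  have hW := Pool.Agent.H305R2.mertens_three.comp hy
  have hB : Tendsto (fun g : ℕ => Real.log g / g +
      (Nat.primeCounting g : ℝ) * Real.log g / g +
      (Nat.primeCounting ⌊√(g : ℝ) / s⌋₊ : ℝ) ^ 2 * Real.log g / g) atTop (𝓝 (0 + 1 + 0)) :=
    (tendsto_log_div.add tendsto_pi).add (tendsto_sq s hs)
  have hBW := hB.mul hW
  have e0 : (0 + 1 + 0 : ℝ) * Real.exp Real.eulerMascheroniConstant =
      Real.exp Real.eulerMascheroniConstant := by ring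
  rw [e0] at hBW
  have h1 := hBW.eventually_lt_const (u := Real.exp Real.eulerMascheroniConstant + 2 * η)
    (by linarith)
  have h2 : ∀ᶠ g : ℕ in atTop, 1 / s ^ 3 ≤ √(g : ℝ) := tendsto_sqrt.eventually_ge_atTop _
  have h3 : ∀ᶠ g : ℕ in atTop, 2 ≤ ⌊s * √(g : ℝ)⌋₊ := hy.eventually_ge_atTop 2
  filter_upwards [h1, h2, h3, eventually_gt_atTop 1] with g k1 k2 k3 k4
  have hg : (0 : ℝ) < g := by exact_mod_cast (by omega : 0 < g)
  have hg1 : (1 : ℝ) < g := by exact_mod_cast k4
  have hsq : 0 < √(g : ℝ) := Real.sqrt_pos.2 hg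
  have hsqg : √(g : ℝ) * √(g : ℝ) = g := Real.mul_self_sqrt hg.le
  set P := (Icc 1 ⌊s * √(g : ℝ)⌋₊).filter Nat.Prime with hPdef
  obtain ⟨y, hydef⟩ : ∃ y : ℕ, y = ⌊s * √(g : ℝ)⌋₊ := ⟨_, rfl⟩
  rw [← hydef] at k3
  have hylt : s * √(g : ℝ) < (y : ℝ) + 1 := by
    rw [hydef]
    exact Nat.lt_floor_add_one _
  have hyle : (y : ℝ) ≤ s * √(g : ℝ) := by
    rw [hydef]
    exact Nat.floor_le (by positivity)
  have hcount := card_rough g y ⌊√(g : ℝ) / s⌋₊ P (by
    intro p hp hpy
    rw [hPdef, mem_filter, mem_Icc, ← hydef]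
    exact ⟨⟨hp.one_lt.le, hpy⟩, hp⟩) (by
    have a1 : (g : ℝ) < ((y : ℝ) + 1) ^ 3 := by
      have a2 : (s * √(g : ℝ)) ^ 3 < ((y : ℝ) + 1) ^ 3 :=
        pow_lt_pow_left₀ hylt (by positivity) (by norm_num)
      have a3 : (g : ℝ) ≤ (s * √(g : ℝ)) ^ 3 := by
        have a4 : (s * √(g : ℝ)) ^ 3 = s ^ 3 * √(g : ℝ) * (√(g : ℝ) * √(g : ℝ)) := by ring
        rw [a4, hsqg]
        have a5 : 1 ≤ s ^ 3 * √(g : ℝ) := by
          rw [div_le_iff₀ (by positivity)] at k2
          linarith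
        nlinarith
      linarith
    exact_mod_cast a1) (by
    intro p q hq hpq
    refine Nat.le_floor ?_
    have b1 : ((y : ℝ) + 1) ≤ q := by exact_mod_cast hq
    have b2 : (p : ℝ) * q ≤ g := by exact_mod_cast hpq
    rw [le_div_iff₀ hs]
    have b3 : (p : ℝ) * (s * √(g : ℝ)) ≤ √(g : ℝ) * √(g : ℝ) := by
      rw [hsqg]
      refine le_trans ?_ b2
      exact mul_le_mul_of_nonneg_left (by linarith) (by positivity)
    have b4 : (p * s) * √(g : ℝ) ≤ √(g : ℝ) * √(g : ℝ) := by linarith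
    exact le_of_mul_le_mul_right b4 hsq)
  have hcountR : (((Icc 1 g).filter (fun h => ∀ p ∈ P, ¬ p ∣ h)).card : ℝ) ≤
      1 + (Nat.primeCounting g : ℝ) +
        (Nat.primeCounting ⌊√(g : ℝ) / s⌋₊ : ℝ) ^ 2 := by exact_mod_cast hcount
  set A : ℝ := (((Icc 1 g).filter (fun h => ∀ p ∈ P, ¬ p ∣ h)).card : ℝ) with hA
  set W : ℝ := ∏ p ∈ P, (1 - (p : ℝ)⁻¹)⁻¹ with hWdef
  have hWinv : ∏ p ∈ P, (1 - (p : ℝ)⁻¹) = W⁻¹ := by
    rw [hWdef, Finset.prod_inv_distrib, inv_inv]
  have hWpos : 0 < W := by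
    refine Finset.prod_pos fun p hp => ?_
    rw [hPdef] at hp
    have hp2 : (2 : ℝ) ≤ p := by exact_mod_cast (mem_filter.1 hp).2.two_le
    have : (p : ℝ)⁻¹ ≤ 1 / 2 := by
      rw [← one_div]
      exact one_div_le_one_div_of_le (by norm_num) hp2
    exact inv_pos.2 (by linarith)
  rw [hWinv, ← div_eq_mul_inv, le_div_iff₀ hWpos]
  have hlogy : 0 < Real.log y := Real.log_pos (by exact_mod_cast (by omega : 1 < y))
  have hlogy2 : Real.log y ≤ Real.log g / 2 := by
    rw [← Real.log_sqrt hg.le]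
    refine Real.log_le_log (by exact_mod_cast (by omega : 0 < y)) ?_
    nlinarith
  have hlogg : 0 < Real.log g := Real.log_pos hg1
  simp only [Function.comp_apply] at k1
  rw [← hPdef, ← hWdef, ← hydef] at k1
  have k5 : Real.log g / g + (Nat.primeCounting g : ℝ) * Real.log g / g +
      (Nat.primeCounting ⌊√(g : ℝ) / s⌋₊ : ℝ) ^ 2 * Real.log g / g =
      (1 + (Nat.primeCounting g : ℝ) + (Nat.primeCounting ⌊√(g : ℝ) / s⌋₊ : ℝ) ^ 2) *
        Real.log g / g := by ring
  rw [k5] at k1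
  set B : ℝ := 1 + (Nat.primeCounting g : ℝ) + (Nat.primeCounting ⌊√(g : ℝ) / s⌋₊ : ℝ) ^ 2 with hBdef
  have hB0 : 0 ≤ B := by positivity
  have hWy : 0 ≤ W / Real.log y := by positivity
  calc A * W ≤ B * W := mul_le_mul_of_nonneg_right hcountR hWpos.le
    _ = B * (W / Real.log y) * Real.log y := by field_simp
    _ ≤ B * (W / Real.log y) * (Real.log g / 2) :=
        mul_le_mul_of_nonneg_left hlogy2 (mul_nonneg hB0 hWy)
    _ = (B * Real.log g / g * (W / Real.log y)) * (g / 2) := by field_simp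
    _ ≤ (Real.exp Real.eulerMascheroniConstant + 2 * η) * (g / 2) :=
        mul_le_mul_of_nonneg_right k1.le (by positivity)
    _ = (Real.exp Real.eulerMascheroniConstant / 2 + η) * g := by ring

end Pool.Agent.J6H67.CG
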