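import Pool.Agent.J6H67.CG.RelB
import Pool.Agent.J6H67.CG.RelC
import Pool.Agent.J6H67.CG.Fin
import Pool.Agent.J6H39.RS.SCA

set_option autoImplicit false

/-!
# Project CG (helper67): sieves which are large infinitely often

If `z(n) ≥ (log n)^ε` for infinitely many `n` (`z` nondecreasing, `≤ n^(o(1))`), then `L ≥ 1 + δ(ε)` almost surely.
-/

namespace Pool.Agent.J6H67.CG

open MeasureTheory Filter Finset
open scoped Topology
open Pool.Agent.J6H39.RS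

/-- as `S_SCA`, with the exponent (proof of helper57) -/
theorem scaA (z : ℕ → ℕ) (hz : Monotone z) (δ0 : ℝ) (hfr : ∃ᶠ n : ℕ in atTop, Real.log n ^ δ0 ≤ (z n : ℝ))
    (ε : ℝ) (hε : 0 < ε) (hε0 : ε ≤ δ0 / 3) (c : ℝ) (hc : 0 < c) :
    ∃ᶠ g : ℕ in atTop, (g : ℝ) ^ ε ≤ (z (XX c g / 2) : ℝ) := by
  apply (SCA.tendsto_gg hc).frequently
  have hL : Tendsto (fun n : ℕ => Real.log n) atTop atTop :=
    Real.tendsto_log_atTop.comp tendsto_natCast_atTop_atTop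
  have hev : ∀ᶠ n : ℕ in atTop, 3 ≤ n ∧ (1 ≤ Real.log n ∧ 4 / c ^ 2 + 2 ≤ Real.log n) := by
    filter_upwards [eventually_ge_atTop 3, hL.eventually_ge_atTop 1,
      hL.eventually_ge_atTop (4 / c ^ 2 + 2)] with n h1 h2 h3
    exact ⟨h1, h2, h3⟩
  refine (hfr.and_eventually hev).mono ?_
  rintro n ⟨hn, hn3, hL1, hL2⟩
  set L := Real.log n with hLdef
  have h3 : (3 : ℝ) ≤ n := by exact_mod_cast hn3
  -- size of `g`
  have hlog : Real.log (2 * n + 1) ≤ 2 * L := by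
    have e : 2 * L = Real.log ((n : ℝ) ^ 2) := by rw [Real.log_pow, hLdef]; norm_num
    rw [e]
    apply Real.log_le_log (by positivity)
    nlinarith
  have hg : (SCA.gg c n : ℝ) ≤ L ^ 3 := by
    have h4 : (SCA.gg c n : ℝ) < (Real.log (2 * n + 1) / c) ^ 2 + 1 := Nat.ceil_lt_add_one (sq_nonneg _)
    have h5 : (Real.log (2 * n + 1) / c) ^ 2 ≤ 4 / c ^ 2 * L ^ 2 := by
      rw [div_pow, div_mul_eq_mul_div]
      apply div_le_div_of_nonneg_right _ (by positivity)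
      have := SCA.log_pos' n
      nlinarith
    have h6 : (4 / c ^ 2 + 2) * L ^ 2 ≤ L ^ 3 := by
      have : L ^ 3 = L * L ^ 2 := by ring
      rw [this]
      exact mul_le_mul_of_nonneg_right hL2 (sq_nonneg _)
    have h7 : 1 ≤ L ^ 2 := one_le_pow₀ hL1
    nlinarith
  have hL0 : (0 : ℝ) ≤ L := by linarith
  calc ((SCA.gg c n : ℕ) : ℝ) ^ ε ≤ (L ^ 3) ^ ε :=
        Real.rpow_le_rpow (Nat.cast_nonneg _) hg hε.le
    _ = L ^ (3 * ε) := by
        rw [← Real.rpow_natCast, ← Real.rpow_mul hL0]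
        norm_num
    _ ≤ L ^ δ0 := Real.rpow_le_rpow_of_exponent_le hL1 (by linarith)
    _ ≤ z n := hn
    _ ≤ z (XX c (SCA.gg c n) / 2) := by exact_mod_cast hz (SCA.le_xx hc n)

/-- a run without members gives a large gap -/
theorem gap_at (T : Set ℕ) {N0 a g : ℕ} (hN : ∀ n, N0 ≤ n → ∃ m ∈ Ioc n (2 * n), m ∈ T)
    (ha : 2 * N0 ≤ a) (hrun : ∀ m ∈ Ioc a (a + g), m ∉ T) : ∃ p ∈ T, N0 < p ∧ p ≤ a ∧ g ≤ gap T p := by
  classical
  obtain ⟨m0, hm0, hm0T⟩ := hN N0 le_rfl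
  rw [mem_Ioc] at hm0
  have hm0a : m0 ≤ a := by omega
  set p := Nat.findGreatest (fun n => n ∈ T) a with hp
  have hpT : p ∈ T := Nat.findGreatest_spec (P := fun n => n ∈ T) hm0a hm0T
  have hpa : p ≤ a := Nat.findGreatest_le a
  have hpm : m0 ≤ p := Nat.le_findGreatest hm0a hm0T
  have hne : {m | m ∈ T ∧ p < m}.Nonempty := by
    obtain ⟨m, hm, hmT⟩ := hN (max N0 p) (le_max_left _ _)
    rw [mem_Ioc] at hm
    exact ⟨m, hmT, lt_of_le_of_lt (le_max_right _ _) hm.1⟩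
  obtain ⟨hqT, hpq⟩ := Nat.sInf_mem hne
  set q := sInf {m | m ∈ T ∧ p < m} with hq
  have hqa : a < q := by
    by_contra hcon
    rw [not_lt] at hcon
    exact Nat.findGreatest_is_greatest (P := fun n => n ∈ T) hpq hcon hqT
  have hqg : a + g < q := by
    by_contra hcon
    rw [not_lt] at hcon
    exact hrun q (mem_Ioc.2 ⟨hqa, hcon⟩) hqT
  have hgap : g ≤ gap T p := by
    unfold gap
    rw [← hq]
    omega
  exact ⟨p, hpT, by omega, hpa, hgap⟩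

/-- infinitely many long runs -/
theorem dlf (T : Set ℕ) (h1 : ∀ᶠ n : ℕ in atTop, ∃ m ∈ Ioc n (2 * n), m ∈ T) (c : ℝ) (hc : 0 < c)
    (h2 : ∃ᶠ g : ℕ in atTop, ∃ a : ℕ, XX c g ≤ 2 * a ∧ a + g ≤ XX c g ∧ ∀ m ∈ Ioc a (a + g), m ∉ T) :
    ((1 / c ^ 2 : ℝ) : EReal) ≤ Lsup T := by
  obtain ⟨N0, hN0⟩ := eventually_atTop.1 h1
  have hXX : Tendsto (fun g : ℕ => XX c g) atTop atTop := by
    unfold XX
    refine tendsto_nat_floor_atTop.comp (Real.tendsto_exp_atTop.comp ?_)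
    exact (Real.tendsto_sqrt_atTop.comp tendsto_natCast_atTop_atTop).const_mul_atTop hc
  unfold Lsup
  refine le_limsup_of_frequently_le ?_ (by isBoundedDefault)
  rw [frequently_inf_principal, frequently_atTop]
  intro N
  obtain ⟨N1, hN1⟩ : ∃ N1, N1 = max N N0 + 2 := ⟨_, rfl⟩
  obtain ⟨g, ⟨a, ha1, ha2, ha3⟩, hg⟩ := (h2.and_eventually (hXX.eventually_ge_atTop (4 * N1))).exists
  obtain ⟨p, hpT, hp1, hp2, hp3⟩ := gap_at T (N0 := N1) (fun n hn => hN0 n (by omega)) (by omega) ha3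
  refine ⟨p, by omega, hpT, ?_⟩
  have hp4 : (1 : ℝ) < p := by
    have : 1 < p := by omega
    exact_mod_cast this
  have hlog : 0 < Real.log p := Real.log_pos hp4
  have h3 : Real.log p ≤ c * √(g : ℝ) := by
    rw [Real.log_le_iff_le_exp (by linarith)]
    have h4 : (p : ℝ) ≤ (XX c g : ℝ) := by
      have : p ≤ XX c g := by omega
      exact_mod_cast this
    exact h4.trans (Nat.floor_le (Real.exp_pos _).le)
  have h5 : Real.log p ^ 2 ≤ c ^ 2 * (gap T p : ℝ) := by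
    calc Real.log p ^ 2 ≤ (c * √(g : ℝ)) ^ 2 := pow_le_pow_left₀ hlog.le h3 2
      _ = c ^ 2 * g := by rw [mul_pow, Real.sq_sqrt (Nat.cast_nonneg g)]
      _ ≤ c ^ 2 * (gap T p : ℝ) := by
          apply mul_le_mul_of_nonneg_left _ (sq_nonneg c)
          exact_mod_cast hp3
  rw [EReal.coe_le_coe_iff, div_le_div_iff₀ (by positivity) (by positivity)]
  linarith

/-- sieves which are `≥ (log n)^ε` infinitely often -/
theorem rel : ∀ ε : ℝ, 0 < ε → ∃ δ : ℝ, 0 < δ ∧ ∀ z : ℕ → ℕ, Monotone z → Sub z →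
    (∃ᶠ n : ℕ in atTop, Real.log n ^ ε ≤ (z n : ℝ)) →
    ∀ {Ω : Type} [mΩ : MeasurableSpace Ω] (μ : Measure Ω) [IsProbabilityMeasure μ]
      (ℱ : Filtration ℕ mΩ) (S : ℕ → Set Ω), IsModel μ ℱ S z →
      ∀ᵐ ω ∂μ, ((1 + δ : ℝ) : EReal) ≤ Lsup {k | ω ∈ S k} := by
  intro ε hε
  obtain ⟨δ, hδ0, hδ1, hT⟩ := thA t_IRR (ε / 3) (by positivity)
  refine ⟨δ / 2, by positivity, ?_⟩
  intro z hz hs hfr Ω mΩ μ _ ℱ S hM'
  have hp : 0 < 1 - δ / 2 := by linarith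
  obtain ⟨c, hcdef⟩ : ∃ c, c = √(1 - δ / 2) := ⟨_, rfl⟩
  have hc2 : c ^ 2 = 1 - δ / 2 := by rw [hcdef, Real.sq_sqrt hp.le]
  have hc : 0 < c := by rw [hcdef]; exact Real.sqrt_pos.2 hp
  have hM : ManyA {g : ℕ | (g : ℝ) ^ (ε / 3) ≤ (z (XX c g / 2) : ℝ)} z (1 - δ) c :=
    mnyA (t_BLK t_FLP) _ z hz hs (1 - δ) c (by linarith) (by linarith) hc (hT z c hc)
  have hCRG : S_CRG := t_CRG t_FLI t_PU t_RB t_WSM
  filter_upwards [hCRG μ ℱ S z hM' hz hs,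
    lwgA t_PL t_RB μ ℱ S z hM' (t_WSM z hs) _ (1 - δ) c (by linarith) hc (by rw [hc2]; linarith) hM] with ω h1 h2
  have h3 := (scaA z hz ε hfr (ε / 3) (by positivity) le_rfl c hc).and_eventually h2
  refine le_trans ?_ (dlf _ h1 c hc (h3.mono fun g hg => hg.2 hg.1))
  rw [EReal.coe_le_coe_iff, hc2, le_div_iff₀ hp]
  nlinarith

/-- the exact criterion for Cramér's constant `1` -/
theorem crit : ∀ z : ℕ → ℕ, Monotone z → Sub z →
    ∀ {Ω : Type} [mΩ : MeasurableSpace Ω] (μ : Measure Ω) [IsProbabilityMeasure μ]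
      (ℱ : Filtration ℕ mΩ) (S : ℕ → Set Ω), IsModel μ ℱ S z →
      ((∀ᵐ ω ∂μ, Lsup {k | ω ∈ S k} = 1) ↔ ∀ δ : ℝ, 0 < δ → ∀ᶠ n : ℕ in atTop, (z n : ℝ) ≤ Real.log n ^ δ) := by
  intro z hz hs Ω mΩ μ _ ℱ S hM
  constructor
  · intro h
    by_contra hcon
    push Not at hcon
    obtain ⟨ε, hε, hfr⟩ := hcon
    obtain ⟨δ, hδ, hr⟩ := rel ε hε
    obtain ⟨ω, h1, h2⟩ := (h.and (hr z hz hs (hfr.mono fun n hn => hn.le) μ ℱ S hM)).exists
    rw [h1] at h2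
    have h3 : ((1 + δ : ℝ) : EReal) ≤ ((1 : ℝ) : EReal) := h2
    rw [EReal.coe_le_coe_iff] at h3
    linarith
  · intro h
    filter_upwards [fin.1 z hz h μ ℱ S hM] with ω hω
    exact hω.1

end Pool.Agent.J6H67.CG
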