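import Pool.Agent.J6H67.CG.MNY
import Pool.Agent.J6H39.RS.Stm2

set_option autoImplicit false

/-!
# Project CG: relative version of module MNY (a set `A` of admissible `g`); proof as in `MNY.lean` (helper45)
-/

namespace Pool.Agent.J6H67.CG

open MeasureTheory Filter Finset
open scoped Topology
open Pool.Agent.J6H39.RS

/-- as `Thin`, for the `g ∈ A` only -/
def ThinA (A : Set ℕ) (z : ℕ → ℕ) (κ c : ℝ) : Prop := ∀ η : ℝ, 0 < η → ∀ᶠ g : ℕ in atTop, g ∈ A →
  ∃ P : Finset ℕ,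
  (∀ p ∈ P, p.Prime ∧ p ≤ z (XX c g / 2)) ∧ ((∏ p ∈ P, p : ℕ) : ℝ) ≤ (XX c g : ℝ) ^ η ∧
  (((Icc 1 g).filter (fun h => ∀ p ∈ P, ¬ p ∣ h)).card : ℝ) ≤ (κ + η) * g * ∏ p ∈ P, (1 - (p : ℝ)⁻¹)

open MNYaux in
/-- the relative version of `t_MNY` -/
theorem mnyA (hBLK : S_BLK) (A : Set ℕ) (z : ℕ → ℕ) (hz : Monotone z) (hsub : Sub z) (κ c : ℝ)
    (hκ0 : 0 < κ) (hκ2 : κ ≤ 2) (hc : 0 < c) (hThin : ThinA A z κ c) : ManyA A z κ c := by
  classical
  intro η0 hη0
  obtain ⟨η, hη⟩ : ∃ η, η = min η0 (1 / 2) := ⟨_, rfl⟩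
  have hη1 : 0 < η := by
    rw [hη]
    exact lt_min hη0 (by norm_num)
  have hη2 : η ≤ 1 / 2 := by
    rw [hη]
    exact min_le_right _ _
  have hη3 : η ≤ η0 := by
    rw [hη]
    exact min_le_left _ _
  obtain ⟨η1, hη1'⟩ : ∃ η1, η1 = η / 16 := ⟨_, rfl⟩
  have h10 : 0 < η1 := by
    rw [hη1']
    positivity
  obtain ⟨C, hC⟩ := hBLK η1 h10
  obtain ⟨σ, hσ⟩ : ∃ σ : ℝ, σ = η1 / (2 * (C + 2)) := ⟨_, rfl⟩
  have hσ0 : 0 < σ := by
    rw [hσ]
    positivity
  have hCσ : C * σ ≤ η1 / 2 := by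
    rw [hσ, mul_div_assoc', div_le_div_iff₀ (by positivity) (by norm_num)]
    have : (0 : ℝ) ≤ C := Nat.cast_nonneg _
    nlinarith
  have hσ1 : σ ≤ η1 := by
    rw [hσ]
    apply div_le_self h10.le
    have : (0 : ℝ) ≤ C := Nat.cast_nonneg _
    linarith
  -- asymptotic facts
  have hXt := XX_tendsto c hc
  have hyt : Tendsto (fun g : ℕ => Real.log ((XX c g : ℕ) : ℝ)) atTop atTop :=
    Real.tendsto_log_atTop.comp (tendsto_natCast_atTop_atTop.comp hXt)
  filter_upwards [hThin η1 h10, hXt.eventually_ge_atTop 4,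
    hXt.eventually (hsub σ hσ0),
    hyt.eventually (evB c η1 hc h10),
    hyt.eventually (evC η1 2 h10),
    hyt.eventually (evC (3 * η / 4) 4 (by positivity)),
    hyt.eventually (evC (η1 / 2) (C * 2 ^ (C + 1) / η1) (by positivity)),
    hyt.eventually_ge_atTop (10 : ℝ), hyt.eventually_ge_atTop (2 * (κ + η0) / η)]
    with g gThin gX gV gB gC gE gF g10 gδ gA
  replace gThin := gThin gA
  obtain ⟨X, hX⟩ : ∃ X, X = XX c g := ⟨_, rfl⟩
  rw [← hX] at gX gV gB gC gE gF g10 gδ gThin ⊢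
  obtain ⟨y, hy⟩ : ∃ y, y = Real.log (X : ℝ) := ⟨_, rfl⟩
  rw [← hy] at gB gC gE gF g10 gδ
  obtain ⟨P, hP1, hP2, hP3⟩ := gThin
  have hXr : (4 : ℝ) ≤ X := by exact_mod_cast gX
  have hXpos : (0 : ℝ) < X := by linarith
  have hXexp : (X : ℝ) = Real.exp y := by rw [hy, Real.exp_log hXpos]
  have hXpow : ∀ s : ℝ, (X : ℝ) ^ s = Real.exp (s * y) := by
    intro s
    rw [Real.rpow_def_of_pos hXpos, ← hy, mul_comm]
  have hlog2 : Real.log 2 ≤ 1 := by
    have := Real.log_two_lt_d9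
    linarith
  have hlog20 : 0 < Real.log 2 := Real.log_pos (by norm_num)
  obtain ⟨hL1, hL2⟩ := XX_log c g (by rw [← hX]; omega)
  rw [← hX, ← hy] at hL1 hL2
  have hsq0 : 0 ≤ √(g : ℝ) := Real.sqrt_nonneg _
  have hcs : c * √(g : ℝ) ≤ 2 * y := by linarith
  have hgy : (g : ℝ) ≤ 4 * y ^ 2 / c ^ 2 := by
    rw [le_div_iff₀ (by positivity)]
    have h1 := pow_le_pow_left₀ (by positivity) hcs 2
    rw [mul_pow, Real.sq_sqrt (Nat.cast_nonneg _)] at h1
    nlinarith
  obtain ⟨V, hV⟩ : ∃ V, V = z X := ⟨_, rfl⟩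
  have hVy : (V : ℝ) ≤ Real.exp (σ * y) := by
    rw [← hXpow, hV]
    exact gV
  -- the block length
  obtain ⟨Q, hQ⟩ : ∃ Q, Q = ∏ p ∈ P, p := ⟨_, rfl⟩
  have hP : ∀ p ∈ P, p.Prime := fun p hp => (hP1 p hp).1
  have hQ0 : 0 < Q := by
    rw [hQ]
    exact Finset.prod_pos (fun p hp => (hP p hp).pos)
  have hQy : (Q : ℝ) ≤ Real.exp (η1 * y) := by
    rw [← hXpow, hQ]
    exact hP2
  obtain ⟨T, hT⟩ : ∃ T, T = ⌊Real.exp (η1 * y)⌋₊ := ⟨_, rfl⟩
  have hT1 : (T : ℝ) ≤ Real.exp (η1 * y) := by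
    rw [hT]
    exact Nat.floor_le (Real.exp_pos _).le
  have hT2 : Real.exp (η1 * y) < T + 1 := by
    rw [hT]
    exact Nat.lt_floor_add_one _
  have hT3 : 1 ≤ T := by
    have : (1 : ℝ) < T + 1 := by linarith
    have h2 : (0 : ℝ) < T := by linarith
    exact_mod_cast h2
  have hT4 : Real.exp (η1 * y) / 2 ≤ T := by linarith
  have hT0 : (0 : ℝ) < T := by
    have : 0 < T := hT3
    exact_mod_cast this
  obtain ⟨D, hD⟩ : ∃ D, D = Q * (T + g) := ⟨_, rfl⟩
  have hD0' : 0 < D := by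
    rw [hD]
    exact Nat.mul_pos hQ0 (by omega)
  have hD0 : (0 : ℝ) < D := by exact_mod_cast hD0'
  have hDr : (D : ℝ) ≤ Real.exp (η / 4 * y) := by
    rw [hD]
    push_cast
    have h1 : Real.exp (η / 4 * y) =
        Real.exp (η1 * y) * (Real.exp (η1 * y) * (Real.exp (η1 * y) * Real.exp (η1 * y))) := by
      rw [← Real.exp_add, ← Real.exp_add, ← Real.exp_add]
      congr 1
      rw [hη1']
      ring
    rw [h1]
    have h2 : (T : ℝ) + g ≤ Real.exp (η1 * y) * (Real.exp (η1 * y) * Real.exp (η1 * y)) := by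
      have h3 : (g : ℝ) ≤ Real.exp (η1 * y) := by linarith
      have h4 : (1 : ℝ) ≤ Real.exp (η1 * y) := by linarith
      have h5 : Real.exp (η1 * y) * 2 ≤ Real.exp (η1 * y) * (Real.exp (η1 * y) * Real.exp (η1 * y)) := by
        apply mul_le_mul_of_nonneg_left _ (Real.exp_pos _).le
        nlinarith
      linarith
    exact mul_le_mul hQy h2 (by positivity) (Real.exp_pos _).le
  -- the error term
  obtain ⟨K0, hK0⟩ : ∃ K0 : ℝ, K0 = (1 + η1) * (κ + η1) + C * ((V : ℝ) + 1) ^ C / T := ⟨_, rfl⟩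
  have hK00 : 0 ≤ K0 := by
    rw [hK0]
    positivity
  have herr : C * ((V : ℝ) + 1) ^ C / T ≤ η1 := by
    have h1 : (V : ℝ) + 1 ≤ 2 * Real.exp (σ * y) := by
      have : 1 ≤ Real.exp (σ * y) := Real.one_le_exp (by positivity)
      linarith
    have h2 : ((V : ℝ) + 1) ^ C ≤ 2 ^ C * Real.exp (η1 / 2 * y) := by
      calc ((V : ℝ) + 1) ^ C ≤ (2 * Real.exp (σ * y)) ^ C := by gcongr
        _ = 2 ^ C * Real.exp (C * (σ * y)) := by rw [mul_pow, ← Real.exp_nat_mul]
        _ ≤ 2 ^ C * Real.exp (η1 / 2 * y) := by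
            apply mul_le_mul_of_nonneg_left _ (by positivity)
            apply Real.exp_le_exp.2
            have h3 : (0 : ℝ) ≤ y := by linarith
            calc C * (σ * y) = (C * σ) * y := by ring
              _ ≤ η1 / 2 * y := mul_le_mul_of_nonneg_right hCσ h3
    rw [div_le_iff₀ hT0]
    have h3 : C * 2 ^ (C + 1) ≤ η1 * Real.exp (η1 / 2 * y) := by
      rw [div_le_iff₀ h10] at gF
      linarith
    have h4 : Real.exp (η1 * y) = Real.exp (η1 / 2 * y) * Real.exp (η1 / 2 * y) := by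
      rw [← Real.exp_add]
      congr 1
      ring
    have h5 : (C : ℝ) * ((V : ℝ) + 1) ^ C ≤ C * (2 ^ C * Real.exp (η1 / 2 * y)) :=
      mul_le_mul_of_nonneg_left h2 (Nat.cast_nonneg _)
    have h6 := mul_le_mul_of_nonneg_right h3 (Real.exp_pos (η1 / 2 * y)).le
    have h7 : (C : ℝ) * (2 ^ C * Real.exp (η1 / 2 * y)) = C * 2 ^ (C + 1) * Real.exp (η1 / 2 * y) / 2 := by
      rw [pow_succ]
      ring
    have h8 : η1 * (Real.exp (η1 * y) / 2) ≤ η1 * T := mul_le_mul_of_nonneg_left hT4 h10.le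
    rw [h4] at h8
    rw [h7] at h5
    linarith
  have hK1 : K0 ≤ κ + 5 * η / 16 := by
    have h1 : η1 ≤ 1 / 32 := by
      rw [hη1']
      linarith
    have h2 : 5 * η / 16 = 5 * η1 := by
      rw [hη1']
      ring
    rw [hK0, h2]
    have h3 : η1 * κ ≤ η1 * 2 := mul_le_mul_of_nonneg_left hκ2 h10.le
    have h4 : η1 * η1 ≤ η1 * (1 / 32) := mul_le_mul_of_nonneg_left h1 h10.le
    linarith
  obtain ⟨J, hJ1, hJ2, hJ3, hJ4⟩ := core z hz X V D g K0 hK00 gX hD0' hV.symm (by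
    intro t h1 h2 h3
    have h4 : z (X / 2) ≤ z (t * D) := hz (by omega)
    have h5 : z (t * D) ≤ V := by
      rw [hV]
      apply hz
      have h6 : (t + 1) * D = t * D + D := by ring
      omega
    obtain ⟨a, ha1, ha2, ha3⟩ := block η1 h10 C hC P hP z hz Q t D V g T (κ + η1) hQ hD hT3
      (by omega) h5 h3 (fun p hp => (hP1 p hp).2.trans h4) hP3
    rw [← hK0] at ha3
    exact ⟨a, ha1, ha2, ha3⟩)
  refine ⟨J, hJ1, hJ2, le_trans ?_ hJ3, fun a ha => (hJ4 a ha).trans ?_⟩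
  · -- the number of intervals
    have h1 : (X : ℝ) ^ (1 - η0) ≤ (X : ℝ) ^ (1 - η) :=
      Real.rpow_le_rpow_of_exponent_le (by linarith) (by linarith)
    refine h1.trans ?_
    rw [hXpow]
    have h3 : Real.exp ((1 - η / 4) * y) / 2 ≤ (X : ℝ) / (2 * D) := by
      rw [hXexp, div_le_div_iff₀ (by norm_num) (by positivity)]
      have h4 : Real.exp y = Real.exp ((1 - η / 4) * y) * Real.exp (η / 4 * y) := by
        rw [← Real.exp_add]
        congr 1
        ring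
      rw [h4]
      have h5 := mul_le_mul_of_nonneg_left hDr (Real.exp_pos ((1 - η / 4) * y)).le
      linarith
    have h5 : Real.exp ((1 - η / 4) * y) = Real.exp ((1 - η) * y) * Real.exp (3 * η / 4 * y) := by
      rw [← Real.exp_add]
      congr 1
      ring
    have h7 : 2 + (V : ℝ) ≤ Real.exp ((1 - η) * y) := by
      have h8 : Real.exp (1 / 2 * y) ≤ Real.exp ((1 - η) * y) := by
        apply Real.exp_le_exp.2
        exact mul_le_mul_of_nonneg_right (by linarith) (by linarith)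
      refine le_trans ?_ h8
      have h9 : (V : ℝ) ≤ Real.exp (1 / 4 * y) := by
        refine hVy.trans (Real.exp_le_exp.2 ?_)
        have h11 : σ ≤ 1 / 4 := by
          have : η1 ≤ 1 / 32 := by
            rw [hη1']
            linarith
          linarith
        exact mul_le_mul_of_nonneg_right h11 (by linarith)
      have h12 : Real.exp (1 / 2 * y) = Real.exp (1 / 4 * y) * Real.exp (1 / 4 * y) := by
        rw [← Real.exp_add]
        congr 1
        ring
      have h13 := Real.add_one_le_exp (1 / 4 * y)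
      have h14 : (3 : ℝ) ≤ Real.exp (1 / 4 * y) := by linarith
      have h15 := mul_le_mul_of_nonneg_right h14 (Real.exp_pos (1 / 4 * y)).le
      rw [h12]
      linarith
    have h8 : 2 * Real.exp ((1 - η) * y) ≤ Real.exp ((1 - η / 4) * y) / 2 := by
      rw [h5]
      have := mul_le_mul_of_nonneg_left gE (Real.exp_pos ((1 - η) * y)).le
      linarith
    linarith
  · -- the density
    rw [← hy]
    have hy2 : 0 < y - Real.log 2 := by linarith
    have hy0 : 0 < y := by linarith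
    rw [div_le_iff₀ hη1] at gδ
    rw [← mul_div_assoc, ← mul_div_assoc, div_le_div_iff₀ hy2 hy0]
    have h1 : K0 * y ≤ (κ + η0) * (y - Real.log 2) := by
      have h2 : K0 * y ≤ (κ + 5 * η / 16) * y := mul_le_mul_of_nonneg_right hK1 hy0.le
      have h3 : (κ + η0) * Real.log 2 ≤ (κ + η0) * 1 :=
        mul_le_mul_of_nonneg_left hlog2 (by linarith)
      have h4 : η * y ≤ η0 * y := mul_le_mul_of_nonneg_right hη3 hy0.le
      linarith
    have h2 : (0 : ℝ) ≤ g := Nat.cast_nonneg _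
    have h3 := mul_le_mul_of_nonneg_left h1 h2
    linarith

end Pool.Agent.J6H67.CG
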