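import Pool.Agent.J6H67.CG.Rel

set_option autoImplicit false

/-!
# Project CG: sieves which are `≥ (log n)^(1 - κ)` infinitely often, for each `κ`; `Gsup = Lsup`
-/

namespace Pool.Agent.J6H67.CG

open MeasureTheory Filter Finset
open scoped Topology
open Pool.Agent.J6H39.RS

open TH4aux in
/-- the relative version of `t_TH4` (proof of helper31) -/
theorem thB (h : S_PN2) : ∀ η0 : ℝ, 0 < η0 → ∃ κ : ℝ, 0 < κ ∧ κ < 1 / 3 ∧ ∀ z : ℕ → ℕ, ∀ c : ℝ, 0 < c →
    ThinA {g : ℕ | (g : ℝ) ^ ((1 - κ) / 2) ≤ (z (XX c g / 2) : ℝ)} z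
      (Real.exp Real.eulerMascheroniConstant / 2 + η0) c := by
  intro η0 hη0
  obtain ⟨κ, hκ0, hκ3, hκ⟩ := h η0 hη0
  refine ⟨κ, hκ0, hκ3, ?_⟩
  intro z c hc η hη
  have hlim2 : ∀ᶠ x : ℝ in atTop, Real.log 4 / (η * (c / 2)) ≤ x ^ κ :=
    (tendsto_rpow_atTop hκ0).eventually_ge_atTop _
  filter_upwards [hκ, XX_half hc, sq_tend.eventually hlim2,
    sq_tend.eventually_gt_atTop 0, (half_tend hc).eventually_ge_atTop 1] with g h1 h3 h5 h6 h7 gS
  refine ⟨(Icc 1 ⌊(g : ℝ) ^ ((1 - κ) / 2)⌋₊).filter Nat.Prime, ?_, ?_, ?_⟩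
  · intro p hp
    rw [mem_filter, mem_Icc] at hp
    exact ⟨hp.2, hp.1.2.trans (Nat.floor_le_of_le gS)⟩
  · refine (prod_le _).trans ?_
    have hX1 : 1 ≤ XX c g / 2 := h7
    have hX : (0 : ℝ) < (XX c g : ℝ) := by
      have : 0 < XX c g := by omega
      exact_mod_cast this
    have hX2 : c / 2 * √(g : ℝ) ≤ Real.log (XX c g) := by
      refine h3.trans (Real.log_le_log (by exact_mod_cast hX1) ?_)
      exact_mod_cast Nat.div_le_self _ _
    have hlog4 : 0 < Real.log 4 := Real.log_pos (by norm_num)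
    have e1 : ((4 : ℝ) ^ ⌊(g : ℝ) ^ ((1 - κ) / 2)⌋₊) =
        Real.exp (Real.log 4 * (⌊(g : ℝ) ^ ((1 - κ) / 2)⌋₊ : ℝ)) := by
      rw [← Real.rpow_natCast, Real.rpow_def_of_pos (by norm_num)]
    rw [e1, Real.rpow_def_of_pos hX]
    apply Real.exp_le_exp.2
    calc Real.log 4 * (⌊(g : ℝ) ^ ((1 - κ) / 2)⌋₊ : ℝ) ≤ Real.log 4 * (g : ℝ) ^ ((1 - κ) / 2) :=
          mul_le_mul_of_nonneg_left (Nat.floor_le (by positivity)) hlog4.le
      _ = Real.log 4 * √(g : ℝ) ^ (1 - κ) := by rw [sqrt_pow]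
      _ ≤ (√(g : ℝ) ^ κ * (η * (c / 2))) * √(g : ℝ) ^ (1 - κ) := by
          refine mul_le_mul_of_nonneg_right ?_ (by positivity)
          rwa [div_le_iff₀ (by positivity)] at h5
      _ = (η * (c / 2)) * (√(g : ℝ) ^ κ * √(g : ℝ) ^ (1 - κ)) := by ring
      _ = (η * (c / 2)) * √(g : ℝ) := by
          rw [← Real.rpow_add h6]
          have : κ + (1 - κ) = 1 := by ring
          rw [this, Real.rpow_one]
      _ = (c / 2 * √(g : ℝ)) * η := by ring
      _ ≤ Real.log (XX c g) * η := mul_le_mul_of_nonneg_right hX2 hη.le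
  · refine h1.trans ?_
    have h8 : (0 : ℝ) ≤ g * ∏ p ∈ (Icc 1 ⌊(g : ℝ) ^ ((1 - κ) / 2)⌋₊).filter Nat.Prime, (1 - (p : ℝ)⁻¹) := by
      refine mul_nonneg (Nat.cast_nonneg _) (Finset.prod_nonneg fun p hp => ?_)
      rw [mem_filter] at hp
      exact (MNYaux.one_sub_inv_pos p hp.2).le
    have h9 : Real.exp Real.eulerMascheroniConstant / 2 + η0 ≤
        Real.exp Real.eulerMascheroniConstant / 2 + η0 + η := by linarith
    have h10 := mul_le_mul_of_nonneg_right h9 h8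
    rw [mul_assoc, mul_assoc]
    exact h10

/-- as `scaA`, near the exponent `1/2` -/
theorem scaB (z : ℕ → ℕ) (hz : Monotone z) (κ : ℝ) (hκ0 : 0 < κ) (hκ1 : κ < 1)
    (hfr : ∃ᶠ n : ℕ in atTop, Real.log n ^ (1 - κ / 2) ≤ (z n : ℝ)) (c : ℝ) (hc : 0 < c) :
    ∃ᶠ g : ℕ in atTop, (g : ℝ) ^ ((1 - κ) / 2) ≤ (z (XX c g / 2) : ℝ) := by
  apply (SCA.tendsto_gg hc).frequently
  have hL : Tendsto (fun n : ℕ => Real.log n) atTop atTop :=
    Real.tendsto_log_atTop.comp tendsto_natCast_atTop_atTop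
  have hLk : ∀ᶠ x : ℝ in atTop, (4 / c ^ 2 + 1) ^ ((1 - κ) / 2) ≤ x ^ (κ / 2) :=
    (tendsto_rpow_atTop (by positivity : 0 < κ / 2)).eventually_ge_atTop _
  have hev : ∀ᶠ n : ℕ in atTop, 3 ≤ n ∧ (1 ≤ Real.log n ∧
      (4 / c ^ 2 + 1) ^ ((1 - κ) / 2) ≤ Real.log n ^ (κ / 2)) := by
    filter_upwards [eventually_ge_atTop 3, hL.eventually_ge_atTop 1, hL.eventually hLk] with n h1 h2 h3
    exact ⟨h1, h2, h3⟩
  refine (hfr.and_eventually hev).mono ?_
  rintro n ⟨hn, hn3, hL1, hL2⟩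
  set L := Real.log n with hLdef
  have h3 : (3 : ℝ) ≤ n := by exact_mod_cast hn3
  have hlog : Real.log (2 * n + 1) ≤ 2 * L := by
    have e : 2 * L = Real.log ((n : ℝ) ^ 2) := by rw [Real.log_pow, hLdef]; norm_num
    rw [e]
    apply Real.log_le_log (by positivity)
    nlinarith
  have hg : (SCA.gg c n : ℝ) ≤ (4 / c ^ 2 + 1) * L ^ 2 := by
    have h4 : (SCA.gg c n : ℝ) < (Real.log (2 * n + 1) / c) ^ 2 + 1 := Nat.ceil_lt_add_one (sq_nonneg _)
    have h5 : (Real.log (2 * n + 1) / c) ^ 2 ≤ 4 / c ^ 2 * L ^ 2 := by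
      rw [div_pow, div_mul_eq_mul_div]
      apply div_le_div_of_nonneg_right _ (by positivity)
      have := SCA.log_pos' n
      nlinarith
    have h7 : 1 ≤ L ^ 2 := one_le_pow₀ hL1
    nlinarith
  have hL0 : (0 : ℝ) < L := by linarith
  have hK : (0 : ℝ) ≤ 4 / c ^ 2 + 1 := by positivity
  calc ((SCA.gg c n : ℕ) : ℝ) ^ ((1 - κ) / 2) ≤ ((4 / c ^ 2 + 1) * L ^ 2) ^ ((1 - κ) / 2) :=
        Real.rpow_le_rpow (Nat.cast_nonneg _) hg (by linarith)
    _ = (4 / c ^ 2 + 1) ^ ((1 - κ) / 2) * L ^ (1 - κ) := by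
        rw [Real.mul_rpow hK (by positivity)]
        congr 1
        rw [← Real.rpow_natCast, ← Real.rpow_mul hL0.le]
        congr 1
        push_cast
        ring
    _ ≤ L ^ (κ / 2) * L ^ (1 - κ) := mul_le_mul_of_nonneg_right hL2 (by positivity)
    _ = L ^ (1 - κ / 2) := by
        rw [← Real.rpow_add hL0]
        congr 1
        ring
    _ ≤ z n := hn
    _ ≤ z (XX c (SCA.gg c n) / 2) := by exact_mod_cast hz (SCA.le_xx hc n)

/-- sieves which are `≥ (log n)^(1-κ)` infinitely often, for each `κ > 0` -/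
theorem relB : ∀ z : ℕ → ℕ, Monotone z → Sub z →
    (∀ κ : ℝ, 0 < κ → ∃ᶠ n : ℕ in atTop, Real.log n ^ (1 - κ) ≤ (z n : ℝ)) →
    ∀ {Ω : Type} [mΩ : MeasurableSpace Ω] (μ : Measure Ω) [IsProbabilityMeasure μ]
      (ℱ : Filtration ℕ mΩ) (S : ℕ → Set Ω), IsModel μ ℱ S z →
      ∀ᵐ ω ∂μ, ((2 * Real.exp (-Real.eulerMascheroniConstant) : ℝ) : EReal) ≤ Lsup {k | ω ∈ S k} := by
  intro z hz hs hfr Ω mΩ μ _ ℱ S hM'
  obtain ⟨K, hK⟩ : ∃ K, K = Real.exp Real.eulerMascheroniConstant / 2 := ⟨_, rfl⟩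
  have hK0 : 0 < K := by rw [hK]; positivity
  have hK2 : K < 2 - 1 / 2 := by
    have h1 : Real.eulerMascheroniConstant < 2 / 3 := Real.eulerMascheroniConstant_lt_two_thirds
    have h2 : Real.exp Real.eulerMascheroniConstant < Real.exp 1 := Real.exp_lt_exp.2 (by linarith)
    have h3 := Real.exp_one_lt_d9
    rw [hK]
    linarith
  have key : ∀ k : ℕ, ∀ᵐ ω ∂μ, ((1 / (K + 1 / ((k : ℝ) + 1)) : ℝ) : EReal) ≤ Lsup {k | ω ∈ S k} := by
    intro k
    have hk : 0 < 1 / ((k : ℝ) + 1) := by positivity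
    have hk1 : 1 / ((k : ℝ) + 1) ≤ 1 := by
      rw [div_le_one (by positivity)]
      have : (0 : ℝ) ≤ k := Nat.cast_nonneg k
      linarith
    obtain ⟨d, hd⟩ : ∃ d, d = 1 / ((k : ℝ) + 1) := ⟨_, rfl⟩
    rw [← hd] at hk hk1 ⊢
    obtain ⟨κ, hκ0, hκ3, hT⟩ := thB t_PN2 (d / 2) (by positivity)
    rw [← hK] at hT
    obtain ⟨c, hcdef⟩ : ∃ c, c = √(K + d) := ⟨_, rfl⟩
    have hc2 : c ^ 2 = K + d := by rw [hcdef, Real.sq_sqrt (by linarith)]
    have hc : 0 < c := by rw [hcdef]; exact Real.sqrt_pos.2 (by linarith)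
    have hM : ManyA {g : ℕ | (g : ℝ) ^ ((1 - κ) / 2) ≤ (z (XX c g / 2) : ℝ)} z (K + d / 2) c :=
      mnyA (t_BLK t_FLP) _ z hz hs (K + d / 2) c (by linarith) (by linarith) hc (hT z c hc)
    have hCRG : S_CRG := t_CRG t_FLI t_PU t_RB t_WSM
    filter_upwards [hCRG μ ℱ S z hM' hz hs,
      lwgA t_PL t_RB μ ℱ S z hM' (t_WSM z hs) _ (K + d / 2) c (by linarith) hc (by rw [hc2]; linarith) hM]
      with ω h1 h2
    have h3 := (scaB z hz κ hκ0 (by linarith) (hfr (κ / 2) (by positivity)) c hc).and_eventually h2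
    rw [← hc2]
    exact dlf _ h1 c hc (h3.mono fun g hg => hg.2 hg.1)
  filter_upwards [ae_all_iff.2 key] with ω hω
  have h2 : Tendsto (fun k : ℕ => ((1 / (K + 1 / ((k : ℝ) + 1)) : ℝ) : EReal)) atTop
      (𝓝 ((1 / K : ℝ) : EReal)) := by
    apply (continuous_coe_real_ereal.tendsto _).comp
    have h3 : Tendsto (fun k : ℕ => K + 1 / ((k : ℝ) + 1)) atTop (𝓝 (K + 0)) :=
      tendsto_one_div.const_add K
    rw [add_zero] at h3
    have h4 := h3.inv₀ hK0.ne'
    rw [one_div]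
    refine h4.congr fun k => ?_
    rw [one_div (K + 1 / ((k : ℝ) + 1))]
  have h5 := le_of_tendsto h2 (Eventually.of_forall hω)
  refine le_trans (le_of_eq ?_) h5
  congr 1
  rw [hK, Real.exp_neg]
  have := Real.exp_pos Real.eulerMascheroniConstant
  field_simp

/-- `limsup G(x)/log² x = L` -/
theorem gsup_eq {T : Set ℕ} (hT : T.Infinite) : Gsup T = Lsup T := by
  classical
  apply le_antisymm
  · refine le_of_forall_gt_imp_ge_of_dense fun c' hc' => ?_
    obtain ⟨c, hc1, hc2⟩ := EReal.lt_iff_exists_real_btwn.1 hc'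
    refine le_trans ?_ hc2.le
    have hc0 : 0 < c := by
      have := (dls_nonneg hT).trans_lt hc1
      exact_mod_cast this
    have hev : ∀ᶠ n in atTop ⊓ 𝓟 T, (((gap T n : ℝ) / Real.log n ^ 2 : ℝ) : EReal) < (c : EReal) :=
      eventually_lt_of_limsup_lt hc1
    rw [eventually_inf_principal] at hev
    obtain ⟨N, hN⟩ := eventually_atTop.1 hev
    have hlog : Tendsto (fun x : ℕ => c * Real.log x ^ 2) atTop atTop := by
      refine Tendsto.const_mul_atTop hc0 ?_
      exact (tendsto_pow_atTop two_ne_zero).comp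
        (Real.tendsto_log_atTop.comp tendsto_natCast_atTop_atTop)
    have hmain : ∀ᶠ x : ℕ in atTop,
        (((maxGap T x : ℝ) / Real.log x ^ 2 : ℝ) : EReal) ≤ (c : EReal) := by
      filter_upwards [hlog.eventually_ge_atTop ((maxGap T (N + 2) : ℕ) : ℝ),
        eventually_ge_atTop 3] with x hx hx3
      have hlx : 0 < Real.log x := Real.log_pos (by exact_mod_cast (by omega : 1 < x))
      have hB : 0 ≤ c * Real.log x ^ 2 := by positivity
      have h1 : maxGap T x ≤ ⌊c * Real.log x ^ 2⌋₊ := by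
        unfold maxGap
        refine Finset.sup_le fun n hn => ?_
        obtain ⟨hn1, hn2⟩ := Finset.mem_filter.1 hn
        rw [Finset.mem_range] at hn1
        refine Nat.le_floor ?_
        by_cases hnN : n ≤ N + 2
        · refine le_trans ?_ hx
          have : gap T n ≤ maxGap T (N + 2) := by
            unfold maxGap
            exact Finset.le_sup (f := gap T)
              (Finset.mem_filter.2 ⟨Finset.mem_range.2 (by omega), hn2⟩)
          exact_mod_cast this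
        · have h2 := hN n (by omega) hn2
          have h3 : (gap T n : ℝ) / Real.log n ^ 2 < c := by exact_mod_cast h2
          have hln : 0 < Real.log n := Real.log_pos (by exact_mod_cast (by omega : 1 < n))
          rw [div_lt_iff₀ (by positivity)] at h3
          have h4 : Real.log n ≤ Real.log x :=
            Real.log_le_log (by exact_mod_cast (by omega : 0 < n))
              (by exact_mod_cast (by omega : n ≤ x))
          have h5 : Real.log n ^ 2 ≤ Real.log x ^ 2 := pow_le_pow_left₀ hln.le h4 2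
          exact h3.le.trans (mul_le_mul_of_nonneg_left h5 hc0.le)
      have h6 : (maxGap T x : ℝ) ≤ c * Real.log x ^ 2 :=
        (by exact_mod_cast h1 : (maxGap T x : ℝ) ≤ (⌊c * Real.log x ^ 2⌋₊ : ℝ)).trans
          (Nat.floor_le hB)
      have h7 : (maxGap T x : ℝ) / Real.log x ^ 2 ≤ c := by
        rw [div_le_iff₀ (by positivity)]
        exact h6
      exact_mod_cast h7
    unfold Gsup
    exact limsup_le_of_le (by isBoundedDefault) hmain
  · unfold Lsup Gsup
    refine le_trans (limsup_le_limsup ?_ (by isBoundedDefault) (by isBoundedDefault))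
      (limsup_le_limsup_of_le inf_le_left (by isBoundedDefault) (by isBoundedDefault))
    rw [EventuallyLE, eventually_inf_principal]
    filter_upwards [eventually_ge_atTop 2] with n hn hnT
    have hln : 0 < Real.log n := Real.log_pos (by exact_mod_cast (by omega : 1 < n))
    have h1 : gap T n ≤ maxGap T n := by
      unfold maxGap
      exact Finset.le_sup (f := gap T) (Finset.mem_filter.2 ⟨Finset.mem_range.2 (by omega), hnT⟩)
    rw [EReal.coe_le_coe_iff]
    exact div_le_div_of_nonneg_right (by exact_mod_cast h1) (by positivity)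

end Pool.Agent.J6H67.CG
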