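import Pool.Agent.J6H67.CG.RelD
import Pool.Agent.J6H39.RS.Mrg

set_option autoImplicit false

/-!
# Project CG (helper67): Shanks' `p(g)` for all sieves `≤ n^(o(1))` (for MP_926cc3_nt)
-/

namespace Pool.Agent.J6H67.CG

open MeasureTheory Filter Finset
open scoped Topology
open Pool.Agent.J6H39.RS

/-- sieves which are `≥ (log n)^ε` infinitely often -/
theorem shanks_inf (ε : ℝ) (hε : 0 < ε) : ∃ c : ℝ, 0 < c ∧ c < 1 ∧ ∀ z : ℕ → ℕ, Monotone z → Sub z →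
    (∃ᶠ n : ℕ in atTop, Real.log n ^ ε ≤ (z n : ℝ)) →
    ∀ {Ω : Type} [mΩ : MeasurableSpace Ω]
    (μ : Measure Ω) [IsProbabilityMeasure μ] (ℱ : Filtration ℕ mΩ) (S : ℕ → Set Ω), IsModel μ ℱ S z →
    ∀ᵐ ω ∂μ, ∃ᶠ g : ℕ in atTop, sInf (Fset {k | ω ∈ S k} g) ∈ Fset {k | ω ∈ S k} g ∧
      Real.log (sInf (Fset {k | ω ∈ S k} g) : ℕ) ≤ c * √(g : ℝ) := by
  obtain ⟨δ, hδ0, hδ1, hT⟩ := thA t_IRR (ε / 3) (by positivity)
  have hp : 0 < 1 - δ / 2 := by linarith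
  have hs1 : √(1 - δ / 2) < 1 := by
    rw [Real.sqrt_lt' one_pos]
    linarith
  have hsp : 0 < √(1 - δ / 2) := Real.sqrt_pos.2 hp
  refine ⟨(1 + √(1 - δ / 2)) / 2, by linarith, by linarith, ?_⟩
  intro z hz hs hfr Ω mΩ μ _ ℱ S hM'
  obtain ⟨c, hcdef⟩ : ∃ c, c = √(1 - δ / 2) := ⟨_, rfl⟩
  have hc2 : c ^ 2 = 1 - δ / 2 := by rw [hcdef, Real.sq_sqrt hp.le]
  rw [← hcdef] at hs1 hsp ⊢
  have hM : ManyA {g : ℕ | (g : ℝ) ^ (ε / 3) ≤ (z (XX c g / 2) : ℝ)} z (1 - δ) c :=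
    mnyA (t_BLK t_FLP) _ z hz hs (1 - δ) c (by linarith) (by linarith) hsp (hT z c hsp)
  have hCRG : S_CRG := t_CRG t_FLI t_PU t_RB t_WSM
  filter_upwards [hCRG μ ℱ S z hM' hz hs,
    lwgA t_PL t_RB μ ℱ S z hM' (t_WSM z hs) _ (1 - δ) c (by linarith) hsp (by rw [hc2]; linarith) hM] with ω h1 h2
  have h3 := scaA z hz ε hfr (ε / 3) (by positivity) le_rfl c hsp
  refine (h3.and_eventually (h2.and ((det3 {k | ω ∈ S k} h1 c hsp).and ((fin_num hs1).and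
    (first_eq {k | ω ∈ S k} h1))))).mono ?_
  rintro g ⟨hA, q1, q2, g6, g7⟩
  have g5 := q2 (q1 hA)
  rw [g7]
  exact ⟨g5.1, g5.2.trans g6⟩

/-- a constant `κ` for all large `g` -/
theorem shanks_thin {κ : ℝ} (hκ : 0 < κ) (hκ1 : κ < 1) {z : ℕ → ℕ} (hz : Monotone z) (hs : Sub z)
    (hT : ∀ c : ℝ, 0 < c → Thin z κ c) {d : ℝ} (hd : √κ < d) (hd1 : d < 1)
    {Ω : Type} [mΩ : MeasurableSpace Ω]
    (μ : Measure Ω) [IsProbabilityMeasure μ] (ℱ : Filtration ℕ mΩ) (S : ℕ → Set Ω) (hM' : IsModel μ ℱ S z) :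
    ∀ᵐ ω ∂μ, ∀ᶠ g : ℕ in atTop, sInf (Fset {k | ω ∈ S k} g) ∈ Fset {k | ω ∈ S k} g ∧
      Real.log (sInf (Fset {k | ω ∈ S k} g) : ℕ) ≤ d * √(g : ℝ) := by
  obtain ⟨c, hc1, hc2⟩ := exists_between hd
  have hsκ : 0 < √κ := Real.sqrt_pos.2 hκ
  have hc : 0 < c := by linarith
  have hκc : κ < c ^ 2 := by
    rw [← Real.sqrt_lt' hc]
    exact hc1
  have hCRG : S_CRG := t_CRG t_FLI t_PU t_RB t_WSM
  have hLWG : S_LWG := t_LWG t_PL t_RB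
  have hMNY : S_MNY := t_MNY (t_BLK t_FLP)
  have hnum : ∀ᶠ g : ℕ in atTop, c * √(g : ℝ) + Real.log 2 ≤ d * √(g : ℝ) := by
    filter_upwards [sq_tend.eventually_ge_atTop (Real.log 2 / (d - c))] with g g6
    have hd' : 0 < d - c := by linarith
    rw [div_le_iff₀ hd'] at g6
    nlinarith
  filter_upwards [hCRG μ ℱ S z hM' hz hs,
    hLWG μ ℱ S z hM' (t_WSM z hs) κ c hκ hc hκc (hMNY z hz hs κ c hκ (by linarith) hc (hT c hc))] with ω h1 h2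
  filter_upwards [h2, det3 {k | ω ∈ S k} h1 c hc, hnum, first_eq {k | ω ∈ S k} h1] with g q1 q2 g6 g7
  have g5 := q2 q1
  rw [g7]
  exact ⟨g5.1, g5.2.trans g6⟩

/-- sieves `≥ (log n)^ε` -/
theorem shanks_all (ε : ℝ) (hε : 0 < ε) : ∃ c : ℝ, 0 < c ∧ c < 1 ∧ ∀ z : ℕ → ℕ, Monotone z → Sub z →
    (∀ᶠ n : ℕ in atTop, Real.log n ^ ε ≤ (z n : ℝ)) →
    ∀ {Ω : Type} [mΩ : MeasurableSpace Ω]
    (μ : Measure Ω) [IsProbabilityMeasure μ] (ℱ : Filtration ℕ mΩ) (S : ℕ → Set Ω), IsModel μ ℱ S z →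
    ∀ᵐ ω ∂μ, ∀ᶠ g : ℕ in atTop, sInf (Fset {k | ω ∈ S k} g) ∈ Fset {k | ω ∈ S k} g ∧
      Real.log (sInf (Fset {k | ω ∈ S k} g) : ℕ) ≤ c * √(g : ℝ) := by
  obtain ⟨δ, hδ0, hδ1, hT⟩ := t_TH2 t_IRR ε hε
  have hp : 0 < 1 - δ := by linarith
  have hs1 : √(1 - δ) < 1 := by
    rw [Real.sqrt_lt' one_pos]
    linarith
  have hsp : 0 < √(1 - δ) := Real.sqrt_pos.2 hp
  refine ⟨(1 + √(1 - δ)) / 2, by linarith, by linarith, ?_⟩
  intro z hz hs hzl Ω mΩ μ _ ℱ S hM'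
  exact shanks_thin hp (by linarith) hz hs (fun c hc => hT z hzl c hc) (by linarith) (by linarith) μ ℱ S hM'

/-- sieves `≥ (log n)^(1-o(1))`: the constant `√(e^γ/2) = 0.943...` -/
theorem shanks_gran (z : ℕ → ℕ) (hz : Monotone z) (hs : Sub z)
    (hzl : ∀ κ : ℝ, 0 < κ → ∀ᶠ n : ℕ in atTop, Real.log n ^ (1 - κ) ≤ (z n : ℝ))
    {d : ℝ} (hd : √(Real.exp Real.eulerMascheroniConstant / 2) < d)
    {Ω : Type} [mΩ : MeasurableSpace Ω]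
    (μ : Measure Ω) [IsProbabilityMeasure μ] (ℱ : Filtration ℕ mΩ) (S : ℕ → Set Ω) (hM' : IsModel μ ℱ S z) :
    ∀ᵐ ω ∂μ, ∀ᶠ g : ℕ in atTop, sInf (Fset {k | ω ∈ S k} g) ∈ Fset {k | ω ∈ S k} g ∧
      Real.log (sInf (Fset {k | ω ∈ S k} g) : ℕ) ≤ d * √(g : ℝ) := by
  have h1 : Real.exp Real.eulerMascheroniConstant / 2 < 1 := by
    have h1 : Real.eulerMascheroniConstant < 2 / 3 := Real.eulerMascheroniConstant_lt_two_thirds
    have h2 : Real.exp Real.eulerMascheroniConstant < Real.exp (2 / 3) := Real.exp_lt_exp.2 h1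
    have h3 : Real.exp (2 / 3) < 2 := by
      have h4 : (Real.exp (2 / 3)) ^ 3 < 2 ^ 3 := by
        rw [← Real.exp_nat_mul]
        norm_num
        have h5 := Real.exp_one_lt_d9
        have h6 : Real.exp 2 = Real.exp 1 ^ 2 := by
          rw [← Real.exp_nat_mul]
          norm_num
        rw [h6]
        nlinarith [Real.exp_pos 1]
      exact lt_of_pow_lt_pow_left₀ 3 (by norm_num) h4
    linarith
  have h2 : √(Real.exp Real.eulerMascheroniConstant / 2) < 1 := by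
    rw [Real.sqrt_lt' one_pos]
    linarith
  obtain ⟨d', hd1, hd2⟩ := exists_between (lt_min hd h2)
  filter_upwards [shanks_thin (κ := Real.exp Real.eulerMascheroniConstant / 2) (by positivity) h1 hz hs
    (fun c hc => t_TH4 t_PN2 z hzl c hc) hd1 (lt_of_lt_of_le hd2 (min_le_right _ _)) μ ℱ S hM'] with ω hω
  filter_upwards [hω] with g hg
  refine ⟨hg.1, hg.2.trans ?_⟩
  exact mul_le_mul_of_nonneg_right (hd2.le.trans (min_le_left _ _)) (Real.sqrt_nonneg _)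

end Pool.Agent.J6H67.CG
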