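import Pool.Agent.J6H67.CG.Stm

set_option autoImplicit false

/-!
# Project CG (helper67), part (3) with the weaker hypothesis `z(n) ≥ (log n)^(1 - o(1))`
-/

namespace Pool.Agent.J6H67.CG

open MeasureTheory Filter Finset
open scoped Topology
open Pool.Agent.J6H39.RS

/-- PN2 (no hypotheses): numbers up to `g` without prime factors `≤ g^((1-κ)/2)`.

PROOF. `y = ⌊g^((1-κ)/2)⌋₊ ≤ √g`. An integer in `[1, g]` without prime factors `≤ y` is `1`, or a prime (at most `π(g)` of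
them), or (as `(y+1)^3 > g`, because `κ < 1/3`) a product `p q ≤ g` of two primes `y < p ≤ q`, so `p ≤ √g`: at most
`∑_{y < p ≤ √g} π(g/p)` of them. `π(x) ≤ C x / log x` (Chebyshev, `C` absolute) and `g/p ≥ √g`, so
`π(g/p) ≤ 2 C g / (p log g)`, and `∑_{y < p ≤ √g} 1/p → log (1/(1-κ)) ≤ 2 κ` (Mertens; take it from
`Pool.Agent.H305R2.mertens_three`: `∏_{y < p ≤ √g} (1 - 1/p)⁻¹ → 1/(1-κ)` and `1/p ≤ log (1 - 1/p)⁻¹`). So there are at most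
`6 C κ g / log g` of them for large `g`. By the prime number theorem (see CG/PNP.lean of helper5, or
`Pool.Agent.Cov.PNT`) `π(g) ≤ (1 + κ) g / log g`, and by Mertens `W y ≤ (e^γ + κ) log y ≤ (e^γ + κ) (log g) / 2`. So the number
times `W y` is at most `(e^γ + κ)/2 * (1 + 2 κ + 6 C κ) g ≤ (e^γ/2 + η) g` if `κ` is small; `W y` is the inverse of the
product. -/
def S_PN2 : Prop := ∀ η : ℝ, 0 < η → ∃ κ : ℝ, 0 < κ ∧ κ < 1 / 3 ∧ ∀ᶠ g : ℕ in atTop,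
  (((Icc 1 g).filter (fun h => ∀ p ∈ (Icc 1 ⌊(g : ℝ) ^ ((1 - κ) / 2)⌋₊).filter Nat.Prime, ¬ p ∣ h)).card : ℝ) ≤
    (Real.exp Real.eulerMascheroniConstant / 2 + η) * g *
      ∏ p ∈ (Icc 1 ⌊(g : ℝ) ^ ((1 - κ) / 2)⌋₊).filter Nat.Prime, (1 - (p : ℝ)⁻¹)

/-- TH4 (hypothesis `S_PN2`): sieves `≥ (log n)^(1 - o(1))`, constant `e^γ/2 = 0.8905...`.

PROOF. `κ` from `S_PN2` for `η`; `P` = the primes `≤ y = ⌊g^((1-κ)/2)⌋₊`. `∏ P = primorial y ≤ 4^y ≤ X^η` for large `g`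
(`y = o(√g)`, `X = ⌊exp (c √g)⌋₊`), and `z(⌊X/2⌋) ≥ (log ⌊X/2⌋)^(1-κ/2) ≥ (c √g / 2)^(1-κ/2) ≥ g^((1-κ)/2) ≥ y`. -/
def S_TH4 : Prop := ∀ z : ℕ → ℕ, (∀ κ : ℝ, 0 < κ → ∀ᶠ n : ℕ in atTop, Real.log n ^ (1 - κ) ≤ (z n : ℝ)) →
  ∀ c : ℝ, 0 < c → Thin z (Real.exp Real.eulerMascheroniConstant / 2) c

end Pool.Agent.J6H67.CG
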